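import Pool.Agent.U857.PX.A9
/-!
Base 10: prescribed digits at a set of places of small density.
-/
set_option autoImplicit false

namespace Pool.Agent.U857.PX

open Finset Filter Topology
open Pool.Agent.W89.PW

open Classical in
/-- prescribed digits at the places of `S` -/
theorem presc10 {δ C : ℝ} (hδ0 : 0 ≤ δ) (hδ : δ ≤ 7 / 25) {r : ℕ}
    (hr : 2778 / 1000 ≤ ((r : ℝ) - 182 / 1000) * (1 - δ)) :
    ∀ᶠ N : ℕ in atTop, ∀ w : ℕ, 10 ^ (2 * N) ≤ w → w < 10 ^ (2 * N + 1) →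
      (Nat.digits 10 w).reverse = Nat.digits 10 w → w.Coprime 10 → ∀ S : Finset ℕ, S ⊆ range (N + 1) →
      (∀ u v : ℕ, u ≤ v → ((S.filter (fun i => u ≤ i ∧ i < v)).card : ℝ) ≤ δ * ((v : ℝ) - u) + C) →
      8 ^ (N - S.card) ≤ ((range (10 ^ (2 * N + 1))).filter (fun n => (Nat.digits 10 n).reverse = Nat.digits 10 n ∧
        n / 10 ^ (2 * N) = w / 10 ^ (2 * N) ∧ n / 10 ^ N % 10 = w / 10 ^ N % 10 ∧
        (∀ i ∈ S, n / 10 ^ i % 10 = w / 10 ^ i % 10) ∧
        n.primeFactorsList.length ≤ r ∧ ∀ p ∈ n.primeFactorsList, (10 : ℝ) ^ ((N : ℝ) / 12) < p)).card := by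
  obtain ⟨_, hκten, hE⟩ := ten_data
  have h0 : 0 < 1 - δ := by linarith
  have hb1 : 1 < 10 := by norm_num
  obtain ⟨κ, hκ⟩ : ∃ κ : ℝ, 277 / 376 * (1 - δ) = κ := ⟨_, rfl⟩
  have hκ0 : 0 < κ := by rw [← hκ]; positivity
  have hκ1 : κ < 1 := by rw [← hκ]; linarith
  have hκ2 : 277 / 376 * (18 / 25) ≤ κ := by rw [← hκ]; linarith
  have hHH0 : 0 < HH 5 6 := by unfold HH; positivity
  have hHH : HH 5 6 < 1 := by unfold HH; norm_num
  have hκH : ((10 : ℕ) : ℝ) ^ κ * HH 5 6 ^ (1 - δ) < 1 := by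
    rw [← hκ, Real.rpow_mul (by positivity), ← Real.mul_rpow (by positivity) hHH0.le]
    exact Real.rpow_lt_one (by positivity) hκten h0
  have hrr : 1 / (8466 / 10000 : ℝ) + 88 / (43 * κ) < r + 1 := by
    have h1 : 88 / (43 * κ) = (33088 / 11911) / (1 - δ) := by
      rw [← hκ]
      field_simp
      norm_num
    have h2 : (33088 / 11911 : ℝ) / (1 - δ) < (r : ℝ) - 182 / 1000 := by
      rw [div_lt_iff₀ h0]
      norm_num
      linarith
    rw [h1]
    norm_num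
    linarith
  -- the window
  obtain ⟨k, hk⟩ : ∃ k : ℕ, 1 ≤ k ∧ 2 * k * δ + C < k := by
    obtain ⟨k, hk⟩ := exists_nat_gt (max 1 (C / (1 - 2 * δ)))
    have h1 := (le_max_left _ _).trans_lt hk
    have h2 := (le_max_right _ _).trans_lt hk
    rw [div_lt_iff₀ (by linarith)] at h2
    exact ⟨k, by exact_mod_cast h1.le, by linarith⟩
  obtain ⟨c, hc0, hc⟩ := sieveP (b := 10) (s := 5) (t := 6) (by norm_num) (by norm_num) (by norm_num) (by norm_num)
    (LOne_HH (by norm_num) (by norm_num) (by norm_num) (by norm_num) hHH) (μ := 10) (by norm_num) (by norm_num)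
    (δ := δ) (by linarith) hκ0 hκ1 hκH (M2_ten_small hδ) C (2 * k) (by omega)
    (m0 := 2 * 10 * 1) (d := 1) (by norm_num) (by norm_num) (by norm_num) (r := r)
    (lam := 8466 / 10000) (by norm_num) (by norm_num) (by norm_num) hrr 3
  -- growth
  have hgrow : ∀ᶠ L : ℕ in atTop, 8 * (L : ℝ) ^ 2 ≤ c ^ 2 * (45 / 44 : ℝ) ^ (L / 2) := by
    have h1 : ∀ᶠ M : ℕ in atTop, (M : ℝ) ^ 2 * (44 / 45) ^ M < c ^ 2 / 128 := by
      have h2 := tendsto_pow_const_mul_const_pow_of_abs_lt_one 2 (r := (44 / 45 : ℝ))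
        (by rw [abs_of_pos (by norm_num)]; norm_num)
      exact h2.eventually (gt_mem_nhds (by positivity))
    have h3 : Tendsto (fun L : ℕ => L / 2) atTop atTop := Nat.tendsto_div_const_atTop (by norm_num)
    filter_upwards [h3.eventually h1, eventually_ge_atTop 2] with L h4 h5
    have h6 : (L : ℝ) ≤ 4 * ((L / 2 : ℕ) : ℝ) := by
      have : L ≤ 4 * (L / 2) := by omega
      exact_mod_cast this
    obtain ⟨M, hM⟩ : ∃ M, L / 2 = M := ⟨_, rfl⟩
    rw [hM] at h4 h6 ⊢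
    have h7 : (0 : ℝ) < (45 / 44) ^ M := by positivity
    have h8 : (44 / 45 : ℝ) ^ M * (45 / 44) ^ M = 1 := by rw [← mul_pow]; norm_num
    have h9 : (L : ℝ) ^ 2 ≤ (4 * (M : ℝ)) ^ 2 := pow_le_pow_left₀ (Nat.cast_nonneg _) h6 2
    have h10 : (M : ℝ) ^ 2 ≤ c ^ 2 / 128 * (45 / 44) ^ M := by
      calc (M : ℝ) ^ 2 = (M : ℝ) ^ 2 * ((44 / 45) ^ M * (45 / 44) ^ M) := by rw [h8, mul_one]
        _ = ((M : ℝ) ^ 2 * (44 / 45) ^ M) * (45 / 44) ^ M := by ring
        _ ≤ _ := mul_le_mul_of_nonneg_right h4.le h7.le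
    have h11 : (4 * (M : ℝ)) ^ 2 = 16 * (M : ℝ) ^ 2 := by ring
    rw [h11] at h9
    linarith
  have hev3 : ∀ᶠ L : ℕ in atTop, C ≤ 22 / 100 * (L : ℝ) :=
    ((tendsto_natCast_atTop_atTop (R := ℝ)).const_mul_atTop
      (by norm_num : (0 : ℝ) < 22 / 100)).eventually_ge_atTop C
  have hall := hc.and (hgrow.and (hev3.and (eventually_ge_atTop 20)))
  have hshift : ∀ᶠ N : ℕ in atTop, ∀ L : ℕ, N = L + 1 → _ :=
    (tendsto_sub_atTop_nat 1).eventually hall |>.mono fun N hN L hL => by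
      rw [hL, Nat.add_sub_cancel] at hN
      exact hN
  filter_upwards [hshift, eventually_ge_atTop 1] with N hN hN1 w hw1 hw2 hwp hwc S hSr hS
  obtain ⟨L, rfl⟩ : ∃ L, N = L + 1 := ⟨N - 1, by omega⟩
  obtain ⟨hN', hgr, hCL, hL20⟩ := hN L rfl
  have hL20r : (20 : ℝ) ≤ L := by exact_mod_cast hL20
  have hL0 : (0 : ℝ) < L := by linarith
  obtain ⟨P, hP⟩ : ∃ P, freeP L S = P := ⟨_, rfl⟩
  have hPsub : P ⊆ range L := by rw [← hP]; exact freeP_sub L S
  have hPD : Dens δ C L P := by rw [← hP]; exact freeP_dens hS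
  have hPA : Adj (2 * k) L P := by rw [← hP]; exact freeP_adj hk.2 hS
  -- the digits of `w`
  obtain ⟨a', ha'⟩ : ∃ a' : ℕ → ℕ, ∀ i, a' i = w / 10 ^ (L + 1 + i) % 10 := ⟨_, fun _ => rfl⟩
  have hpa : palD 10 (L + 1) a' = w := by
    rw [funext ha']
    exact pal_eq hb1 hw1 hw2 hwp
  have hw0 : w / 10 ^ (2 * (L + 1)) < 10 := Nat.div_lt_of_lt_mul (by rw [← pow_succ]; exact hw2)
  have hw00 : 0 < w / 10 ^ (2 * (L + 1)) := Nat.div_pos hw1 (by positivity)
  have ha'top : a' (L + 1) ≠ 0 := by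
    rw [ha', show L + 1 + (L + 1) = 2 * (L + 1) by ring, Nat.mod_eq_of_lt hw0]
    omega
  have ha'lt : ∀ i, a' i < 10 := by
    intro i; rw [ha']; exact Nat.mod_lt _ (by norm_num)
  -- the base point
  obtain ⟨a, ha⟩ : ∃ a : ℕ → ℕ, ∀ i, a i = if 1 ≤ i ∧ i - 1 ∈ P then 0 else a' i := ⟨_, fun _ => rfl⟩
  have halt : ∀ i, a i < 10 := by
    intro i
    rw [ha]
    split_ifs
    · norm_num
    · exact ha'lt i
  have hLP : L ∉ P := fun h => by
    have := mem_range.1 (hPsub h)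
    omega
  have hatopeq : a (L + 1) = a' (L + 1) := by
    rw [ha, if_neg]
    rintro ⟨_, h⟩
    exact hLP (by simpa using h)
  have hazero : a 0 = a' 0 := by
    rw [ha, if_neg]
    rintro ⟨h, _⟩
    omega
  have hatop : a (L + 1) ≠ 0 := by rw [hatopeq]; exact ha'top
  have hDlt : ∀ (m : Fin L → Fin 5 × Fin 6), ∀ i ≤ L + 1, Dm P 1 a m i < 10 := by
    intro m i hi
    cases i with
    | zero => rw [Dm_zero]; exact halt 0
    | succ c' =>
      rw [Dm_succ]
      by_cases hc' : c' < L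
      · rw [dif_pos hc']
        by_cases hcP : c' ∈ P
        · rw [if_pos hcP, ha, if_pos ⟨by omega, by simpa using hcP⟩]
          have h1 := (m ⟨c', hc'⟩).1.is_lt
          have h2 := (m ⟨c', hc'⟩).2.is_lt
          omega
        · rw [if_neg hcP]
          have := halt (c' + 1)
          omega
      · rw [dif_neg hc']
        have := halt (c' + 1)
        omega
  have hDtop : ∀ (m : Fin L → Fin 5 × Fin 6), Dm P 1 a m (L + 1) ≠ 0 := by
    intro m; rw [Dm_top]; exact hatop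
  obtain ⟨B0, hB0⟩ : ∃ B0, palD 10 (L + 1) a = B0 := ⟨_, rfl⟩
  have hval : ∀ m : Fin L → Fin 5 × Fin 6, palD 10 (L + 1) (Dm P 1 a m) = B0 + 1 * vP 10 5 6 L P m := by
    intro m; rw [Dm_val, hB0]
  have hB0pos : 0 < B0 := by
    have := palD_ge (b := 10) (N := L + 1) hatop (by omega)
    rw [hB0] at this
    exact lt_of_lt_of_le (by positivity) this
  have hB0c : B0.Coprime (2 * 10 * 1) := by
    have h1 := palD_digit hb1 (fun i _ => halt i) hatop (i := 0) (by omega)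
    have h2 := palD_digit hb1 (fun i _ => ha'lt i) ha'top (i := 0) (by omega)
    have h3 : Nat.dist 0 (L + 1) = L + 1 := by unfold Nat.dist; omega
    rw [h3, pow_zero, Nat.div_one, hB0, hatopeq] at h1
    rw [h3, pow_zero, Nat.div_one, hpa] at h2
    have h4 : B0 % 10 = w % 10 := by rw [h1, h2]
    have h5 : B0.Coprime 10 := by
      have h6 : B0.gcd 10 = w.gcd 10 := Nat.ModEq.gcd_eq h4
      rw [Nat.Coprime, h6]
      exact hwc
    rw [mul_one]
    exact cop20 h5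
  obtain ⟨G, hG1, hG2⟩ := hN' P hPD hPA B0 (2 * L + 3) (by push_cast; exact le_rfl) (by
    intro m
    refine ⟨Nat.add_pos_left hB0pos _, ?_, n_coprime _ m hB0c⟩
    rw [← hval m]
    have := palD_lt hb1 (hDlt m)
    rwa [show 2 * (L + 1) + 1 = 2 * L + 3 by ring] at this)
  obtain ⟨F, hF⟩ : ∃ F : (Fin L → Fin 5 × Fin 6) → ℕ, ∀ m, F m = B0 + 1 * vP 10 5 6 L P m := ⟨_, fun _ => rfl⟩
  have hinj : ∀ m m' : Fin L → Fin 5 × Fin 6, F m = F m' → ∀ c : Fin L, (c : ℕ) ∈ P →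
      ((m c).1 : ℕ) + ((m c).2 : ℕ) = ((m' c).1 : ℕ) + ((m' c).2 : ℕ) := by
    intro m m' h c' hcP
    rw [hF, hF, ← hval, ← hval] at h
    have h1 := palD_digit hb1 (hDlt m) (hDtop m) (i := L + 1 + (c' + 1)) (by have := c'.is_lt; omega)
    have h2 := palD_digit hb1 (hDlt m') (hDtop m') (i := L + 1 + (c' + 1)) (by have := c'.is_lt; omega)
    rw [h, h2] at h1
    have h3 : Nat.dist (L + 1 + (c' + 1)) (L + 1) = c' + 1 := by unfold Nat.dist; omega
    rw [h3, Dm_succ, Dm_succ, dif_pos c'.is_lt, dif_pos c'.is_lt, if_pos hcP, if_pos hcP] at h1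
    simp only [Fin.eta] at h1
    omega
  have hcs := card_sq_leP P hPsub F hinj G
  have hsub : (G.image F).card ≤ ((range (10 ^ (2 * (L + 1) + 1))).filter (fun n =>
        (Nat.digits 10 n).reverse = Nat.digits 10 n ∧
        n / 10 ^ (2 * (L + 1)) = w / 10 ^ (2 * (L + 1)) ∧ n / 10 ^ (L + 1) % 10 = w / 10 ^ (L + 1) % 10 ∧
        (∀ i ∈ S, n / 10 ^ i % 10 = w / 10 ^ i % 10) ∧
        n.primeFactorsList.length ≤ r ∧
        ∀ p ∈ n.primeFactorsList, (10 : ℝ) ^ (((L + 1 : ℕ) : ℝ) / 12) < p)).card := by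
    apply card_le_card
    intro n hn
    rw [mem_image] at hn
    obtain ⟨m, hm, rfl⟩ := hn
    obtain ⟨k1, k2⟩ := hG2 m hm
    rw [← hF] at k1 k2
    have hFm : F m = palD 10 (L + 1) (Dm P 1 a m) := by rw [hF, hval]
    have hlt : F m < 10 ^ (2 * (L + 1) + 1) := by rw [hFm]; exact palD_lt hb1 (hDlt m)
    have hdig : ∀ i ≤ 2 * (L + 1), F m / 10 ^ i % 10 = Dm P 1 a m (Nat.dist i (L + 1)) := by
      intro i hi
      rw [hFm]
      exact palD_digit hb1 (hDlt m) (hDtop m) hi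
    have hdigw : ∀ i ≤ 2 * (L + 1), w / 10 ^ i % 10 = a' (Nat.dist i (L + 1)) := by
      intro i hi
      have := palD_digit hb1 (fun i _ => ha'lt i) ha'top hi
      rwa [hpa] at this
    rw [mem_filter, mem_range]
    refine ⟨hlt, ?_, ?_, ?_, ?_, k1, fun p hp => lt_of_le_of_lt ?_ (k2 p hp)⟩
    · rw [hFm]; exact palD_pal hb1 (hDlt m) (hDtop m)
    · have h1 := hdig (2 * (L + 1)) le_rfl
      have h2 := hdigw (2 * (L + 1)) le_rfl
      have h3 : Nat.dist (2 * (L + 1)) (L + 1) = L + 1 := by unfold Nat.dist; omega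
      have h4 : F m / 10 ^ (2 * (L + 1)) < 10 := Nat.div_lt_of_lt_mul (by rw [← pow_succ]; exact hlt)
      rw [h3, Dm_top, Nat.mod_eq_of_lt h4, hatopeq] at h1
      rw [h3, Nat.mod_eq_of_lt hw0] at h2
      rw [h1, h2]
    · rw [hdig (L + 1) (by omega), hdigw (L + 1) (by omega), Nat.dist_self, Dm_zero, hazero]
    · intro i hi
      have hiL := mem_range.1 (hSr hi)
      rw [hdig i (by omega), hdigw i (by omega)]
      obtain ⟨c', hc'⟩ : ∃ c', Nat.dist i (L + 1) = c' := ⟨_, rfl⟩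
      rw [hc']
      have hc'2 : c' = L + 1 - i := by rw [← hc']; unfold Nat.dist; omega
      cases c' with
      | zero => rw [Dm_zero, hazero]
      | succ c' =>
        have hcP : c' ∉ P := by
          rw [← hP]
          unfold freeP
          rw [mem_filter, mem_range]
          rintro ⟨_, h2⟩
          apply h2
          rw [show L - c' = i by omega]
          exact hi
        rw [Dm_succ, ha, if_neg (by rintro ⟨_, h⟩; exact hcP (by simpa using h))]
        split_ifs <;> simp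
    · push_cast
      apply Real.rpow_le_rpow_of_exponent_le (by norm_num)
      have h1 : 277 / 376 * (18 / 25) / 6 * (L : ℝ) ≤ κ / 6 * L := by
        apply mul_le_mul_of_nonneg_right _ hL0.le
        linarith
      linarith
  -- the count
  have hPc : L ≤ P.card + S.card := by
    have h1 := freeP_count (L := L) (S := S) 0 L (Nat.zero_le _) le_rfl
    rw [hP] at h1
    have h2 := card_filter_le P (fun c => 0 ≤ c ∧ c < L)
    have h3 := card_filter_le S (fun i => L + 1 - L ≤ i ∧ i < L + 1 - 0)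
    omega
  have hPL : L / 2 ≤ P.card := by
    have h1 := hPD.2 L le_rfl
    have h2 : P.filter (fun c => c < L) = P := filter_true_of_mem fun c hc => mem_range.1 (hPsub hc)
    rw [h2] at h1
    have h3 : (L : ℝ) / 2 ≤ P.card := by
      have h5 := mul_le_mul_of_nonneg_right hδ hL0.le
      have h6 : (1 - δ) * (L : ℝ) = L - δ * L := by ring
      rw [h6] at h1
      linarith
    have h4 : ((L / 2 : ℕ) : ℝ) ≤ (L : ℝ) / 2 := by
      have := Nat.cast_div_le (α := ℝ) (m := L) (n := 2)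
      simpa using this
    exact_mod_cast h4.trans h3
  have hPle : P.card ≤ L := by
    have := card_le_card hPsub
    rwa [card_range] at this
  rw [hE] at hcs
  have hcsR : (G.card : ℝ) ^ 2 ≤ ((G.image F).card : ℝ) * ((110 : ℝ) ^ P.card * (900 : ℝ) ^ (L - P.card)) := by
    have h1 := (Nat.cast_le (α := ℝ)).2 hcs
    push_cast at h1
    exact h1
  have hGR : c * (30 : ℝ) ^ L / L ≤ G.card := by
    have e : (((5 : ℕ) : ℝ) * ((6 : ℕ) : ℝ)) = 30 := by norm_num
    rwa [e] at hG1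
  have hG2' : (c * (30 : ℝ) ^ L / L) ^ 2 ≤ (G.card : ℝ) ^ 2 := pow_le_pow_left₀ (by positivity) hGR 2
  have hpow : (30 : ℝ) ^ L * (30 : ℝ) ^ L = (900 : ℝ) ^ P.card * (900 : ℝ) ^ (L - P.card) := by
    rw [← pow_add (900 : ℝ), ← mul_pow, show P.card + (L - P.card) = L by omega]
    norm_num
  have hI : (8 : ℝ) ^ (P.card + 1) ≤ ((G.image F).card : ℝ) := by
    have h1 : c ^ 2 * ((900 : ℝ) ^ P.card * (900 : ℝ) ^ (L - P.card)) ≤
        ((G.image F).card : ℝ) * ((110 : ℝ) ^ P.card * (900 : ℝ) ^ (L - P.card)) * (L : ℝ) ^ 2 := by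
      have h2 : (c * (30 : ℝ) ^ L / L) ^ 2 * (L : ℝ) ^ 2 = c ^ 2 * ((30 : ℝ) ^ L * (30 : ℝ) ^ L) := by
        field_simp
      have h3 := mul_le_mul_of_nonneg_right (hG2'.trans hcsR) (by positivity : (0 : ℝ) ≤ (L : ℝ) ^ 2)
      rw [h2, hpow] at h3
      exact h3
    have h4 : c ^ 2 * (900 : ℝ) ^ P.card ≤ ((G.image F).card : ℝ) * (110 : ℝ) ^ P.card * (L : ℝ) ^ 2 := by
      have h5 : (0 : ℝ) < (900 : ℝ) ^ (L - P.card) := by positivity
      have h6 : (c ^ 2 * (900 : ℝ) ^ P.card) * (900 : ℝ) ^ (L - P.card) ≤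
          (((G.image F).card : ℝ) * (110 : ℝ) ^ P.card * (L : ℝ) ^ 2) * (900 : ℝ) ^ (L - P.card) := by
        linarith
      exact le_of_mul_le_mul_right h6 h5
    have h5 : (900 : ℝ) ^ P.card = 8 ^ P.card * (45 / 44) ^ P.card * 110 ^ P.card := by
      rw [← mul_pow, ← mul_pow]; norm_num
    rw [h5] at h4
    have h6 : c ^ 2 * (8 ^ P.card * (45 / 44) ^ P.card) ≤ ((G.image F).card : ℝ) * (L : ℝ) ^ 2 := by
      have h7 : (0 : ℝ) < (110 : ℝ) ^ P.card := by positivity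
      have h8 : (c ^ 2 * (8 ^ P.card * (45 / 44) ^ P.card)) * (110 : ℝ) ^ P.card ≤
          (((G.image F).card : ℝ) * (L : ℝ) ^ 2) * (110 : ℝ) ^ P.card := by linarith
      exact le_of_mul_le_mul_right h8 h7
    have h7 : (45 / 44 : ℝ) ^ (L / 2) ≤ (45 / 44) ^ P.card := pow_le_pow_right₀ (by norm_num) hPL
    have h8 : 8 ^ (P.card + 1) * (L : ℝ) ^ 2 ≤ ((G.image F).card : ℝ) * (L : ℝ) ^ 2 := by
      calc 8 ^ (P.card + 1) * (L : ℝ) ^ 2 = 8 ^ P.card * (8 * (L : ℝ) ^ 2) := by ring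
        _ ≤ 8 ^ P.card * (c ^ 2 * (45 / 44 : ℝ) ^ P.card) := by
            apply mul_le_mul_of_nonneg_left _ (by positivity)
            exact hgr.trans (mul_le_mul_of_nonneg_left h7 (by positivity))
        _ = c ^ 2 * (8 ^ P.card * (45 / 44) ^ P.card) := by ring
        _ ≤ _ := h6
    exact le_of_mul_le_mul_right h8 (by positivity)
  have hI' : 8 ^ (P.card + 1) ≤ (G.image F).card := by exact_mod_cast hI
  exact (Nat.pow_le_pow_right (by norm_num) (by omega)).trans (hI'.trans hsub)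

end Pool.Agent.U857.PX
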