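import Pool.Agent.U857.PX.A7
/-!
Palindromes obtained from a given palindrome by raising some of its digits by the same amount.
-/
set_option autoImplicit false

namespace Pool.Agent.U857.PX

open Finset Filter Topology
open Pool.Agent.W89.PW

lemma wm_two (m : ℕ) : ∀ z : ℕ, wm 2 1 m z = m.choose z := by
  induction m with
  | zero =>
    intro z
    unfold wm
    cases z with
    | zero => simp
    | succ z => simp
  | succ m ih =>
    intro z
    rw [wm]
    simp only [sum_range_succ, range_zero, sum_empty, zero_add, Nat.zero_le, if_true, Nat.sub_zero, add_zero]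
    cases z with
    | zero => simp [ih]
    | succ z =>
      rw [if_pos (by omega), ih, Nat.add_sub_cancel, ih, Nat.choose_succ_succ]
      ring

lemma cb_le (n : ℕ) : (3 * n + 1) * n.centralBinom ^ 2 ≤ 16 ^ n := by
  induction n with
  | zero => simp
  | succ n ih =>
    have h1 := Nat.succ_mul_centralBinom_succ n
    have h2 : (n + 1) ^ 2 * ((3 * (n + 1) + 1) * (n + 1).centralBinom ^ 2) ≤ (n + 1) ^ 2 * 16 ^ (n + 1) := by
      calc (n + 1) ^ 2 * ((3 * (n + 1) + 1) * (n + 1).centralBinom ^ 2)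
          = (3 * (n + 1) + 1) * ((n + 1) * (n + 1).centralBinom) ^ 2 := by ring
        _ = (3 * (n + 1) + 1) * (2 * (2 * n + 1)) ^ 2 * n.centralBinom ^ 2 := by rw [h1]; ring
        _ ≤ (16 * (n + 1) ^ 2 * (3 * n + 1)) * n.centralBinom ^ 2 := by
            apply Nat.mul_le_mul_right
            nlinarith
        _ = 16 * (n + 1) ^ 2 * ((3 * n + 1) * n.centralBinom ^ 2) := by ring
        _ ≤ 16 * (n + 1) ^ 2 * 16 ^ n := Nat.mul_le_mul_left _ ih
        _ = _ := by ring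
    exact Nat.le_of_mul_le_mul_left h2 (by positivity)

lemma M2_two (m : ℕ) : M2 2 1 m = (m.centralBinom : ℝ) / 4 ^ m := by
  unfold M2
  have h1 : ∑ z ∈ range (m * (2 + 1 - 2) + 1), (wm 2 1 m z : ℝ) ^ 2 = (m.centralBinom : ℝ) := by
    rw [show m * (2 + 1 - 2) + 1 = m + 1 by omega]
    rw [Nat.centralBinom_eq_two_mul_choose, ← Nat.sum_range_choose_sq]
    push_cast
    apply sum_congr rfl
    intro z _
    rw [wm_two]
  rw [h1]
  congr 1
  push_cast
  rw [mul_one, pow_mul]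
  norm_num

lemma M2_small {b : ℕ} (hb : 2 ≤ b) : (b : ℝ) * M2 2 1 (b * (b - 1)) < 1 := by
  obtain ⟨μ, hμ⟩ : ∃ μ, b * (b - 1) = μ := ⟨_, rfl⟩
  rw [hμ, M2_two, mul_div_assoc', div_lt_one (by positivity)]
  have h1 := cb_le μ
  have h2 : b ^ 2 < 3 * μ + 1 := by
    rw [← hμ]
    obtain ⟨k, rfl⟩ : ∃ k, b = k + 2 := ⟨b - 2, by omega⟩
    rw [show k + 2 - 1 = k + 1 by omega]
    nlinarith
  have h3 : (b * μ.centralBinom) ^ 2 < (4 ^ μ) ^ 2 := by
    have hc : 0 < μ.centralBinom := Nat.centralBinom_pos μ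
    calc (b * μ.centralBinom) ^ 2 = b ^ 2 * μ.centralBinom ^ 2 := by ring
      _ < (3 * μ + 1) * μ.centralBinom ^ 2 := Nat.mul_lt_mul_of_pos_right h2 (by positivity)
      _ ≤ 16 ^ μ := h1
      _ = (4 ^ μ) ^ 2 := by rw [← pow_mul, mul_comm μ 2, pow_mul]; norm_num
  have h4 := lt_of_pow_lt_pow_left₀ 2 (by positivity) h3
  exact_mod_cast h4

lemma fr_even {b L c : ℕ} (hc : c < L) : 2 ∣ fr b L c := by
  unfold fr
  rw [← even_iff_two_dvd, Nat.even_add, Nat.even_pow, Nat.even_pow]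
  have h1 : L + c + 2 ≠ 0 := by omega
  have h2 : L - c ≠ 0 := by omega
  tauto

lemma fr_dvd {b L c : ℕ} (hc : c < L) : b ∣ fr b L c := by
  unfold fr
  exact dvd_add (dvd_pow_self b (by omega)) (dvd_pow_self b (by omega))

lemma vP_dvd {b s t L : ℕ} (P : Finset ℕ) (m : Fin L → Fin s × Fin t) : b ∣ vP b s t L P m ∧ 2 ∣ vP b s t L P m := by
  unfold vP
  constructor
  · apply dvd_sum
    intro c _
    exact Dvd.dvd.mul_left (fr_dvd c.is_lt) _
  · apply dvd_sum
    intro c _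
    exact Dvd.dvd.mul_left (fr_even c.is_lt) _

/-- the numbers are prime to `2 b d` if the base point is -/
lemma n_coprime {b s t L : ℕ} (P : Finset ℕ) (m : Fin L → Fin s × Fin t) {w d : ℕ} (hw : w.Coprime (2 * b * d)) :
    (w + d * vP b s t L P m).Coprime (2 * b * d) := by
  obtain ⟨h1, h2⟩ := vP_dvd (b := b) P m
  have hwd : w.Coprime d := Nat.Coprime.coprime_dvd_right (Dvd.intro_left _ rfl) hw
  have hwb : w.Coprime b := Nat.Coprime.coprime_dvd_right ⟨2 * d, by ring⟩ hw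
  have hw2 : w.Coprime 2 := Nat.Coprime.coprime_dvd_right ⟨b * d, by ring⟩ hw
  apply Nat.Coprime.mul_right
  · apply Nat.Coprime.mul_right
    · obtain ⟨k, hk⟩ := h2
      rw [hk, show w + d * (2 * k) = w + 2 * (d * k) by ring, Nat.coprime_add_mul_left_left]
      exact hw2
    · obtain ⟨k, hk⟩ := h1
      rw [hk, show w + d * (b * k) = w + b * (d * k) by ring, Nat.coprime_add_mul_left_left]
      exact hwb
  · rw [Nat.coprime_add_mul_left_left]
    exact hwd

lemma dens_all (L : ℕ) : Dens 0 0 L (range L) := by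
  refine ⟨subset_refl _, fun v hv => ?_⟩
  have h1 : (range L).filter (fun c => c < v) = range v := by
    ext c
    rw [mem_filter, mem_range, mem_range]
    omega
  rw [h1, card_range]
  linarith

lemma adj_all (L : ℕ) : Adj 2 L (range L) := by
  intro u hu
  exact ⟨u, le_rfl, le_rfl, by rw [mem_range]; omega, by rw [mem_range]; omega⟩

open Classical in
/-- raising digits by a fixed `d` -/
theorem raise1 {b r d : ℕ} (hb : 3 ≤ b) (hr : 591 / 100 * Real.log b + 182 / 1000 ≤ r) (hd : 0 < d) :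
    ∃ c : ℝ, 0 < c ∧ ∀ᶠ N : ℕ in atTop, ∀ w : ℕ, b ^ (2 * N) ≤ w → w < b ^ (2 * N + 1) →
      (Nat.digits b w).reverse = Nat.digits b w → w.Coprime (2 * b * d) →
      (∀ i, 0 < i → i < 2 * N → i ≠ N → w / b ^ i % b + d < b) →
      c * 2 ^ N / N ≤ (((range (b ^ (2 * N + 1))).filter (fun n => (Nat.digits b n).reverse = Nat.digits b n ∧
        n / b ^ (2 * N) = w / b ^ (2 * N) ∧ n / b ^ N % b = w / b ^ N % b ∧
        (∀ i, 0 < i → i < 2 * N → i ≠ N → n / b ^ i % b = w / b ^ i % b ∨ n / b ^ i % b = w / b ^ i % b + d) ∧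
        n.primeFactorsList.length ≤ r ∧ ∀ p ∈ n.primeFactorsList, (2 : ℝ) ^ ((N : ℝ) / 13) < p)).card : ℝ) := by
  have hb1 : 1 < b := by omega
  have hbR : (3 : ℝ) ≤ b := by exact_mod_cast hb
  have hb0 : (0 : ℝ) < b := by linarith
  have hl1 : 1 < Real.log b := by
    rw [Real.lt_log_iff_exp_lt hb0]
    have := Real.exp_one_lt_d9
    linarith
  have hl0 : 0 < Real.log b := by linarith
  obtain ⟨κ, hκ⟩ : ∃ κ : ℝ, 34657 / 100000 / Real.log b = κ := ⟨_, rfl⟩
  have hκl : κ * Real.log b = 34657 / 100000 := by rw [← hκ]; field_simp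
  have hκ0 : 0 < κ := by rw [← hκ]; positivity
  have hκ1 : κ < 1 := by
    rw [← hκ, div_lt_one hl0]
    linarith
  have hs2 : 0 < Real.sqrt 2 := Real.sqrt_pos.2 (by norm_num)
  have hlog2 : Real.log (Real.sqrt 2) = Real.log 2 / 2 := Real.log_sqrt (by norm_num)
  have hκH : (b : ℝ) ^ κ * (1 / Real.sqrt 2) ^ (1 - (0 : ℝ)) < 1 := by
    rw [sub_zero, Real.rpow_one, mul_one_div, div_lt_one hs2, ← Real.log_lt_log_iff (by positivity) hs2,
      Real.log_rpow hb0, hκl, hlog2]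
    have := Real.log_two_gt_d9
    linarith
  have hM : (b : ℝ) * M2 2 1 (b * (b - 1)) ^ (1 - (0 : ℝ)) < 1 := by
    rw [sub_zero, Real.rpow_one]
    exact M2_small (by omega)
  have hrr : 1 / (8466 / 10000 : ℝ) + 88 / (43 * κ) < r + 1 := by
    have h1 : 88 / (43 * κ) = 88 / (43 * (34657 / 100000)) * Real.log b := by
      rw [← hκ]; field_simp
    rw [h1]
    have h2 : (88 / (43 * (34657 / 100000)) : ℝ) * Real.log b ≤ 591 / 100 * Real.log b :=
      mul_le_mul_of_nonneg_right (by norm_num) hl0.le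
    norm_num at h2 ⊢
    linarith
  have hμ1 : 1 ≤ b * (b - 1) := Nat.mul_pos (by omega) (by omega)
  obtain ⟨c, hc0, hc⟩ := sieveP (b := b) (s := 2) (t := 1) (by omega) le_rfl (by omega) le_rfl (LOne_two hb) hμ1
    (by rw [show 2 + 1 - 2 = 1 by norm_num, mul_one]) (δ := 0) (by norm_num) hκ0 hκ1 hκH hM 0 2 (by norm_num)
    (m0 := 2 * b * d) (d := d) (by positivity) (Dvd.intro _ rfl) (Dvd.intro_left _ rfl) (r := r)
    (lam := 8466 / 10000) (by norm_num) (by norm_num) (by norm_num) hrr 3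
  refine ⟨c / 2, by positivity, ?_⟩
  have hshift : ∀ᶠ N : ℕ in atTop, ∃ L : ℕ, N = L + 1 ∧ (1 : ℝ) ≤ L ∧ (2 : ℝ) ^ ((N : ℝ) / 13) ≤ (b : ℝ) ^ (κ / 6 * L) ∧
      ∀ P : Finset ℕ, Dens 0 0 L P → Adj 2 L P → ∀ B0 Mx : ℕ,
      (Mx : ℝ) ≤ 2 * L + 3 → (∀ m : Fin L → Fin 2 × Fin 1, 0 < B0 + d * vP b 2 1 L P m ∧
        B0 + d * vP b 2 1 L P m < b ^ Mx ∧ (B0 + d * vP b 2 1 L P m).Coprime (2 * b * d)) →
      ∃ G : Finset (Fin L → Fin 2 × Fin 1), c * (((2 : ℕ) : ℝ) * ((1 : ℕ) : ℝ)) ^ L / L ≤ G.card ∧ ∀ m ∈ G,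
        (B0 + d * vP b 2 1 L P m).primeFactorsList.length ≤ r ∧
        ∀ p ∈ (B0 + d * vP b 2 1 L P m).primeFactorsList, (b : ℝ) ^ (κ / 6 * L) < p := by
    have h1 : ∀ᶠ N : ℕ in atTop, ∀ L : ℕ, N = L + 1 → _ :=
      (tendsto_sub_atTop_nat 1).eventually hc |>.mono fun N hN L hL => by
        rw [hL, Nat.add_sub_cancel] at hN
        exact hN
    filter_upwards [h1, eventually_ge_atTop 20] with N h2 h3
    refine ⟨N - 1, by omega, ?_, ?_, h2 (N - 1) (by omega)⟩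
    · have : 1 ≤ N - 1 := by omega
      exact_mod_cast this
    · rw [← Real.log_le_log_iff (by positivity) (by positivity), Real.log_rpow (by norm_num), Real.log_rpow hb0]
      have h4 : κ / 6 * ((N - 1 : ℕ) : ℝ) * Real.log b = 34657 / 600000 * ((N - 1 : ℕ) : ℝ) := by
        calc κ / 6 * ((N - 1 : ℕ) : ℝ) * Real.log b = (κ * Real.log b) * ((N - 1 : ℕ) : ℝ) / 6 := by ring
          _ = _ := by rw [hκl]; ring
      rw [h4]
      have h5 : ((N - 1 : ℕ) : ℝ) = N - 1 := by push_cast [Nat.cast_sub (show 1 ≤ N by omega)]; ring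
      rw [h5]
      have h6 := Real.log_two_lt_d9
      have h7 : (20 : ℝ) ≤ N := by exact_mod_cast h3
      have h8 : (N : ℝ) / 13 * Real.log 2 ≤ N / 13 * 0.6931471808 := mul_le_mul_of_nonneg_left h6.le (by positivity)
      linarith
  filter_upwards [hshift] with N hN w hw1 hw2 hwp hwc hwd
  obtain ⟨L, rfl, hL1, hpr, hN'⟩ := hN
  have hL0 : (0 : ℝ) < L := by linarith
  obtain ⟨a, ha⟩ : ∃ a : ℕ → ℕ, ∀ i, a i = w / b ^ (L + 1 + i) % b := ⟨_, fun _ => rfl⟩
  have hpa : palD b (L + 1) a = w := by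
    rw [funext ha]
    exact pal_eq hb1 hw1 hw2 hwp
  have hw0 : w / b ^ (2 * (L + 1)) < b := Nat.div_lt_of_lt_mul (by rw [← pow_succ]; exact hw2)
  have hw00 : 0 < w / b ^ (2 * (L + 1)) := Nat.div_pos hw1 (by positivity)
  have hatop : a (L + 1) ≠ 0 := by
    rw [ha, show L + 1 + (L + 1) = 2 * (L + 1) by ring, Nat.mod_eq_of_lt hw0]
    omega
  have hDlt : ∀ (m : Fin L → Fin 2 × Fin 1), ∀ i ≤ L + 1, Dm (range L) d a m i < b := by
    intro m i hi
    cases i with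
    | zero => rw [Dm_zero, ha]; exact Nat.mod_lt _ (by omega)
    | succ c =>
      rw [Dm_succ]
      by_cases hc' : c < L
      · rw [dif_pos hc', if_pos (mem_range.2 hc')]
        have h1 := (m ⟨c, hc'⟩).1.is_lt
        have h2 := (m ⟨c, hc'⟩).2.is_lt
        have h3 := hwd (L + 1 + (c + 1)) (by omega) (by omega) (by omega)
        rw [← ha] at h3
        have h4 : d * (((m ⟨c, hc'⟩).1 : ℕ) + ((m ⟨c, hc'⟩).2 : ℕ)) ≤ d * 1 := Nat.mul_le_mul_left _ (by omega)
        omega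
      · rw [dif_neg hc', mul_zero, add_zero, ha]
        exact Nat.mod_lt _ (by omega)
  have hDtop : ∀ (m : Fin L → Fin 2 × Fin 1), Dm (range L) d a m (L + 1) ≠ 0 := by
    intro m; rw [Dm_top]; exact hatop
  have halt : ∀ i ≤ L + 1, a i < b := by
    intro i _; rw [ha]; exact Nat.mod_lt _ (by omega)
  have hval : ∀ m : Fin L → Fin 2 × Fin 1, palD b (L + 1) (Dm (range L) d a m) = w + d * vP b 2 1 L (range L) m := by
    intro m; rw [Dm_val, hpa]
  obtain ⟨G, hG1, hG2⟩ := hN' (range L) (dens_all L) (adj_all L) w (2 * L + 3) (by push_cast; exact le_rfl) (by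
    intro m
    refine ⟨Nat.add_pos_left (lt_of_lt_of_le (by positivity) hw1) _, ?_, n_coprime _ m hwc⟩
    rw [← hval m]
    have := palD_lt hb1 (hDlt m)
    rwa [show 2 * (L + 1) + 1 = 2 * L + 3 by ring] at this)
  obtain ⟨F, hF⟩ : ∃ F : (Fin L → Fin 2 × Fin 1) → ℕ, ∀ m, F m = w + d * vP b 2 1 L (range L) m := ⟨_, fun _ => rfl⟩
  have hinj : Function.Injective F := by
    intro m m' h
    rw [hF, hF, ← hval, ← hval] at h
    funext c
    have h1 := palD_digit hb1 (hDlt m) (hDtop m) (i := L + 1 + (c + 1)) (by have := c.is_lt; omega)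
    have h2 := palD_digit hb1 (hDlt m') (hDtop m') (i := L + 1 + (c + 1)) (by have := c.is_lt; omega)
    rw [h, h2] at h1
    have h3 : Nat.dist (L + 1 + (c + 1)) (L + 1) = c + 1 := by unfold Nat.dist; omega
    rw [h3, Dm_succ, Dm_succ, dif_pos c.is_lt, dif_pos c.is_lt, if_pos (mem_range.2 c.is_lt),
      if_pos (mem_range.2 c.is_lt)] at h1
    have h4 : d * (((m' c).1 : ℕ) + ((m' c).2 : ℕ)) = d * (((m c).1 : ℕ) + ((m c).2 : ℕ)) := by
      simp only [Fin.eta] at h1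
      omega
    have h5 := Nat.eq_of_mul_eq_mul_left hd h4
    have h6 := (m c).2.is_lt
    have h7 := (m' c).2.is_lt
    apply Prod.ext
    · apply Fin.ext; omega
    · apply Fin.ext; omega
  have hcard : (G.image F).card = G.card := card_image_of_injective G hinj
  have hsub : (G.image F).card ≤ ((range (b ^ (2 * (L + 1) + 1))).filter (fun n =>
        (Nat.digits b n).reverse = Nat.digits b n ∧
        n / b ^ (2 * (L + 1)) = w / b ^ (2 * (L + 1)) ∧ n / b ^ (L + 1) % b = w / b ^ (L + 1) % b ∧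
        (∀ i, 0 < i → i < 2 * (L + 1) → i ≠ L + 1 → n / b ^ i % b = w / b ^ i % b ∨
          n / b ^ i % b = w / b ^ i % b + d) ∧
        n.primeFactorsList.length ≤ r ∧ ∀ p ∈ n.primeFactorsList, (2 : ℝ) ^ (((L + 1 : ℕ) : ℝ) / 13) < p)).card := by
    apply card_le_card
    intro n hn
    rw [mem_image] at hn
    obtain ⟨m, hm, rfl⟩ := hn
    obtain ⟨k1, k2⟩ := hG2 m hm
    rw [← hF] at k1 k2
    have hFm : F m = palD b (L + 1) (Dm (range L) d a m) := by rw [hF, hval]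
    have hlt : F m < b ^ (2 * (L + 1) + 1) := by rw [hFm]; exact palD_lt hb1 (hDlt m)
    have hdig : ∀ i ≤ 2 * (L + 1), F m / b ^ i % b = Dm (range L) d a m (Nat.dist i (L + 1)) := by
      intro i hi
      rw [hFm]
      exact palD_digit hb1 (hDlt m) (hDtop m) hi
    have hdigw : ∀ i ≤ 2 * (L + 1), w / b ^ i % b = a (Nat.dist i (L + 1)) := by
      intro i hi
      have := palD_digit hb1 halt hatop hi
      rwa [hpa] at this
    rw [mem_filter, mem_range]
    refine ⟨hlt, ?_, ?_, ?_, ?_, k1, fun p hp => lt_of_le_of_lt hpr (k2 p hp)⟩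
    · rw [hFm]; exact palD_pal hb1 (hDlt m) (hDtop m)
    · have h1 := hdig (2 * (L + 1)) le_rfl
      have h2 := hdigw (2 * (L + 1)) le_rfl
      have h3 : Nat.dist (2 * (L + 1)) (L + 1) = L + 1 := by unfold Nat.dist; omega
      have h4 : F m / b ^ (2 * (L + 1)) < b := Nat.div_lt_of_lt_mul (by rw [← pow_succ]; exact hlt)
      rw [h3, Dm_top, Nat.mod_eq_of_lt h4] at h1
      rw [h3, Nat.mod_eq_of_lt hw0] at h2
      rw [h1, h2]
    · rw [hdig (L + 1) (by omega), hdigw (L + 1) (by omega), Nat.dist_self, Dm_zero]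
    · intro i hi0 hi1 hi2
      rw [hdig i (by omega), hdigw i (by omega)]
      obtain ⟨c', hc'⟩ : ∃ c', Nat.dist i (L + 1) = c' + 1 := by
        refine ⟨Nat.dist i (L + 1) - 1, ?_⟩
        unfold Nat.dist; omega
      have hc'L : c' < L := by unfold Nat.dist at hc'; omega
      rw [hc', Dm_succ, dif_pos hc'L, if_pos (mem_range.2 hc'L)]
      have h1 := (m ⟨c', hc'L⟩).1.is_lt
      have h2 := (m ⟨c', hc'L⟩).2.is_lt
      have h3 : ((m ⟨c', hc'L⟩).1 : ℕ) + ((m ⟨c', hc'L⟩).2 : ℕ) = 0 ∨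
          ((m ⟨c', hc'L⟩).1 : ℕ) + ((m ⟨c', hc'L⟩).2 : ℕ) = 1 := by omega
      rcases h3 with h3 | h3
      · left; rw [h3]; ring
      · right; rw [h3]; ring
  have h1 : c / 2 * 2 ^ (L + 1) / ((L + 1 : ℕ) : ℝ) ≤ c * (((2 : ℕ) : ℝ) * ((1 : ℕ) : ℝ)) ^ L / L := by
    push_cast
    rw [mul_one, show c / 2 * 2 ^ (L + 1) = c * 2 ^ L by ring]
    apply div_le_div_of_nonneg_left (by positivity) hL0 (by linarith)
  rw [hcard] at hsub
  exact h1.trans (hG1.trans (by exact_mod_cast hsub))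

open Classical in
/-- raising digits by `d`, uniformly in `d` -/
theorem raise {b r : ℕ} (hb : 3 ≤ b) (hr : 591 / 100 * Real.log b + 182 / 1000 ≤ r) :
    ∃ c : ℝ, 0 < c ∧ ∀ᶠ N : ℕ in atTop, ∀ d w : ℕ, 0 < d → d < b → b ^ (2 * N) ≤ w → w < b ^ (2 * N + 1) →
      (Nat.digits b w).reverse = Nat.digits b w → w.Coprime (2 * b * d) →
      (∀ i, 0 < i → i < 2 * N → i ≠ N → w / b ^ i % b + d < b) →
      c * 2 ^ N / N ≤ (((range (b ^ (2 * N + 1))).filter (fun n => (Nat.digits b n).reverse = Nat.digits b n ∧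
        n / b ^ (2 * N) = w / b ^ (2 * N) ∧ n / b ^ N % b = w / b ^ N % b ∧
        (∀ i, 0 < i → i < 2 * N → i ≠ N → n / b ^ i % b = w / b ^ i % b ∨ n / b ^ i % b = w / b ^ i % b + d) ∧
        n.primeFactorsList.length ≤ r ∧ ∀ p ∈ n.primeFactorsList, (2 : ℝ) ^ ((N : ℝ) / 13) < p)).card : ℝ) := by
  have hex : ∀ d : ℕ, ∃ c : ℝ, 0 < c ∧ (0 < d → ∀ᶠ N : ℕ in atTop, ∀ w : ℕ, b ^ (2 * N) ≤ w → w < b ^ (2 * N + 1) →
      (Nat.digits b w).reverse = Nat.digits b w → w.Coprime (2 * b * d) →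
      (∀ i, 0 < i → i < 2 * N → i ≠ N → w / b ^ i % b + d < b) →
      c * 2 ^ N / N ≤ (((range (b ^ (2 * N + 1))).filter (fun n => (Nat.digits b n).reverse = Nat.digits b n ∧
        n / b ^ (2 * N) = w / b ^ (2 * N) ∧ n / b ^ N % b = w / b ^ N % b ∧
        (∀ i, 0 < i → i < 2 * N → i ≠ N → n / b ^ i % b = w / b ^ i % b ∨ n / b ^ i % b = w / b ^ i % b + d) ∧
        n.primeFactorsList.length ≤ r ∧ ∀ p ∈ n.primeFactorsList, (2 : ℝ) ^ ((N : ℝ) / 13) < p)).card : ℝ)) := by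
    intro d
    rcases Nat.eq_zero_or_pos d with h | h
    · exact ⟨1, one_pos, fun h' => absurd h (by omega)⟩
    · obtain ⟨c, h1, h2⟩ := raise1 hb hr h
      exact ⟨c, h1, fun _ => h2⟩
  choose c hc0 hc using hex
  obtain ⟨d0, hd0, hmin⟩ := exists_min_image (Icc 1 (b - 1)) c ⟨1, by rw [mem_Icc]; omega⟩
  refine ⟨c d0, hc0 d0, ?_⟩
  have hall : ∀ᶠ N : ℕ in atTop, ∀ d ∈ Icc 1 (b - 1), ∀ w : ℕ, b ^ (2 * N) ≤ w → w < b ^ (2 * N + 1) →
      (Nat.digits b w).reverse = Nat.digits b w → w.Coprime (2 * b * d) →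
      (∀ i, 0 < i → i < 2 * N → i ≠ N → w / b ^ i % b + d < b) →
      c d * 2 ^ N / N ≤ (((range (b ^ (2 * N + 1))).filter (fun n => (Nat.digits b n).reverse = Nat.digits b n ∧
        n / b ^ (2 * N) = w / b ^ (2 * N) ∧ n / b ^ N % b = w / b ^ N % b ∧
        (∀ i, 0 < i → i < 2 * N → i ≠ N → n / b ^ i % b = w / b ^ i % b ∨ n / b ^ i % b = w / b ^ i % b + d) ∧
        n.primeFactorsList.length ≤ r ∧ ∀ p ∈ n.primeFactorsList, (2 : ℝ) ^ ((N : ℝ) / 13) < p)).card : ℝ) := by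
    rw [eventually_all_finset]
    intro d hd
    exact hc d (by rw [mem_Icc] at hd; omega)
  filter_upwards [hall] with N hN d w hd1 hd2 h1 h2 h3 h4 h5
  have hd : d ∈ Icc 1 (b - 1) := by rw [mem_Icc]; omega
  refine le_trans ?_ (hN d hd w h1 h2 h3 h4 h5)
  have h6 := hmin d hd
  gcongr

end Pool.Agent.U857.PX
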