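import Mathlib
import Pool.Agent.R471.RD.LS
/-!
Products of digit sums over an arbitrary set of positions: all even moments.  (The fourth moment over all positions is
in the starting file `R471/RD/LS.lean`.)
-/
set_option autoImplicit false

namespace Pool.Agent.U857.PX

open Finset Pool.Agent.Helper112
open Pool.Agent.W89.PW
open Pool.Agent.H39R3.PB (ph pts ph_nonneg ph_le_one ph_add_int dilate coprime_b)
open Pool.Agent.H39R3.PS (EM)
open Pool.Agent.H944R3.PB (DD ph_eq sum_fr_int fr_step fr_top)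
open Pool.Agent.H245R3.PSSA (pars dilate_all)
open Pool.Agent.R471.RD.LS (nn fr_PB ps_add_int ps_nonneg fr_scale')

/-- uniqueness of the expansion with digits up to `b (b - 1)` -/
lemma digits_zeroD (b : ℕ) (hb2 : 2 ≤ b) (M : ℕ) : ∀ z : ℕ → ℤ,
    (∀ c ≤ M, |z c| ≤ (b : ℤ) * ((b : ℤ) - 1)) →
    ∑ c ∈ range (M + 1), z c * Pool.Agent.H39R3.PB.fr b M c = 0 → ∀ c ≤ M, z c = 0 := by
  have hbZ : (2 : ℤ) ≤ b := by exact_mod_cast hb2
  have hbZ0 : (0 : ℤ) < b := by linarith
  induction M with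
  | zero =>
    intro z _ h c hc
    obtain rfl : c = 0 := by omega
    simpa [Pool.Agent.H39R3.PB.fr] using h
  | succ M ih =>
    intro z hz h
    have h1 : ∑ c ∈ range (M + 1), z c * Pool.Agent.H39R3.PB.fr b (M + 1) c =
        b * ∑ c ∈ range (M + 1), z c * Pool.Agent.H39R3.PB.fr b M c := by
      rw [mul_sum]
      apply sum_congr rfl
      intro c hc
      rw [mem_range] at hc
      rw [fr_step b M c (by omega)]
      push_cast
      ring
    have h2 : (Pool.Agent.H39R3.PB.fr b (M + 1) (M + 1) : ℤ) = (b : ℤ) ^ (2 * M + 2) + 1 := by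
      rw [fr_top]; push_cast; ring
    rw [sum_range_succ, h1, h2] at h
    have hb : |∑ c ∈ range (M + 1), z c * Pool.Agent.H39R3.PB.fr b M c| ≤
        b * (((b : ℤ) - 1) * ∑ c ∈ range (M + 1), (Pool.Agent.H39R3.PB.fr b M c : ℤ)) := by
      rw [← mul_assoc, mul_sum]
      refine (abs_sum_le_sum_abs _ _).trans (sum_le_sum fun c hc => ?_)
      rw [mem_range] at hc
      rw [abs_mul, abs_of_nonneg (show (0 : ℤ) ≤ Pool.Agent.H39R3.PB.fr b M c by positivity)]
      exact mul_le_mul_of_nonneg_right (hz c (by omega)) (by positivity)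
    have hs := sum_fr_int b M
    have hp : (0 : ℤ) < (b : ℤ) ^ (2 * M + 1) := by positivity
    have hpe : (b : ℤ) ^ (2 * M + 2) = b * (b : ℤ) ^ (2 * M + 1) := by ring
    have h0 : z (M + 1) = 0 := by
      rw [hpe] at h
      generalize ((b : ℤ) - 1) * ∑ c ∈ range (M + 1), (Pool.Agent.H39R3.PB.fr b M c : ℤ) = G1 at *
      generalize (b : ℤ) ^ (2 * M + 1) = P at *
      generalize ∑ c ∈ range (M + 1), z c * Pool.Agent.H39R3.PB.fr b M c = S at *
      generalize z (M + 1) = t at *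
      have hdvd : (b : ℤ) ∣ t := by
        have : t = b * (-S - t * P) := by linear_combination h
        exact ⟨_, this⟩
      obtain ⟨u, rfl⟩ := hdvd
      have h8 : S + u * (b * P + 1) = 0 := by
        have h9 : (b : ℤ) * (S + u * (b * P + 1)) = 0 := by linear_combination h
        rcases mul_eq_zero.1 h9 with h10 | h10
        · exact absurd h10 hbZ0.ne'
        · exact h10
      have h9 : |S| = |u| * (b * P + 1) := by
        have h10 : S = -(u * (b * P + 1)) := by linarith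
        rw [h10, abs_neg, abs_mul, abs_of_pos (show (0 : ℤ) < b * P + 1 by positivity)]
      by_contra hne
      have hu : u ≠ 0 := by
        rintro rfl
        simp at hne
      have hu1 : 1 ≤ |u| := Int.one_le_abs hu
      have h11 : 1 * ((b : ℤ) * P + 1) ≤ |u| * (b * P + 1) :=
        mul_le_mul_of_nonneg_right hu1 (by positivity)
      have h12 : (b : ℤ) * G1 = b * P - b := by
        have : G1 = P - 1 := by linarith
        rw [this]; ring
      linarith
    have h5 : ∑ c ∈ range (M + 1), z c * Pool.Agent.H39R3.PB.fr b M c = 0 := by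
      rw [h0, zero_mul, add_zero] at h
      rcases mul_eq_zero.1 h with h6 | h6
      · exfalso; linarith
      · exact h6
    intro c hc
    rcases Nat.lt_or_ge M c with h6 | h6
    · obtain rfl : c = M + 1 := by omega
      exact h0
    · exact ih z (fun c hc => hz c (by omega)) h5 c h6

lemma nn_injD (b : ℕ) (hb : 2 ≤ b) (M : ℕ) (s t : Fin (M + 1) → ℕ) (hs : ∀ c, s c ≤ b * (b - 1))
    (ht : ∀ c, t c ≤ b * (b - 1)) (h : nn b M s = nn b M t) : s = t := by
  set Z : ℕ → ℤ := fun c => if hc : c < M + 1 then (s ⟨c, hc⟩ : ℤ) - t ⟨c, hc⟩ else 0 with hZ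
  have hcast : ((b * (b - 1) : ℕ) : ℤ) = (b : ℤ) * ((b : ℤ) - 1) := by
    rw [Nat.cast_mul, Nat.cast_sub (by omega)]; simp
  have h1 := digits_zeroD b hb (M + 1) (fun c => if c = 0 then 0 else Z (c - 1)) ?_ ?_
  · funext c
    have := h1 (c + 1) (by omega)
    simp only [Nat.add_eq_zero_iff, one_ne_zero, and_false, if_false, Nat.add_sub_cancel, hZ,
      c.2, dif_pos] at this
    have h3 : ((s c : ℤ)) = t c := by linarith
    exact_mod_cast h3
  · intro c hc
    rw [← hcast]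
    by_cases h0 : c = 0
    · simp only [h0, if_true, abs_zero]
      positivity
    · have hc' : c - 1 < M + 1 := by omega
      simp only [h0, if_false, hZ, hc', dif_pos]
      have h2 := hs ⟨c - 1, hc'⟩
      have h3 := ht ⟨c - 1, hc'⟩
      generalize b * (b - 1) = R at h2 h3
      rw [abs_le]
      omega
  · rw [sum_range_succ']
    simp only [Nat.add_eq_zero_iff, one_ne_zero, and_false, if_false, Nat.add_sub_cancel, if_true,
      zero_mul, add_zero]
    have h4 : (nn b M s : ℤ) - nn b M t = 0 := by rw [h]; ring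
    rw [← h4]
    unfold nn
    push_cast
    rw [← sum_sub_distrib, ← Fin.sum_univ_eq_sum_range
      (fun c => Z c * (Pool.Agent.H39R3.PB.fr b (M + 1) (c + 1) : ℤ)) (M + 1)]
    apply sum_congr rfl
    intro c _
    simp only [hZ, c.2, dif_pos, ← fr_PB]
    ring

lemma nn_leD (b : ℕ) (hb : 2 ≤ b) (M : ℕ) (s : Fin (M + 1) → ℕ) (hs : ∀ c, s c ≤ b * (b - 1)) :
    nn b M s + 1 ≤ b ^ (2 * M + 4) := by
  have h1 : nn b M s ≤ b * (b - 1) *
      ∑ c ∈ range (M + 1 + 1), Pool.Agent.H39R3.PB.fr b (M + 1) c := by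
    unfold nn
    rw [sum_range_succ', mul_add, mul_sum, ← Fin.sum_univ_eq_sum_range
      (fun c => b * (b - 1) * Pool.Agent.H39R3.PB.fr b (M + 1) (c + 1)) (M + 1)]
    refine le_trans (sum_le_sum fun c _ => ?_) (Nat.le_add_right _ _)
    rw [fr_PB]
    exact Nat.mul_le_mul_right _ (hs c)
  have h2 := sum_fr_int b (M + 1)
  have hcast : ((b * (b - 1) : ℕ) : ℤ) = (b : ℤ) * ((b : ℤ) - 1) := by
    rw [Nat.cast_mul, Nat.cast_sub (by omega)]; simp
  have h4 : ((nn b M s : ℕ) : ℤ) ≤ (b : ℤ) * ((b : ℤ) - 1) *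
      ∑ c ∈ range (M + 1 + 1), (Pool.Agent.H39R3.PB.fr b (M + 1) c : ℤ) := by
    rw [← hcast]
    exact_mod_cast h1
  have hbZ : (2 : ℤ) ≤ b := by exact_mod_cast hb
  have h5 : ((nn b M s + 1 : ℕ) : ℤ) ≤ ((b ^ (2 * M + 4) : ℕ) : ℤ) := by
    push_cast
    have e : 2 * (M + 1) + 1 = 2 * M + 3 := by ring
    rw [e] at h2
    have e2 : (b : ℤ) ^ (2 * M + 4) = b * (b : ℤ) ^ (2 * M + 3) := by ring
    rw [e2, ← h2]
    have e3 : (b : ℤ) * (((b : ℤ) - 1) * ∑ c ∈ range (M + 1 + 1), (Pool.Agent.H39R3.PB.fr b (M + 1) c : ℤ) + 1) =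
      (b : ℤ) * ((b : ℤ) - 1) * ∑ c ∈ range (M + 1 + 1), (Pool.Agent.H39R3.PB.fr b (M + 1) c : ℤ) + b := by ring
    rw [e3]
    linarith
  exact_mod_cast h5

/-! ### the generic large sieve -/

/-- the generic exponential sum -/
noncomputable def SG (b M : ℕ) (W : Fin (M + 1) → ℕ → ℝ) (x : ℝ) : ℂ :=
  ∏ c : Fin (M + 1), ∑ z ∈ range (b * (b - 1) + 1), (W c z : ℂ) * ee (z * (fr b M c * x))

lemma SG_expand (b M : ℕ) (W : Fin (M + 1) → ℕ → ℝ) (x : ℝ) :
    SG b M W x = ∑ z ∈ Fintype.piFinset (fun _ : Fin (M + 1) => range (b * (b - 1) + 1)),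
      ((∏ c : Fin (M + 1), W c (z c) : ℝ) : ℂ) * ee (nn b M z * x) := by
  unfold SG
  rw [prod_univ_sum]
  apply sum_congr rfl
  intro z _
  rw [prod_mul_distrib]
  push_cast
  congr 1
  unfold nn
  push_cast
  rw [sum_mul]
  induction (univ : Finset (Fin (M + 1))) using Finset.induction_on with
  | empty => simp [ee]
  | insert a t ha ih =>
    rw [prod_insert ha, sum_insert ha, ls_ee_add, ih]
    congr 2
    ring

lemma range_leD (b z : ℕ) (h : z ∈ range (b * (b - 1) + 1)) : z ≤ b * (b - 1) := by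
  rw [mem_range] at h; omega

/-- large sieve -/
lemma SG_ls (b : ℕ) (hb : 2 ≤ b) (M F : ℕ) (W : Fin (M + 1) → ℕ → ℝ) :
    ∑ f ∈ Icc 1 F, ∑ a ∈ (range f).filter (fun a => a.Coprime f), ‖SG b M W ((a : ℝ) / f)‖ ^ 2 ≤
      6 * ((b ^ (2 * M + 4) : ℕ) + (F : ℝ) ^ 2) *
        ∏ c : Fin (M + 1), ∑ z ∈ range (b * (b - 1) + 1), W c z ^ 2 := by
  classical
  set P := Fintype.piFinset (fun _ : Fin (M + 1) => range (b * (b - 1) + 1)) with hP
  set V : (Fin (M + 1) → ℕ) → ℝ := fun z => ∏ c : Fin (M + 1), W c (z c) with hV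
  set α : ℕ → ℂ := fun n => ∑ z ∈ P.filter (fun z => nn b M z + 1 = n), (V z : ℂ) with hα
  set N := b ^ (2 * M + 4) with hN
  have hs18 : ∀ z ∈ P, ∀ c, z c ≤ b * (b - 1) := by
    intro z hz c
    rw [hP, Fintype.mem_piFinset] at hz
    exact range_leD b _ (hz c)
  have hmaps : ∀ z ∈ P, nn b M z + 1 ∈ Icc 1 N := by
    intro z hz
    rw [mem_Icc]
    exact ⟨by omega, nn_leD b hb M z (hs18 z hz)⟩
  have key := additive_large_sieve N F α
  have h1 : ∑ n ∈ Icc 1 N, ‖α n‖ ^ 2 = ∏ c : Fin (M + 1), ∑ z ∈ range (b * (b - 1) + 1), W c z ^ 2 := by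
    have h2 : ∀ n, ‖α n‖ ^ 2 = ∑ z ∈ P.filter (fun z => nn b M z + 1 = n), V z ^ 2 := by
      intro n
      rw [hα]
      simp only
      rcases (P.filter (fun z => nn b M z + 1 = n)).eq_empty_or_nonempty with h | ⟨z, hz⟩
      · rw [h]; simp
      · have : P.filter (fun z => nn b M z + 1 = n) = {z} := by
          apply eq_singleton_iff_unique_mem.2 ⟨hz, ?_⟩
          intro z' hz'
          rw [mem_filter] at hz hz'
          exact nn_injD b hb M z' z (hs18 z' hz'.1) (hs18 z hz.1) (by omega)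
        rw [this, sum_singleton, sum_singleton, Complex.norm_real, Real.norm_eq_abs, sq_abs]
    simp_rw [h2]
    rw [sum_fiberwise_of_maps_to hmaps (fun z => V z ^ 2)]
    have h3 : ∀ z, V z ^ 2 = ∏ c : Fin (M + 1), (W c (z c)) ^ 2 := by
      intro z
      rw [hV]
      simp only
      rw [← prod_pow]
    simp_rw [h3]
    rw [hP, ← prod_univ_sum (fun _ : Fin (M + 1) => range (b * (b - 1) + 1)) (fun c j => (W c j) ^ 2)]
  rw [h1] at key
  refine le_trans (le_of_eq ?_) key
  apply sum_congr rfl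
  intro f _
  apply sum_congr rfl
  intro a _
  congr 1
  rw [SG_expand b M]
  have h4 : ∑ n ∈ Icc 1 N, α n * ee (n * a / f) =
      ee ((a : ℝ) / f) * ∑ z ∈ P, ((∏ c : Fin (M + 1), W c (z c) : ℝ) : ℂ) *
        ee (nn b M z * ((a : ℝ) / f)) := by
    rw [hα]
    simp only
    simp_rw [sum_mul]
    rw [← sum_fiberwise_of_maps_to hmaps, mul_sum]
    apply sum_congr rfl
    intro n _
    rw [mul_sum]
    apply sum_congr rfl
    intro z hz
    rw [mem_filter] at hz
    rw [← hz.2, hV]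
    have : ee (((nn b M z + 1 : ℕ) : ℝ) * a / f) =
        ee ((a : ℝ) / f) * ee (nn b M z * ((a : ℝ) / f)) := by
      rw [← ls_ee_add]
      congr 1
      push_cast
      ring
    rw [this]
    ring
  rw [h4, norm_mul, ls_norm_ee, one_mul]

/-- Parseval -/
lemma SG_pars (b : ℕ) (hb : 2 ≤ b) (M m : ℕ) (hm : b ^ (2 * M + 4) ≤ m) (W : Fin (M + 1) → ℕ → ℝ) :
    ∑ a ∈ range m, ‖SG b M W ((a : ℝ) / m)‖ ^ 2 =
      m * ∏ c : Fin (M + 1), ∑ z ∈ range (b * (b - 1) + 1), W c z ^ 2 := by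
  classical
  have hm0 : 0 < m := lt_of_lt_of_le (by positivity) hm
  set P := Fintype.piFinset (fun _ : Fin (M + 1) => range (b * (b - 1) + 1)) with hP
  set V : (Fin (M + 1) → ℕ) → ℝ := fun z => ∏ c : Fin (M + 1), W c (z c) with hV
  have hs18 : ∀ z ∈ P, ∀ c, z c ≤ b * (b - 1) := by
    intro z hz c
    rw [hP, Fintype.mem_piFinset] at hz
    exact range_leD b _ (hz c)
  have e2 : ∑ a ∈ range m, ‖SG b M W ((a : ℝ) / m)‖ ^ 2 =
      ∑ a ∈ range m, ‖∑ z ∈ P, (V z : ℂ) * ee ((nn b M z : ℝ) * ((a : ℝ) / m))‖ ^ 2 := by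
    apply sum_congr rfl
    intro a _
    rw [SG_expand]
  rw [e2, pars P m hm0 V (fun z => nn b M z)]
  have hlt : ∀ z ∈ P, nn b M z < m := by
    intro z hz
    have h1 := nn_leD b hb M z (hs18 z hz)
    omega
  have e3 : ∑ z ∈ P, ∑ z' ∈ P, (if (m : ℤ) ∣ ((nn b M z : ℕ) : ℤ) - ((nn b M z' : ℕ) : ℤ)
      then V z * V z' else 0) = ∑ z ∈ P, V z ^ 2 := by
    apply sum_congr rfl
    intro z hz
    have h1 : ∀ z' ∈ P, (if (m : ℤ) ∣ ((nn b M z : ℕ) : ℤ) - ((nn b M z' : ℕ) : ℤ)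
        then V z * V z' else 0) = if z = z' then V z * V z' else 0 := by
      intro z' hz'
      have h2 : ((m : ℤ) ∣ ((nn b M z : ℕ) : ℤ) - ((nn b M z' : ℕ) : ℤ)) ↔ z = z' := by
        constructor
        · intro hd
          have h3 := hlt z hz
          have h4 := hlt z' hz'
          have h5 : ((nn b M z : ℕ) : ℤ) - ((nn b M z' : ℕ) : ℤ) = 0 := by
            refine Int.eq_zero_of_abs_lt_dvd hd ?_
            rw [abs_lt]
            constructor <;> omega
          exact nn_injD b hb M z z' (hs18 z hz) (hs18 z' hz') (by omega)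
        · rintro rfl
          simp
      by_cases h6 : z = z'
      · rw [if_pos h6, if_pos (h2.2 h6)]
      · rw [if_neg h6, if_neg (fun h => h6 (h2.1 h))]
    rw [sum_congr rfl h1, sum_ite_eq, if_pos hz, sq]
  rw [e3]
  congr 1
  have h3 : ∀ z, V z ^ 2 = ∏ c : Fin (M + 1), (W c (z c)) ^ 2 := by
    intro z
    rw [hV]
    simp only
    rw [← prod_pow]
  simp_rw [h3]
  rw [hP, ← prod_univ_sum (fun _ : Fin (M + 1) => range (b * (b - 1) + 1)) (fun c j => (W c j) ^ 2)]

end Pool.Agent.U857.PX
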