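import Pool.Agent.U857.PX.A1
/-!
Products of digit sums over an arbitrary set of positions: all even moments, continued.
-/
set_option autoImplicit false

namespace Pool.Agent.U857.PX

open Finset Pool.Agent.Helper112
open Pool.Agent.W89.PW
open Pool.Agent.H39R3.PB (ph pts ph_nonneg ph_le_one ph_add_int dilate coprime_b)
open Pool.Agent.H39R3.PS (EM)
open Pool.Agent.H944R3.PB (DD ph_eq)
open Pool.Agent.H245R3.PSSA (dilate_all)
open Pool.Agent.R471.RD.LS (ps_add_int ps_nonneg fr_scale')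

/-- number of representations of `z` as a sum of `m` digits `i + j`, `i < s`, `j < t` -/
def wm (s t : ℕ) : ℕ → ℕ → ℕ
  | 0, z => if z = 0 then 1 else 0
  | m + 1, z => ∑ i ∈ range s, ∑ j ∈ range t, if i + j ≤ z then wm s t m (z - (i + j)) else 0

lemma wm_zero_of {s t : ℕ} (m : ℕ) : ∀ z : ℕ, m * (s + t - 2) < z → wm s t m z = 0 := by
  induction m with
  | zero =>
    intro z hz
    unfold wm
    rw [if_neg (by omega)]
  | succ m ih =>
    intro z hz
    unfold wm
    apply sum_eq_zero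
    intro i hi
    apply sum_eq_zero
    intro j hj
    rw [mem_range] at hi hj
    split_ifs with h
    · apply ih
      have : (m + 1) * (s + t - 2) = m * (s + t - 2) + (s + t - 2) := by ring
      omega
    · rfl

lemma wm_expand {s t : ℕ} (x : ℝ) (m : ℕ) : ∀ R : ℕ, m * (s + t - 2) ≤ R →
    ∑ z ∈ range (R + 1), (wm s t m z : ℂ) * ee (z * x) = (DD s x * DD t x) ^ m := by
  induction m with
  | zero =>
    intro R _
    rw [sum_eq_single 0]
    · simp [wm, ls_ee_zero]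
    · intro z _ hz
      simp [wm, hz]
    · intro h
      simp at h
  | succ m ih =>
    intro R hR
    have e1 : (m + 1) * (s + t - 2) = m * (s + t - 2) + (s + t - 2) := by ring
    have h1 : ∀ z : ℕ, (wm s t (m + 1) z : ℂ) * ee (z * x) = ∑ i ∈ range s, ∑ j ∈ range t,
        (if i + j ≤ z then (wm s t m (z - (i + j)) : ℂ) else 0) * ee (z * x) := by
      intro z
      rw [wm]
      push_cast
      rw [sum_mul]
      apply sum_congr rfl
      intro i _
      rw [sum_mul]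
    rw [sum_congr rfl fun z _ => h1 z, sum_comm]
    have h2 : ∀ i ∈ range s, ∑ z ∈ range (R + 1), ∑ j ∈ range t,
        (if i + j ≤ z then (wm s t m (z - (i + j)) : ℂ) else 0) * ee (z * x) =
        ∑ j ∈ range t, ee ((i + j : ℕ) * x) * (DD s x * DD t x) ^ m := by
      intro i hi
      rw [sum_comm]
      apply sum_congr rfl
      intro j hj
      rw [mem_range] at hi hj
      rw [show R + 1 = (i + j) + (R - (i + j) + 1) by omega, sum_range_add]
      have h3 : ∑ z ∈ range (i + j), (if i + j ≤ z then (wm s t m (z - (i + j)) : ℂ) else 0) * ee (z * x) = 0 := by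
        apply sum_eq_zero
        intro z hz
        rw [mem_range] at hz
        rw [if_neg (by omega), zero_mul]
      rw [h3, zero_add, ← ih (R - (i + j)) (by omega), mul_sum]
      apply sum_congr rfl
      intro z _
      rw [if_pos (Nat.le_add_right _ _), Nat.add_sub_cancel_left]
      have h4 : ee (((i + j + z : ℕ) : ℝ) * x) = ee ((i + j : ℕ) * x) * ee (z * x) := by
        rw [← ls_ee_add]
        congr 1
        push_cast
        ring
      rw [h4]
      ring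
    rw [sum_congr rfl h2]
    simp_rw [← sum_mul]
    rw [pow_succ' (DD s x * DD t x)]
    congr 1
    unfold DD
    rw [sum_mul_sum]
    apply sum_congr rfl
    intro i _
    apply sum_congr rfl
    intro j _
    rw [← ls_ee_add]
    congr 1
    push_cast
    ring

/-- the normalised moment -/
noncomputable def M2 (s t m : ℕ) : ℝ := (∑ z ∈ range (m * (s + t - 2) + 1), (wm s t m z : ℝ) ^ 2) / ((s : ℝ) * t) ^ (2 * m)

lemma M2_eq {s t m R : ℕ} (hR : m * (s + t - 2) ≤ R) :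
    M2 s t m = (∑ z ∈ range (R + 1), (wm s t m z : ℝ) ^ 2) / ((s : ℝ) * t) ^ (2 * m) := by
  unfold M2
  congr 1
  apply sum_subset
  · intro z hz
    rw [mem_range] at hz ⊢
    omega
  · intro z _ hz2
    rw [mem_range] at hz2
    rw [wm_zero_of m z (by omega)]
    simp

lemma M2_nonneg (s t m : ℕ) : 0 ≤ M2 s t m := by
  unfold M2
  positivity

/-- product over the positions in `P` -/
noncomputable def FP (b s t L : ℕ) (P : Finset ℕ) (α : ℝ) : ℝ := ∏ c ∈ P, ps s t (fr b L c * α)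

variable {b s t : ℕ}

lemma FP_nonneg (L : ℕ) (P : Finset ℕ) (α : ℝ) : 0 ≤ FP b s t L P α := prod_nonneg fun _ _ => ps_nonneg _ _ _

lemma ps_le_one (x : ℝ) : ps s t x ≤ 1 := mul_le_one₀ (ph_le_one _ _) (ph_nonneg _ _) (ph_le_one _ _)

lemma FP_le_one (L : ℕ) (P : Finset ℕ) (α : ℝ) : FP b s t L P α ≤ 1 :=
  prod_le_one (fun _ _ => ps_nonneg _ _ _) (fun _ _ => ps_le_one _)

lemma FP_mono (L : ℕ) {P P' : Finset ℕ} (h : P ⊆ P') (α : ℝ) : FP b s t L P' α ≤ FP b s t L P α := by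
  classical
  unfold FP
  rw [← prod_sdiff h]
  exact mul_le_of_le_one_left (prod_nonneg fun _ _ => ps_nonneg _ _ _)
    (prod_le_one (fun _ _ => ps_nonneg _ _ _) (fun _ _ => ps_le_one _))

lemma FP_add_int (L : ℕ) (P : Finset ℕ) (α : ℝ) (k : ℤ) : FP b s t L P (α + k) = FP b s t L P α := by
  unfold FP
  apply prod_congr rfl
  intro j _
  have : (fr b L j : ℝ) * (α + k) = fr b L j * α + ((fr b L j * k : ℤ) : ℝ) := by
    push_cast; ring
  rw [this, ps_add_int]

lemma FP_scale {L M : ℕ} (hM : M ≤ L) {P : Finset ℕ} (hP : ∀ c ∈ P, c ≤ M) (α : ℝ) :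
    FP b s t L P α = FP b s t M P ((b : ℝ) ^ (L - M) * α) := by
  unfold FP
  apply prod_congr rfl
  intro j hj
  rw [fr_scale' hM (hP j hj)]
  congr 1
  push_cast
  ring

open Classical in
/-- the weights -/
noncomputable def WP (s t m : ℕ) (P : Finset ℕ) (c z : ℕ) : ℝ :=
  if c ∈ P then (wm s t m z : ℝ) else if z = 0 then 1 else 0

lemma SG_eq {m M : ℕ} (hm : m * (s + t - 2) ≤ b * (b - 1)) (P : Finset ℕ) (hP : P ⊆ range (M + 1)) (x : ℝ) :
    SG b M (fun c => WP s t m P c) x = ∏ c ∈ P, (DD s (fr b M c * x) * DD t (fr b M c * x)) ^ m := by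
  classical
  have h1 : ∀ c : Fin (M + 1), ∑ z ∈ range (b * (b - 1) + 1), (WP s t m P c z : ℂ) * ee (z * (fr b M c * x)) =
      if (c : ℕ) ∈ P then (DD s (fr b M c * x) * DD t (fr b M c * x)) ^ m else 1 := by
    intro c
    unfold WP
    split_ifs with h
    · rw [← wm_expand (fr b M c * x) m (b * (b - 1)) hm]
      push_cast
      rfl
    · rw [sum_eq_single 0]
      · simp [ls_ee_zero]
      · intro z _ hz
        simp [hz]
      · intro h
        simp at h
  unfold SG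
  rw [prod_congr rfl fun c _ => h1 c, Fin.prod_univ_eq_prod_range
    (fun c => if c ∈ P then (DD s (fr b M c * x) * DD t (fr b M c * x)) ^ m else 1) (M + 1)]
  rw [← prod_subset hP]
  · apply prod_congr rfl
    intro c hc
    rw [if_pos hc]
  · intro c _ hc
    rw [if_neg hc]

lemma W_prod {m M : ℕ} (hm : m * (s + t - 2) ≤ b * (b - 1)) (hs : 1 ≤ s) (ht : 1 ≤ t) (P : Finset ℕ)
    (hP : P ⊆ range (M + 1)) :
    ∏ c : Fin (M + 1), ∑ z ∈ range (b * (b - 1) + 1), WP s t m P c z ^ 2 =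
      (M2 s t m * ((s : ℝ) * t) ^ (2 * m)) ^ P.card := by
  classical
  have hs0 : (0 : ℝ) < s := by exact_mod_cast hs
  have ht0 : (0 : ℝ) < t := by exact_mod_cast ht
  have h1 : ∀ c : Fin (M + 1), ∑ z ∈ range (b * (b - 1) + 1), WP s t m P c z ^ 2 =
      if (c : ℕ) ∈ P then M2 s t m * ((s : ℝ) * t) ^ (2 * m) else 1 := by
    intro c
    unfold WP
    split_ifs with h
    · rw [M2_eq hm, div_mul_cancel₀ _ (by positivity)]
    · rw [sum_eq_single 0]
      · simp
      · intro z _ hz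
        simp [hz]
      · intro h
        simp at h
  rw [prod_congr rfl fun c _ => h1 c, Fin.prod_univ_eq_prod_range
    (fun c => if c ∈ P then M2 s t m * ((s : ℝ) * t) ^ (2 * m) else 1) (M + 1)]
  rw [← prod_subset hP]
  · rw [prod_congr rfl fun c hc => if_pos hc, prod_const]
  · intro c _ hc
    rw [if_neg hc]

lemma FP_pow {m M : ℕ} (hm : m * (s + t - 2) ≤ b * (b - 1)) (hs : 1 ≤ s) (ht : 1 ≤ t) (P : Finset ℕ)
    (hP : P ⊆ range (M + 1)) (x : ℝ) :
    FP b s t M P x ^ (2 * m) = ‖SG b M (fun c => WP s t m P c) x‖ ^ 2 / (((s : ℝ) * t) ^ (2 * m)) ^ P.card := by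
  have hs0 : (0 : ℝ) < s := by exact_mod_cast hs
  have ht0 : (0 : ℝ) < t := by exact_mod_cast ht
  rw [SG_eq hm P hP, norm_prod, ← prod_pow]
  have h1 : ∀ c ∈ P, ‖(DD s (fr b M c * x) * DD t (fr b M c * x)) ^ m‖ ^ 2 =
      ps s t (fr b M c * x) ^ (2 * m) * ((s : ℝ) * t) ^ (2 * m) := by
    intro c _
    rw [norm_pow, ← pow_mul, norm_mul, mul_comm m 2]
    unfold ps
    rw [ph_eq, ph_eq, ← mul_pow]
    congr 1
    field_simp
  rw [prod_congr rfl h1, prod_mul_distrib, prod_const, mul_div_cancel_right₀ _ (by positivity)]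
  unfold FP
  rw [prod_pow]

/-- large sieve for the `2 m`-th moment -/
theorem lsP (hb : 2 ≤ b) (hs : 1 ≤ s) (ht : 1 ≤ t) {m : ℕ} (hm : m * (s + t - 2) ≤ b * (b - 1)) {L J Q : ℕ}
    (P : Finset ℕ) (hP : P ⊆ range J) (hJ : 1 ≤ J) (hJL : J ≤ L) (h1 : Q ≤ b ^ J) (h2 : b ^ J ≤ b * Q) :
    pts b Q (fun α => FP b s t L P α ^ (2 * m)) ≤ 6 * ((b : ℝ) ^ 3 + 4) * Q * (b : ℝ) ^ J * M2 s t m ^ P.card := by
  obtain ⟨M, rfl⟩ : ∃ M, J = M + 1 := ⟨J - 1, by omega⟩
  have hb0 : 0 < b := by omega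
  have hbR : (0 : ℝ) < b := by exact_mod_cast hb0
  have hsR : (0 : ℝ) < s := by exact_mod_cast hs
  have htR : (0 : ℝ) < t := by exact_mod_cast ht
  have hQ : 1 ≤ Q := by
    have : 0 < b ^ (M + 1) := by positivity
    by_contra hcon
    have h3 : Q = 0 := by omega
    rw [h3, mul_zero] at h2
    omega
  set F : ℝ → ℝ := fun x => FP b s t M P x ^ (2 * m) with hF
  have hper : ∀ (x : ℝ) (n : ℤ), F (x + n) = F x := by
    intro x n
    simp only [hF, FP_add_int]
  have e1 : pts b Q (fun α => FP b s t L P α ^ (2 * m)) = pts b Q F := by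
    unfold pts
    apply sum_congr rfl
    intro q hq
    rw [mem_filter] at hq
    rw [← dilate (coprime_b hq.2) (L - M) F hper]
    apply sum_congr rfl
    intro a _
    simp only [hF]
    rw [FP_scale (L := L) (M := M) (by omega) (fun c hc => by have := mem_range.1 (hP hc); omega)]
  rw [e1]
  have e2 : pts b Q F ≤
      ∑ f ∈ Icc 1 (2 * Q), ∑ a ∈ (range f).filter (fun a => a.Coprime f), F ((a : ℝ) / f) := by
    unfold pts
    apply sum_le_sum_of_subset_of_nonneg
    · intro q hq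
      rw [mem_filter, mem_Ico] at hq
      rw [mem_Icc]; omega
    · intro q _ _
      exact sum_nonneg fun a _ => pow_nonneg (FP_nonneg _ _ _) _
  refine e2.trans ?_
  have e3 : ∑ f ∈ Icc 1 (2 * Q), ∑ a ∈ (range f).filter (fun a => a.Coprime f), F ((a : ℝ) / f) =
      (∑ f ∈ Icc 1 (2 * Q), ∑ a ∈ (range f).filter (fun a => a.Coprime f),
      ‖SG b M (fun c => WP s t m P c) ((a : ℝ) / f)‖ ^ 2) / (((s : ℝ) * t) ^ (2 * m)) ^ P.card := by
    rw [sum_div]
    apply sum_congr rfl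
    intro f _
    rw [sum_div]
    apply sum_congr rfl
    intro a _
    simp only [hF]
    exact FP_pow hm hs ht P hP _
  rw [e3, div_le_iff₀ (by positivity)]
  refine (SG_ls b hb M (2 * Q) _).trans ?_
  rw [W_prod hm hs ht P hP]
  have h3 : (b : ℝ) ^ (M + 1) ≤ b * Q := by exact_mod_cast h2
  have h4 : (Q : ℝ) ≤ (b : ℝ) ^ (M + 1) := by exact_mod_cast h1
  have hQ0 : (0 : ℝ) < Q := by exact_mod_cast hQ
  have h5 : ((b ^ (2 * M + 4) : ℕ) : ℝ) + ((2 * Q : ℕ) : ℝ) ^ 2 ≤
      ((b : ℝ) ^ 3 + 4) * Q * (b : ℝ) ^ (M + 1) := by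
    push_cast
    have e : (b : ℝ) ^ (2 * M + 4) = (b : ℝ) ^ 2 * (b : ℝ) ^ (M + 1) * (b : ℝ) ^ (M + 1) := by ring
    rw [e]
    have h6 : (b : ℝ) ^ 2 * (b : ℝ) ^ (M + 1) * (b : ℝ) ^ (M + 1) ≤ (b : ℝ) ^ 2 * (b : ℝ) ^ (M + 1) * (b * Q) := by
      gcongr
    have h7 : (Q : ℝ) * Q ≤ Q * (b : ℝ) ^ (M + 1) := by gcongr
    calc (b : ℝ) ^ 2 * (b : ℝ) ^ (M + 1) * (b : ℝ) ^ (M + 1) + (2 * Q) ^ 2
        ≤ (b : ℝ) ^ 2 * (b : ℝ) ^ (M + 1) * (b * Q) + 4 * (Q * (b : ℝ) ^ (M + 1)) := by linarith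
      _ = _ := by ring
  have hM2 := M2_nonneg s t m
  calc 6 * (((b ^ (2 * M + 4) : ℕ) : ℝ) + ((2 * Q : ℕ) : ℝ) ^ 2) * (M2 s t m * ((s : ℝ) * t) ^ (2 * m)) ^ P.card
      ≤ 6 * (((b : ℝ) ^ 3 + 4) * Q * (b : ℝ) ^ (M + 1)) * (M2 s t m * ((s : ℝ) * t) ^ (2 * m)) ^ P.card := by
        gcongr
    _ = _ := by rw [mul_pow]; ring

/-- complete sums of the `2 m`-th power -/
theorem sqP (hb : 2 ≤ b) (hs : 1 ≤ s) (ht : 1 ≤ t) {m : ℕ} (hm : m * (s + t - 2) ≤ b * (b - 1)) {L J n : ℕ}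
    (P : Finset ℕ) (hP : P ⊆ range J) (hJL : J ≤ L) (hn : b ^ (2 * J + 2) ≤ n) (hc : n.Coprime b) :
    EM n (fun α => FP b s t L P α ^ (2 * m)) ≤ M2 s t m ^ P.card := by
  have hb0 : 0 < b := by omega
  have hn0 : 0 < n := lt_of_lt_of_le (by positivity) hn
  have hnR : (0 : ℝ) < n := by exact_mod_cast hn0
  have hsR : (0 : ℝ) < s := by exact_mod_cast hs
  have htR : (0 : ℝ) < t := by exact_mod_cast ht
  rcases Nat.eq_zero_or_pos J with hJ0 | hJ
  · subst hJ0
    have : P = ∅ := subset_empty.1 (by simpa using hP)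
    subst this
    unfold EM FP
    simp only [prod_empty, one_pow, sum_const, card_range, nsmul_eq_mul, mul_one, card_empty, pow_zero]
    rw [div_self hnR.ne']
  obtain ⟨M, rfl⟩ : ∃ M, J = M + 1 := ⟨J - 1, by omega⟩
  set F : ℝ → ℝ := fun x => FP b s t M P x ^ (2 * m) with hF
  have hper : ∀ (x : ℝ) (n : ℤ), F (x + n) = F x := by
    intro x n
    simp only [hF, FP_add_int]
  have e1 : ∑ a ∈ range n, FP b s t L P ((a : ℝ) / n) ^ (2 * m) = ∑ a ∈ range n, F ((a : ℝ) / n) := by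
    rw [← dilate_all hc (L - M) F hper]
    apply sum_congr rfl
    intro a _
    simp only [hF]
    rw [FP_scale (L := L) (M := M) (by omega) (fun c hc => by have := mem_range.1 (hP hc); omega)]
  unfold EM
  rw [e1]
  have e2 : ∑ a ∈ range n, F ((a : ℝ) / n) =
      (∑ a ∈ range n, ‖SG b M (fun c => WP s t m P c) ((a : ℝ) / n)‖ ^ 2) / (((s : ℝ) * t) ^ (2 * m)) ^ P.card := by
    rw [sum_div]
    apply sum_congr rfl
    intro a _
    simp only [hF]
    exact FP_pow hm hs ht P hP _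
  rw [e2, SG_pars b hb M n (by rw [show 2 * M + 4 = 2 * (M + 1) + 2 by ring]; exact hn), W_prod hm hs ht P hP,
    mul_pow]
  apply le_of_eq
  field_simp

end Pool.Agent.U857.PX
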