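import Pool.Agent.U857.PX.A1b
import Pool.Agent.R471.RD.Big
import Pool.Agent.R471.RD.G
import Pool.Agent.W809.PW.Sqr
/-!
The sum over the fractions with denominators `Q ≤ q < 2 Q`, for digits at an arbitrary set of positions.
-/
set_option autoImplicit false

namespace Pool.Agent.U857.PX

open Finset Filter Topology Pool.Agent.Helper112
open Pool.Agent.W89.PW
open Pool.Agent.H39R3.PS (EM)
open Pool.Agent.H39R3.PB (ph pts apts ph_nonneg ph_le_one ph_add_int pts_nonneg pts_mono pts_le_apts pts_add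
  pts_mul_left pts_sum dilate coprime_b)
open Pool.Agent.R471.RD.Big (Gf_nonneg ps_le_Gf pts_trivial HH_pos)
open Pool.Agent.R471.RD.LS (ps_add_int ps_nonneg fr_scale')

variable {b s t : ℕ}

/-- replacing `L` by a smaller `M` -/
lemma pts_shrinkP {L M : ℕ} (hM : M ≤ L) (P : Finset ℕ) (Q : ℕ) :
    pts b Q (FP b s t L P) ≤ pts b Q (FP b s t M (P.filter (fun c => c < M))) := by
  calc pts b Q (FP b s t L P) ≤ pts b Q (FP b s t L (P.filter (fun c => c < M))) :=
        pts_mono (FP_mono L (filter_subset _ _))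
    _ = pts b Q (fun α => FP b s t M (P.filter (fun c => c < M)) ((b : ℝ) ^ (L - M) * α)) := by
        congr 1
        funext α
        exact FP_scale hM (fun c hc => by have := (mem_filter.1 hc).2; omega) α
    _ = pts b Q (FP b s t M (P.filter (fun c => c < M))) := by
        unfold pts
        apply sum_congr rfl
        intro q hq
        rw [mem_filter] at hq
        exact dilate (coprime_b hq.2) (L - M) (FP b s t M (P.filter (fun c => c < M))) (FP_add_int M _)

/-- pointwise splitting -/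
theorem splitP (L J k K n : ℕ) (P : Finset ℕ) (lam : ℝ) (h0 : 0 < lam) (hJ : J ≤ k * K) (α : ℝ) :
    FP b s t L P α ≤ (∑ i ∈ range k, lam * FP b s t L (P.filter (fun c => ¬ (c < J ∧ c / K = i))) α) +
      (lam ^ (n * k))⁻¹ * FP b s t L (P.filter (fun c => c < J)) α ^ (n + 1) := by
  set x : ℕ → ℝ := fun i => ∏ c ∈ P.filter (fun c => c < J ∧ c / K = i), ps s t (fr b L c * α) with hx
  have hx0 : ∀ i, 0 ≤ x i := fun i => prod_nonneg fun _ _ => ps_nonneg _ _ _
  have hnn : ∀ i ∈ range k, 0 ≤ lam * FP b s t L (P.filter (fun c => ¬ (c < J ∧ c / K = i))) α :=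
    fun i _ => mul_nonneg h0.le (FP_nonneg _ _ _)
  have hlast : 0 ≤ (lam ^ (n * k))⁻¹ * FP b s t L (P.filter (fun c => c < J)) α ^ (n + 1) := by
    have := FP_nonneg (b := b) (s := s) (t := t) L (P.filter (fun c => c < J)) α
    positivity
  by_cases hc : ∃ i ∈ range k, x i ≤ lam
  · obtain ⟨i, hi, hxi⟩ := hc
    have e1 : FP b s t L P α = x i * FP b s t L (P.filter (fun c => ¬ (c < J ∧ c / K = i))) α := by
      rw [hx]
      exact (prod_filter_mul_prod_filter_not P (fun c => c < J ∧ c / K = i) _).symm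
    have e2 : FP b s t L P α ≤ lam * FP b s t L (P.filter (fun c => ¬ (c < J ∧ c / K = i))) α := by
      rw [e1]
      exact mul_le_mul_of_nonneg_right hxi (FP_nonneg _ _ _)
    have e3 := single_le_sum hnn hi
    linarith
  · push Not at hc
    have e1 : FP b s t L (P.filter (fun c => c < J)) α = ∏ i ∈ range k, x i := by
      unfold FP
      have hmaps : ∀ c ∈ P.filter (fun c => c < J), c / K ∈ range k := by
        intro c hc
        rw [mem_filter] at hc
        rw [mem_range]
        exact Nat.div_lt_of_lt_mul (by rw [mul_comm]; omega)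
      rw [← prod_fiberwise_of_maps_to hmaps]
      apply prod_congr rfl
      intro i _
      rw [filter_filter]
    have e2 : lam ^ k ≤ FP b s t L (P.filter (fun c => c < J)) α := by
      rw [e1]
      calc lam ^ k = ∏ i ∈ range k, lam := by simp
        _ ≤ ∏ i ∈ range k, x i := prod_le_prod (fun _ _ => h0.le) (fun i hi => (hc i hi).le)
    have e3 : FP b s t L P α ≤ FP b s t L (P.filter (fun c => c < J)) α := FP_mono L (filter_subset _ _) α
    set y := FP b s t L (P.filter (fun c => c < J)) α with hy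
    have hlk : 0 < lam ^ k := by positivity
    have hy0 : 0 < y := hlk.trans_le e2
    have e4 : y ≤ (lam ^ (n * k))⁻¹ * y ^ (n + 1) := by
      have e5 : lam ^ (n * k) ≤ y ^ n := by
        rw [mul_comm n k, pow_mul]
        exact pow_le_pow_left₀ hlk.le e2 n
      rw [inv_mul_eq_div, le_div_iff₀ (by positivity)]
      calc y * lam ^ (n * k) ≤ y * y ^ n := by gcongr
        _ = y ^ (n + 1) := by ring
    have e6 := sum_nonneg hnn
    linarith

/-- number of positions in a block -/
lemma card_blockP (P : Finset ℕ) (J K i : ℕ) (hK : 0 < K) :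
    P.card ≤ (P.filter (fun c => ¬ (c < J ∧ c / K = i))).card + K := by
  have h1 : (P.filter (fun c => c < J ∧ c / K = i)).card ≤ K := by
    calc (P.filter (fun c => c < J ∧ c / K = i)).card ≤ (Ico (i * K) (i * K + K)).card := by
          apply card_le_card
          intro c hc
          rw [mem_filter] at hc
          rw [mem_Ico]
          have h2 := Nat.div_add_mod c K
          have h3 := Nat.mod_lt c hK
          rw [hc.2.2] at h2
          have h4 : i * K = K * i := mul_comm _ _
          constructor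
          · omega
          · omega
      _ = K := by simp
  have h2 := card_filter_add_card_filter_not (s := P) (fun c => c < J ∧ c / K = i)
  omega

/-- the basic bound -/
theorem bigP0 (L k K J Q n : ℕ) (P : Finset ℕ) (hPL : P ⊆ range L) (T lam H CH R X : ℝ) (h0 : 0 < lam)
    (hG : ∀ B : Finset ℕ, B ⊆ range L → pts b Q (FP b s t L B) ≤ 2 * Q * (Q * (CH * H ^ B.card) + T))
    (hX : ∀ i, CH * H ^ (P.filter (fun c => ¬ (c < J ∧ c / K = i))).card ≤ X)
    (hLS : pts b Q (fun α => FP b s t L (P.filter (fun c => c < J)) α ^ (n + 1)) ≤ R)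
    (hJk : J ≤ k * K) :
    pts b Q (FP b s t L P) ≤ 2 * k * lam * Q * (Q * X + T) + R / lam ^ (n * k) := by
  have e1 : pts b Q (FP b s t L P) ≤ ∑ i ∈ range k, lam * pts b Q
      (FP b s t L (P.filter (fun c => ¬ (c < J ∧ c / K = i)))) +
      (lam ^ (n * k))⁻¹ * pts b Q (fun α => FP b s t L (P.filter (fun c => c < J)) α ^ (n + 1)) := by
    refine (pts_mono (splitP L J k K n P lam h0 hJk)).trans (le_of_eq ?_)
    rw [pts_add, pts_sum, pts_mul_left]
    congr 1
    apply sum_congr rfl
    intro i _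
    rw [pts_mul_left]
  have e3 : ∀ i ∈ range k, lam * pts b Q (FP b s t L (P.filter (fun c => ¬ (c < J ∧ c / K = i)))) ≤
      lam * (2 * Q * (Q * X + T)) := by
    intro i _
    apply mul_le_mul_of_nonneg_left _ h0.le
    refine (hG _ ((filter_subset _ _).trans hPL)).trans ?_
    have h5 := hX i
    gcongr
  refine e1.trans ?_
  have e4 : (lam ^ (n * k))⁻¹ * pts b Q (fun α => FP b s t L (P.filter (fun c => c < J)) α ^ (n + 1)) ≤
      (lam ^ (n * k))⁻¹ * R := mul_le_mul_of_nonneg_left hLS (by positivity)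
  refine (add_le_add (sum_le_sum e3) e4).trans (le_of_eq ?_)
  rw [sum_const, card_range, nsmul_eq_mul]
  ring

lemma M2_pos (hs : 1 ≤ s) (ht : 1 ≤ t) (m : ℕ) : 0 < M2 s t m := by
  have hsR : (0 : ℝ) < s := by exact_mod_cast hs
  have htR : (0 : ℝ) < t := by exact_mod_cast ht
  unfold M2
  apply div_pos _ (by positivity)
  apply sum_pos'
  · intro i _; positivity
  · refine ⟨0, by rw [mem_range]; omega, ?_⟩
    have h3 : ∀ m : ℕ, 0 < wm s t m 0 := by
      intro m
      induction m with
      | zero => simp [wm]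
      | succ m ih =>
        rw [wm]
        apply sum_pos'
        · intro i _; positivity
        · refine ⟨0, by rw [mem_range]; omega, ?_⟩
          apply sum_pos'
          · intro i _; positivity
          · refine ⟨0, by rw [mem_range]; omega, ?_⟩
            simpa using ih
    have h4 : (0 : ℝ) < wm s t m 0 := by exact_mod_cast h3 m
    positivity

/-- the density condition: at least `(1 - δ) v - C1` positions below `v` -/
def Dens (δ C1 : ℝ) (L : ℕ) (P : Finset ℕ) : Prop :=
  P ⊆ range L ∧ ∀ v : ℕ, v ≤ L → (1 - δ) * v - C1 ≤ ((P.filter (fun c => c < v)).card : ℝ)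

/-- the input: an `L¹` bound for products over arbitrary sets of positions -/
structure LOne (b s t : ℕ) (H CH : ℝ) : Prop where
  H0 : 0 < H
  H1 : H < 1
  C0 : 0 < CH
  lin : ∀ (L Q : ℕ) (T : ℝ) (B : Finset ℕ), B ⊆ range L →
    (∀ n : ℕ, 1 ≤ n → n ≤ b ^ (2 * L + 2) → (n.divisors.card : ℝ) ≤ T) →
    pts b Q (FP b s t L B) ≤ 2 * Q * (Q * (CH * H ^ B.card) + T)
  sq : ∀ (L R : ℕ) (T : ℝ) (B : Finset ℕ), B ⊆ range L → 1 ≤ R →
    (∀ n : ℕ, 1 ≤ n → n ≤ b ^ (2 * L + 2) → (n.divisors.card : ℝ) ≤ T) →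
    ∑ m ∈ (Ico R (2 * R)).filter (fun m => m.Coprime (2 * b)), EM (m ^ 2) (FP b s t L B) ≤
      R * (CH * H ^ B.card) + T

theorem LOne_HH (hb : 2 ≤ b) (hs : 1 ≤ s) (ht : 1 ≤ t) (hst : s + t ≤ b + 1) (hH : HH s t < 1) :
    LOne b s t (HH s t) 1 where
  H0 := HH_pos hs ht
  H1 := hH
  C0 := one_pos
  lin := by
    intro L Q T B hB hT
    rw [one_mul]
    refine le_trans (pts_mono fun α => ?_) ((pts_le_apts (f := fun α => ∏ c ∈ B, Gf s t (fr b L c * α))
      (fun α => prod_nonneg fun _ _ => Gf_nonneg _)).trans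
      (Pool.Agent.R471.RD.G.mainG b s t hb hs ht hst L Q T B hB hT))
    exact prod_le_prod (fun _ _ => ps_nonneg _ _ _) (fun _ _ => ps_le_Gf _)
  sq := by
    intro L R T B hB hR hT
    rw [one_mul]
    refine le_trans (sum_le_sum fun m _ => Pool.Agent.W809.PWSqr.EM_mono (m ^ 2) _
      (fun α => ∏ c ∈ B, Gf s t (fr b L c * α)) fun α => ?_)
      (Pool.Agent.R471.RD.G.mainGsq b s t hb hs ht hst L R T B hB hR hT)
    exact prod_le_prod (fun _ _ => ps_nonneg _ _ _) (fun _ _ => ps_le_Gf _)

lemma pairing (Λ : (ℝ → ℝ) → ℝ) (hmono : ∀ f g, (∀ α, f α ≤ g α) → Λ f ≤ Λ g)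
    (hadd : ∀ f g, Λ (fun α => (f α + g α) / 2) ≤ (Λ f + Λ g) / 2) (x : ℕ → ℝ → ℝ) (h0 : ∀ c α, 0 ≤ x c α)
    (h1 : ∀ c α, x c α ≤ 1) (U : Finset ℕ) (V : ℕ → ℝ)
    (hV : ∀ D ⊆ U, Λ (fun α => ∏ c ∈ D, x c α ^ 2) ≤ V D.card) :
    ∀ n : ℕ, ∀ B D : Finset ℕ, B.card = n → Disjoint B D → B ∪ D ⊆ U →
      Λ (fun α => (∏ c ∈ B, x c α) * ∏ c ∈ D, x c α ^ 2) ≤ V (D.card + B.card / 2) := by
  classical
  intro n
  induction n using Nat.strong_induction_on with
  | _ n ih =>
    intro B D hn hd hU
    rcases Nat.lt_or_ge n 2 with h2 | h2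
    · rw [show B.card / 2 = 0 by omega, add_zero]
      refine (hmono _ _ fun α => ?_).trans (hV D (subset_union_right.trans hU))
      exact mul_le_of_le_one_left (prod_nonneg fun _ _ => by positivity)
        (prod_le_one (fun c _ => h0 c α) (fun c _ => h1 c α))
    · obtain ⟨c, hc⟩ : B.Nonempty := card_pos.1 (by omega)
      obtain ⟨c', hc'⟩ : (B.erase c).Nonempty := card_pos.1 (by rw [card_erase_of_mem hc]; omega)
      have hcc : c' ≠ c := (mem_erase.1 hc').1
      have hc'B : c' ∈ B := (mem_erase.1 hc').2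
      obtain ⟨B', hB'⟩ : ∃ B', (B.erase c).erase c' = B' := ⟨_, rfl⟩
      have hcard : B'.card = n - 2 := by
        rw [← hB', card_erase_of_mem hc', card_erase_of_mem hc]; omega
      have hsub : B' ⊆ B := by rw [← hB']; exact (erase_subset _ _).trans (erase_subset _ _)
      have hcD : c ∉ D := fun h => (disjoint_left.1 hd) hc h
      have hc'D : c' ∉ D := fun h => (disjoint_left.1 hd) hc'B h
      have hcB' : c ∉ B' := by rw [← hB']; simp
      have hc'B' : c' ∉ B' := by rw [← hB']; simp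
      have e1 : ∀ α, ∏ i ∈ B, x i α = x c α * (x c' α * ∏ i ∈ B', x i α) := by
        intro α
        rw [← mul_prod_erase B _ hc, ← mul_prod_erase (B.erase c) _ hc', hB']
      have ih1 := ih (n - 2) (by omega) B' (insert c D) hcard
        (by
          rw [disjoint_insert_right]
          exact ⟨hcB', disjoint_of_subset_left hsub hd⟩)
        (by
          intro i hi
          rw [mem_union, mem_insert] at hi
          apply hU
          rw [mem_union]
          rcases hi with h | rfl | h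
          · exact Or.inl (hsub h)
          · exact Or.inl hc
          · exact Or.inr h)
      have ih2 := ih (n - 2) (by omega) B' (insert c' D) hcard
        (by
          rw [disjoint_insert_right]
          exact ⟨hc'B', disjoint_of_subset_left hsub hd⟩)
        (by
          intro i hi
          rw [mem_union, mem_insert] at hi
          apply hU
          rw [mem_union]
          rcases hi with h | rfl | h
          · exact Or.inl (hsub h)
          · exact Or.inl hc'B
          · exact Or.inr h)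
      rw [card_insert_of_notMem hcD] at ih1
      rw [card_insert_of_notMem hc'D] at ih2
      have e2 : D.card + 1 + B'.card / 2 = D.card + B.card / 2 := by omega
      rw [e2] at ih1 ih2
      have h5 := hadd (fun α => (∏ i ∈ B', x i α) * ∏ i ∈ insert c D, x i α ^ 2)
        (fun α => (∏ i ∈ B', x i α) * ∏ i ∈ insert c' D, x i α ^ 2)
      refine (hmono _ _ fun α => ?_).trans (h5.trans (by linarith))
      rw [e1, prod_insert hcD, prod_insert hc'D]
      have hA := prod_nonneg fun i (_ : i ∈ B') => h0 i α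
      have hB : 0 ≤ ∏ i ∈ D, x i α ^ 2 := prod_nonneg fun i _ => by positivity
      generalize ∏ i ∈ B', x i α = u at hA
      generalize ∏ i ∈ D, x i α ^ 2 = v at hB
      have h3 : x c α * x c' α ≤ (x c α ^ 2 + x c' α ^ 2) / 2 := by nlinarith [sq_nonneg (x c α - x c' α)]
      have h4 : x c α * x c' α * (u * v) ≤ (x c α ^ 2 + x c' α ^ 2) / 2 * (u * v) :=
        mul_le_mul_of_nonneg_right h3 (mul_nonneg hA hB)
      calc x c α * (x c' α * u) * v = x c α * x c' α * (u * v) := by ring
        _ ≤ _ := h4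
        _ = _ := by ring

lemma ps21 (x : ℝ) : ps 2 1 x = ph 2 x := by
  unfold ps
  have : ph 1 x = 1 := by
    unfold ph
    simp [ls_ee_zero]
  rw [this, mul_one]

lemma half_pow_le (n : ℕ) : (1 / 2 : ℝ) ^ (n / 2) ≤ Real.sqrt 2 * (1 / Real.sqrt 2) ^ n := by
  have h2 : 0 < Real.sqrt 2 := Real.sqrt_pos.2 (by norm_num)
  have h1 : 1 ≤ Real.sqrt 2 := Real.one_le_sqrt.2 (by norm_num)
  have hs : (1 / Real.sqrt 2) ^ 2 = 1 / 2 := by
    rw [div_pow, one_pow, Real.sq_sqrt (by norm_num)]
  have h3 : (1 / 2 : ℝ) ^ (n / 2) = (1 / Real.sqrt 2) ^ (2 * (n / 2)) := by rw [pow_mul, hs]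
  rw [h3]
  have hx0 : 0 < 1 / Real.sqrt 2 := by positivity
  have hx1 : 1 / Real.sqrt 2 ≤ 1 := (div_le_one h2).2 h1
  have h4 : Real.sqrt 2 * (1 / Real.sqrt 2) = 1 := by field_simp
  rcases Nat.even_or_odd' n with ⟨k, hk | hk⟩
  · rw [hk, Nat.mul_div_cancel_left _ (by norm_num)]
    exact le_mul_of_one_le_left (by positivity) h1
  · have : n / 2 = k := by omega
    rw [this, hk, pow_succ, mul_comm ((1 / Real.sqrt 2) ^ (2 * k)), ← mul_assoc, h4, one_mul]

theorem LOne_two (hb : 3 ≤ b) : LOne b 2 1 (1 / Real.sqrt 2) (Real.sqrt 2) where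
  H0 := by positivity
  H1 := by
    rw [div_lt_one (by positivity)]
    exact (Real.lt_sqrt (by norm_num)).2 (by norm_num)
  C0 := by positivity
  lin := by
    intro L Q T B hB hT
    have hG : ∀ x, Gf 2 2 x = ph 2 x ^ 2 := by intro x; unfold Gf; ring
    have hHH : HH 2 2 = 1 / 2 := by unfold HH; norm_num
    have h1 := pairing (fun f => pts b Q f) (fun f g h => pts_mono h)
      (by
        intro f g
        have e1 : (fun α => (f α + g α) / 2) = fun α => (1 / 2) * f α + (1 / 2) * g α := by funext α; ring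
        simp only [e1]
        rw [pts_add, pts_mul_left, pts_mul_left]
        linarith)
      (fun c α => ph 2 (fr b L c * α)) (fun c α => ph_nonneg _ _) (fun c α => ph_le_one _ _) (range L)
      (fun n => 2 * Q * (Q * (1 / 2) ^ n + T))
      (by
        intro D hD
        have h2 := Pool.Agent.R471.RD.G.mainG b 2 2 (by omega) (by norm_num) (by norm_num) (by omega) L Q T D hD hT
        rw [hHH] at h2
        refine le_trans ?_ h2
        simp only [hG]
        exact pts_le_apts fun α => prod_nonneg fun _ _ => by positivity) B.card B ∅ rfl (disjoint_empty_right _)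
        (by rw [union_empty]; exact hB)
    simp only [prod_empty, mul_one, card_empty, zero_add] at h1
    have e2 : FP b 2 1 L B = fun α => ∏ c ∈ B, ph 2 (fr b L c * α) := by
      funext α
      unfold FP
      exact prod_congr rfl fun c _ => ps21 _
    rw [e2]
    refine h1.trans ?_
    have h3 := half_pow_le B.card
    gcongr
  sq := by
    intro L R T B hB hR hT
    have hG : ∀ x, Gf 2 2 x = ph 2 x ^ 2 := by intro x; unfold Gf; ring
    have hHH : HH 2 2 = 1 / 2 := by unfold HH; norm_num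
    have h1 := pairing (fun f => ∑ m ∈ (Ico R (2 * R)).filter (fun m => m.Coprime (2 * b)), EM (m ^ 2) f)
      (fun f g h => sum_le_sum fun m _ => Pool.Agent.W809.PWSqr.EM_mono _ _ _ h)
      (by
        intro f g
        rw [← sum_add_distrib, sum_div]
        apply sum_le_sum
        intro m _
        unfold EM
        apply le_of_eq
        rw [← sum_div, sum_add_distrib]
        ring)
      (fun c α => ph 2 (fr b L c * α)) (fun c α => ph_nonneg _ _) (fun c α => ph_le_one _ _) (range L)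
      (fun n => R * (1 / 2) ^ n + T)
      (by
        intro D hD
        have h2 := Pool.Agent.R471.RD.G.mainGsq b 2 2 (by omega) (by norm_num) (by norm_num) (by omega) L R T D hD hR hT
        rw [hHH] at h2
        refine le_trans ?_ h2
        simp only [hG]
        exact le_refl _) B.card B ∅ rfl (disjoint_empty_right _)
        (by rw [union_empty]; exact hB)
    simp only [prod_empty, mul_one, card_empty, zero_add] at h1
    have e2 : FP b 2 1 L B = fun α => ∏ c ∈ B, ph 2 (fr b L c * α) := by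
      funext α
      unfold FP
      exact prod_congr rfl fun c _ => ps21 _
    rw [e2]
    refine h1.trans ?_
    have h3 := half_pow_le B.card
    gcongr

theorem bigP (hb : 2 ≤ b) (hs : 1 ≤ s) (ht : 1 ≤ t) {H CH : ℝ} (hLO : LOne b s t H CH) {m : ℕ} (hm1 : 1 ≤ m)
    (hm : m * (s + t - 2) ≤ b * (b - 1)) {δ κ : ℝ} (hδ1 : δ < 1) (hκ : 0 < κ) (hκ1 : κ < 1)
    (hκH : (b : ℝ) ^ κ * H ^ (1 - δ) < 1) (hr : (b : ℝ) * M2 s t m ^ (1 - δ) < 1) (C1 : ℝ) :
    ∃ C δ' : ℝ, 0 < C ∧ 0 < δ' ∧ δ' < 1 ∧ ∀ (L Q : ℕ) (P : Finset ℕ), Dens δ C1 L P → 1 ≤ Q →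
    (Q : ℝ) ≤ (b : ℝ) ^ (κ * L) → pts b Q (FP b s t L P) ≤ C * (Q : ℝ) ^ (1 - δ') := by
  set W : ℝ := M2 s t m with hW
  have hb3 : (2 : ℝ) ≤ b := by exact_mod_cast hb
  have hb0 : (0 : ℝ) < b := by linarith
  have hb1 : (1 : ℝ) < b := by linarith
  have hH0 : 0 < H := hLO.H0
  have hHH : H < 1 := hLO.H1
  have hCH0 : 0 < CH := hLO.C0
  have hW0 : 0 < W := M2_pos hs ht m
  set h : ℝ := H ^ (1 - δ) with hh
  set r : ℝ := (b : ℝ) * W ^ (1 - δ) with hrdef
  have hh0 : 0 < h := by positivity
  have hr0 : 0 < r := by positivity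
  have hlb : 0 < Real.log b := Real.log_pos hb1
  have hlH : Real.log H < 0 := Real.log_neg hH0 hHH
  have hlh : Real.log h = (1 - δ) * Real.log H := by rw [hh, Real.log_rpow hH0]
  have hlh0 : Real.log h < 0 := by rw [hlh]; exact mul_neg_of_pos_of_neg (by linarith) hlH
  have hlr : Real.log r < 0 := Real.log_neg hr0 hr
  have hW1 : W < 1 := by
    by_contra hcon
    push Not at hcon
    have h1 : 1 ≤ W ^ (1 - δ) := Real.one_le_rpow hcon (by linarith)
    have h2 : (b : ℝ) * 1 ≤ r := mul_le_mul_of_nonneg_left h1 hb0.le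
    linarith
  -- `ρ = b ^ κ h < 1`
  have hρ : κ * Real.log b + Real.log h < 0 := by
    have h1 := Real.log_neg (by positivity) hκH
    rwa [Real.log_mul (by positivity) hh0.ne', Real.log_rpow hb0] at h1
  -- the number of blocks
  obtain ⟨k, hk⟩ := exists_nat_ge (κ * (-Real.log H) / (-(κ * Real.log b + Real.log h)) + 1)
  have hk1 : (1 : ℝ) ≤ k := by
    have : 0 ≤ κ * (-Real.log H) / (-(κ * Real.log b + Real.log h)) := by
      apply div_nonneg
      · apply mul_nonneg hκ.le; linarith
      · linarith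
    linarith
  have hk0 : (0 : ℝ) < k := by linarith
  have hkρ : κ * (-Real.log H) ≤ k * (-(κ * Real.log b + Real.log h)) := by
    have h1 : κ * (-Real.log H) / (-(κ * Real.log b + Real.log h)) ≤ k := by linarith
    rwa [div_le_iff₀ (by linarith)] at h1
  have hkN : 1 ≤ k := by exact_mod_cast hk1
  -- the number `N`
  obtain ⟨N, hN⟩ := exists_nat_ge ((Real.log b - Real.log H) / (-Real.log h) + 2)
  have hN2 : (2 : ℝ) ≤ N := by
    have : 0 ≤ (Real.log b - Real.log H) / (-Real.log h) := div_nonneg (by linarith) (by linarith)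
    linarith
  have hNN : 2 ≤ N := by exact_mod_cast hN2
  have hNH : Real.log b - Real.log H ≤ N * (-Real.log h) := by
    have h1 : (Real.log b - Real.log H) / (-Real.log h) ≤ N := by linarith
    rwa [div_le_iff₀ (by linarith)] at h1
  -- exponents
  set γ : ℝ := -Real.log r / Real.log b with hγ
  have hγ0 : 0 < γ := div_pos (by linarith) hlb
  obtain ⟨n, hn⟩ : ∃ n, n + 1 = 2 * m := ⟨2 * m - 1, by omega⟩
  set η : ℝ := γ / (n * k + 1) with hη
  have hη0 : 0 < η := by positivity
  have hηγ : (n * k + 1) * η = γ := by rw [hη]; field_simp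
  set ε : ℝ := η / (4 * N) with hε
  have hN0 : (0 : ℝ) < N := by linarith
  have hε0 : 0 < ε := by positivity
  have hεη : 2 * N * ε = η / 2 := by rw [hε]; field_simp; ring
  obtain ⟨C0, hC0, hτ⟩ := divisor_bound ε hε0
  obtain ⟨L0, hL0⟩ := exists_nat_ge (1 / (1 - κ))
  set δ' : ℝ := min (η / 2) (1 / 2) with hδ'
  have hδ0 : 0 < δ' := lt_min (by positivity) (by norm_num)
  have hδ1' : δ' ≤ 1 / 2 := min_le_right _ _
  have hδη : δ' ≤ η / 2 := min_le_left _ _
  set Cm' : ℝ := H ^ (-(C1 + 3)) with hCm'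
  have hCm0' : 0 < Cm' := by positivity
  set Cm : ℝ := CH * Cm' with hCm
  have hCm0 : 0 < Cm := by positivity
  set C2 : ℝ := C0 * ((b : ℝ) ^ (2 * N + 2)) ^ ε with hC2
  have hC20 : 0 < C2 := by positivity
  set C3 : ℝ := 6 * ((b : ℝ) ^ 3 + 4) * W ^ (-C1) with hC3
  have hC30 : 0 < C3 := by positivity
  refine ⟨2 * ((b : ℝ) ^ (κ * L0)) ^ 2 + (2 * k * (Cm + C2) + C3), δ', by positivity, hδ0,
    by linarith, ?_⟩
  intro L Q P hP hQ hQL
  obtain ⟨hPL, hPd⟩ := hP
  have hQ1 : (1 : ℝ) ≤ Q := by exact_mod_cast hQ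
  have hQ0 : (0 : ℝ) < Q := by linarith
  have hQδ : 1 ≤ (Q : ℝ) ^ (1 - δ') := Real.one_le_rpow hQ1 (by linarith)
  have hpos1 : 0 ≤ 2 * ((b : ℝ) ^ (κ * L0)) ^ 2 := by positivity
  have hpos2 : 0 ≤ 2 * k * (Cm + C2) + C3 := by positivity
  rcases Nat.lt_or_ge L L0 with hLL | hLL
  · -- small `L`
    have h1 : pts b Q (FP b s t L P) ≤ 2 * (Q : ℝ) ^ 2 := pts_trivial Q _ (FP_le_one L P)
    have h2 : (Q : ℝ) ≤ (b : ℝ) ^ (κ * L0) := by
      refine hQL.trans (Real.rpow_le_rpow_of_exponent_le hb1.le ?_)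
      have : (L : ℝ) ≤ L0 := by exact_mod_cast hLL.le
      exact mul_le_mul_of_nonneg_left this hκ.le
    have h3 : (Q : ℝ) ^ 2 ≤ ((b : ℝ) ^ (κ * L0)) ^ 2 := pow_le_pow_left₀ hQ0.le h2 2
    calc pts b Q (FP b s t L P) ≤ 2 * ((b : ℝ) ^ (κ * L0)) ^ 2 * 1 := by linarith
      _ ≤ (2 * ((b : ℝ) ^ (κ * L0)) ^ 2 + (2 * k * (Cm + C2) + C3)) * (Q : ℝ) ^ (1 - δ') :=
          mul_le_mul (by linarith) hQδ (by norm_num) (by linarith)
  · have hbN : 1 < b := by omega
    set J : ℕ := Nat.log b Q + 1 with hJ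
    have f1 : Q < b ^ J := Nat.lt_pow_succ_log_self hbN Q
    have f2 : b ^ J ≤ b * Q := by
      rw [hJ, pow_succ, mul_comm]
      exact Nat.mul_le_mul_left b (Nat.pow_log_le_self b (by omega))
    have f1r : (Q : ℝ) ≤ (b : ℝ) ^ J := by exact_mod_cast f1.le
    have f2r : (b : ℝ) ^ J ≤ b * Q := by exact_mod_cast f2
    have hJ1 : 1 ≤ J := by omega
    -- `J ≤ κ L + 1`
    have hJu : (J : ℝ) ≤ κ * L + 1 := by
      have h1 : (b : ℝ) ^ (Nat.log b Q) ≤ (b : ℝ) ^ (κ * L) := by
        refine le_trans ?_ hQL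
        exact_mod_cast Nat.pow_log_le_self b (by omega)
      rw [← Real.rpow_natCast, Real.rpow_le_rpow_left_iff hb1] at h1
      rw [hJ]
      push_cast
      linarith
    have hJL : J ≤ L := by
      have h1 : (L0 : ℝ) ≤ L := by exact_mod_cast hLL
      have h2 : 1 / (1 - κ) ≤ L := hL0.trans h1
      rw [div_le_iff₀ (by linarith)] at h2
      have h3 : (J : ℝ) ≤ L := by nlinarith
      exact_mod_cast h3
    set M : ℕ := min L (N * J) with hM
    have hML : M ≤ L := min_le_left _ _
    have hMN : M ≤ N * J := min_le_right _ _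
    have hJM : J ≤ M := le_min hJL (Nat.le_mul_of_pos_left J (by omega))
    set K : ℕ := J / k + 1 with hK
    have hJK : J ≤ k * K := by
      rw [hK]
      exact (Nat.lt_mul_div_succ J (show 0 < k by omega)).le
    have hKr : (K : ℝ) ≤ J / k + 1 := by
      rw [hK]
      push_cast
      have := Nat.cast_div_le (α := ℝ) (m := J) (n := k)
      linarith
    have hKJ : K ≤ J + 1 := by
      rw [hK]
      have := Nat.div_le_self J k
      omega
    set P' := P.filter (fun c => c < M) with hP'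
    have hP'M : P' ⊆ range M := by
      intro c hc
      rw [mem_range]
      exact (mem_filter.1 hc).2
    have hP'c : (1 - δ) * M - C1 ≤ (P'.card : ℝ) := hPd M hML
    -- the main term
    have hmain : ∀ i, CH * H ^ (P'.filter (fun c => ¬ (c < J ∧ c / K = i))).card ≤ Cm / Q := by
      intro i
      rw [hCm, mul_div_assoc]
      apply mul_le_mul_of_nonneg_left _ hCH0.le
      have h0 := card_blockP P' J K i (by rw [hK]; exact Nat.succ_pos _)
      have h00 : (P'.card : ℝ) ≤ ((P'.filter (fun c => ¬ (c < J ∧ c / K = i))).card : ℝ) + K := by exact_mod_cast h0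
      generalize (P'.filter (fun c => ¬ (c < J ∧ c / K = i))).card = nf at h00
      rw [le_div_iff₀ hQ0, mul_comm]
      have hMK : (1 - δ) * M - C1 - K ≤ (nf : ℝ) := by linarith
      have h1 : Real.log ((Q : ℝ) * H ^ nf) ≤ Real.log Cm' := by
        rw [Real.log_mul hQ0.ne' (by positivity), Real.log_pow, hCm', Real.log_rpow hH0]
        have h2 : (nf : ℝ) * Real.log H ≤ ((1 - δ) * M - C1 - K) * Real.log H :=
          mul_le_mul_of_nonpos_right hMK hlH.le
        have h2' : ((1 - δ) * M - C1 - K) * Real.log H = M * Real.log h + (C1 + K) * (-Real.log H) := by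
          rw [hlh]; ring
        rcases le_total L (N * J) with hLN | hLN
        · have hMeq : M = L := min_eq_left hLN
          have h3 : Real.log Q ≤ κ * L * Real.log b := by
            have := Real.log_le_log hQ0 hQL
            rwa [Real.log_rpow hb0] at this
          have h4 : (K : ℝ) ≤ (κ * L + 1) / k + 1 := by
            refine hKr.trans ?_
            gcongr
          have h5 : (κ * L + 1) / k = κ * L / k + 1 / k := by ring
          have h6 : (1 : ℝ) / k ≤ 1 := by rw [div_le_one hk0]; exact hk1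
          have h7 : (K : ℝ) ≤ κ * L / k + 2 := by linarith
          have h8 : (K : ℝ) * (-Real.log H) ≤ (κ * L / k + 2) * (-Real.log H) :=
            mul_le_mul_of_nonneg_right h7 (by linarith)
          have h9 : κ * L / k * (-Real.log H) ≤ L * (-(κ * Real.log b + Real.log h)) := by
            have : κ * L / k * (-Real.log H) = L * (κ * (-Real.log H)) / k := by ring
            rw [this, div_le_iff₀ hk0]
            have h10 : (L : ℝ) * (κ * (-Real.log H)) ≤ L * (k * (-(κ * Real.log b + Real.log h))) :=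
              mul_le_mul_of_nonneg_left hkρ (Nat.cast_nonneg L)
            linarith
          rw [h2', hMeq] at h2
          have e9 : κ * L / k * (-Real.log H) + 2 * (-Real.log H) = (κ * L / k + 2) * (-Real.log H) := by ring
          rw [← e9] at h8
          generalize κ * L / k * (-Real.log H) = X1 at h8 h9
          linarith
        · have hMeq : M = N * J := min_eq_right hLN
          have h3 : Real.log Q ≤ J * Real.log b := by
            have := Real.log_le_log hQ0 f1r
            rwa [Real.log_pow] at this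
          have h4 : (K : ℝ) ≤ J + 1 := by exact_mod_cast hKJ
          have h5 : (K : ℝ) * (-Real.log H) ≤ (J + 1) * (-Real.log H) :=
            mul_le_mul_of_nonneg_right h4 (by linarith)
          have h6 : (J : ℝ) * (Real.log b - Real.log H) ≤ J * (N * (-Real.log h)) :=
            mul_le_mul_of_nonneg_left hNH (Nat.cast_nonneg J)
          have h7 : (M : ℝ) = N * J := by rw [hMeq]; push_cast; ring
          rw [h2', h7] at h2
          linarith
      exact (Real.log_le_log_iff (by positivity) hCm0').1 h1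
    -- the divisor bound
    set T : ℝ := C2 * (Q : ℝ) ^ (η / 2) with hT
    have hTp : ∀ n : ℕ, 1 ≤ n → n ≤ b ^ (2 * M + 2) → (n.divisors.card : ℝ) ≤ T := by
      intro n hn1 hn2
      refine (hτ n hn1).trans ?_
      have h1 : (n : ℝ) ≤ (b : ℝ) ^ (2 * N + 2) * (Q : ℝ) ^ (2 * N) := by
        calc (n : ℝ) ≤ (b : ℝ) ^ (2 * M + 2) := by exact_mod_cast hn2
          _ ≤ (b : ℝ) ^ (2 * (N * J) + 2) := pow_le_pow_right₀ hb1.le (by omega)
          _ = ((b : ℝ) ^ J) ^ (2 * N) * (b : ℝ) ^ 2 := by rw [← pow_mul, ← pow_add]; congr 1; ring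
          _ ≤ (b * Q : ℝ) ^ (2 * N) * (b : ℝ) ^ 2 := by gcongr
          _ = _ := by ring
      have h2 : (n : ℝ) ^ ε ≤ ((b : ℝ) ^ (2 * N + 2) * (Q : ℝ) ^ (2 * N)) ^ ε :=
        Real.rpow_le_rpow (by positivity) h1 hε0.le
      have h3 : ((b : ℝ) ^ (2 * N + 2) * (Q : ℝ) ^ (2 * N)) ^ ε =
          ((b : ℝ) ^ (2 * N + 2)) ^ ε * (Q : ℝ) ^ (η / 2) := by
        rw [Real.mul_rpow (by positivity) (by positivity)]
        congr 1
        rw [← Real.rpow_natCast (Q : ℝ), ← Real.rpow_mul hQ0.le]
        congr 1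
        push_cast
        exact hεη
      rw [h3] at h2
      calc C0 * (n : ℝ) ^ ε ≤ C0 * (((b : ℝ) ^ (2 * N + 2)) ^ ε * (Q : ℝ) ^ (η / 2)) :=
            mul_le_mul_of_nonneg_left h2 hC0.le
        _ = T := by rw [hT, hC2]; ring
    set lam : ℝ := (Q : ℝ) ^ (-η) with hlam
    have hlam0 : 0 < lam := by positivity
    have hG : ∀ B : Finset ℕ, B ⊆ range M →
        pts b Q (FP b s t M B) ≤ 2 * Q * (Q * (CH * H ^ B.card) + T) :=
      fun B hB => hLO.lin M Q T B hB hTp
    -- the moment
    have hfilt : P'.filter (fun c => c < J) = P.filter (fun c => c < J) := by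
      rw [hP', filter_filter]
      apply filter_congr
      intro c _
      constructor
      · rintro ⟨_, h⟩; exact h
      · intro h; exact ⟨by omega, h⟩
    have hPJ : P'.filter (fun c => c < J) ⊆ range J := by
      intro c hc
      rw [mem_range]
      exact (mem_filter.1 hc).2
    have hLS := lsP (b := b) (s := s) (t := t) hb hs ht hm (L := M) (J := J) (Q := Q)
      (P'.filter (fun c => c < J)) hPJ hJ1 hJM f1.le f2
    have hcJ : (1 - δ) * J - C1 ≤ ((P'.filter (fun c => c < J)).card : ℝ) := by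
      rw [hfilt]
      exact hPd J hJL
    have hWn : (b : ℝ) ^ J * W ^ (P'.filter (fun c => c < J)).card ≤ W ^ (-C1) * r ^ J := by
      have h1 : W ^ (P'.filter (fun c => c < J)).card ≤ W ^ ((1 - δ) * J - C1) := by
        rw [← Real.rpow_natCast]
        exact Real.rpow_le_rpow_of_exponent_ge hW0 hW1.le hcJ
      have h2 : W ^ ((1 - δ) * J - C1) = (W ^ (1 - δ)) ^ J * W ^ (-C1) := by
        rw [← Real.rpow_natCast (W ^ (1 - δ)) J, ← Real.rpow_mul hW0.le, ← Real.rpow_add hW0]
        congr 1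
      rw [h2] at h1
      calc (b : ℝ) ^ J * W ^ (P'.filter (fun c => c < J)).card ≤ (b : ℝ) ^ J * ((W ^ (1 - δ)) ^ J * W ^ (-C1)) := by
            gcongr
        _ = _ := by rw [hrdef, mul_pow]; ring
    have hLS' : pts b Q (fun α => FP b s t M (P'.filter (fun c => c < J)) α ^ (n + 1)) ≤ C3 * Q * r ^ J := by
      rw [hn]
      refine hLS.trans ?_
      calc 6 * ((b : ℝ) ^ 3 + 4) * Q * (b : ℝ) ^ J * W ^ (P'.filter (fun c => c < J)).card
          = 6 * ((b : ℝ) ^ 3 + 4) * Q * ((b : ℝ) ^ J * W ^ (P'.filter (fun c => c < J)).card) := by ring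
        _ ≤ 6 * ((b : ℝ) ^ 3 + 4) * Q * (W ^ (-C1) * r ^ J) := by gcongr
        _ = _ := by rw [hC3]; ring
    have hbig := bigP0 (b := b) (s := s) (t := t) M k K J Q n P' hP'M T lam H CH _ (Cm / Q) hlam0 hG hmain hLS' hJK
    -- `r ^ J ≤ Q ^ (-γ)`
    have hrJ : r ^ J ≤ (Q : ℝ) ^ (-γ) := by
      rw [← Real.log_le_log_iff (by positivity) (by positivity), Real.log_pow, Real.log_rpow hQ0]
      have h1 : Real.log Q ≤ J * Real.log b := by
        have := Real.log_le_log hQ0 f1r
        rwa [Real.log_pow] at this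
      have h2 : γ * Real.log Q ≤ γ * (J * Real.log b) := mul_le_mul_of_nonneg_left h1 hγ0.le
      have h3 : γ * (J * Real.log b) = -(J * Real.log r) := by
        rw [hγ]; field_simp
      linarith
    have hsec : r ^ J / lam ^ (n * k) ≤ (Q : ℝ) ^ (-η) := by
      rw [div_le_iff₀ (by positivity)]
      refine hrJ.trans (le_of_eq ?_)
      rw [hlam, ← Real.rpow_natCast, ← Real.rpow_mul hQ0.le, ← Real.rpow_add hQ0]
      congr 1
      push_cast
      linarith
    have hQη : (Q : ℝ) * (Q : ℝ) ^ (-η) * (Q : ℝ) ^ (η / 2) = (Q : ℝ) ^ (1 - η / 2) := by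
      nth_rewrite 1 [← Real.rpow_one (Q : ℝ)]
      rw [← Real.rpow_add hQ0, ← Real.rpow_add hQ0]
      congr 1
      ring
    have hQη2 : 1 ≤ (Q : ℝ) ^ (η / 2) := Real.one_le_rpow hQ1 (by positivity)
    have hle : (Q : ℝ) ^ (1 - η / 2) ≤ (Q : ℝ) ^ (1 - δ') :=
      Real.rpow_le_rpow_of_exponent_le hQ1 (by linarith)
    have hfirst : 2 * k * lam * Q * (Q * (Cm / Q) + T) ≤
        2 * k * (Cm + C2) * (Q : ℝ) ^ (1 - η / 2) := by
      have h1 : Q * (Cm / Q) + T ≤ (Cm + C2) * (Q : ℝ) ^ (η / 2) := by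
        rw [mul_div_cancel₀ _ hQ0.ne']
        have : Cm * 1 ≤ Cm * (Q : ℝ) ^ (η / 2) := mul_le_mul_of_nonneg_left hQη2 hCm0.le
        rw [hT]
        linarith
      calc 2 * k * lam * Q * (Q * (Cm / Q) + T) ≤ 2 * k * lam * Q * ((Cm + C2) * (Q : ℝ) ^ (η / 2)) :=
            mul_le_mul_of_nonneg_left h1 (by positivity)
        _ = 2 * k * (Cm + C2) * ((Q : ℝ) * lam * (Q : ℝ) ^ (η / 2)) := by ring
        _ = _ := by rw [hlam, hQη]
    have hsecond : C3 * Q * r ^ J / lam ^ (n * k) ≤ C3 * (Q : ℝ) ^ (1 - η / 2) := by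
      calc C3 * Q * r ^ J / lam ^ (n * k)
          = C3 * Q * (r ^ J / lam ^ (n * k)) := by ring
        _ ≤ C3 * Q * (Q : ℝ) ^ (-η) := mul_le_mul_of_nonneg_left hsec (by positivity)
        _ ≤ C3 * Q * (Q : ℝ) ^ (-η) * (Q : ℝ) ^ (η / 2) :=
            le_mul_of_one_le_right (by positivity) hQη2
        _ = C3 * ((Q : ℝ) * (Q : ℝ) ^ (-η) * (Q : ℝ) ^ (η / 2)) := by ring
        _ = _ := by rw [hQη]
    calc pts b Q (FP b s t L P) ≤ pts b Q (FP b s t M P') := pts_shrinkP hML P Q
      _ ≤ (2 * k * (Cm + C2) + C3) * (Q : ℝ) ^ (1 - η / 2) := by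
          refine hbig.trans ?_
          linarith
      _ ≤ (2 * k * (Cm + C2) + C3) * (Q : ℝ) ^ (1 - δ') :=
          mul_le_mul_of_nonneg_left hle hpos2
      _ ≤ _ := mul_le_mul_of_nonneg_right (by linarith) (by positivity)

end Pool.Agent.U857.PX
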