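import Pool.Agent.U857.PX.A1b
import Pool.Agent.R471.RD.Pt
import Pool.Agent.W261.PW_BV
/-!
The pointwise bound for digits at a set of positions which contains two consecutive positions in every window of a
fixed length.
-/
set_option autoImplicit false

namespace Pool.Agent.U857.PX

open Finset Filter Topology Pool.Agent.Helper112
open Pool.Agent.W89.PW
open Pool.Agent.H39R3.PB (ph ph_nonneg ph_le_one ph_add_int coprime_b)
open Pool.Agent.H512R3.PBT6 (KK kap kap_pos kap_lt_one)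
open Pool.Agent.R471.RD.LS (ps_nonneg)

/-- in every window of length `K0` there are two consecutive positions of `P` -/
def Adj (K0 L : ℕ) (P : Finset ℕ) : Prop :=
  ∀ u, u + K0 ≤ L → ∃ c, u ≤ c ∧ c + 2 ≤ u + K0 ∧ c ∈ P ∧ c + 1 ∈ P

lemma fr_pair (b L c : ℕ) (hc : c + 1 ≤ L) : (b : ℝ) * fr b L (c + 1) - fr b L c =
    ((b : ℝ) ^ 2 - 1) * (b : ℝ) ^ (L + c + 2) := by
  unfold fr
  push_cast
  obtain ⟨k, rfl⟩ := Nat.exists_eq_add_of_le hc
  have e1 : c + 1 + k - (c + 1) = k := by omega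
  have e2 : c + 1 + k - c = k + 1 := by omega
  rw [e1, e2]
  ring

lemma runP {b K0 : ℕ} (hb : 2 ≤ b) (q h a L u0 : ℕ) (P : Finset ℕ) (hq1 : 1 < q) (hq : q.Coprime (2 * b))
    (ha : a.Coprime q) (ht : q < b ^ h) (hA : Adj K0 L P) (hu : u0 + (h + 1) * K0 ≤ L) :
    ∃ c ∈ P, u0 ≤ c ∧ c < u0 + (h + 1) * K0 ∧ 1 / KK (b ^ (K0 + 2)) ≤ |(fr b L c : ℝ) * ((a : ℝ) / q) -
      round ((fr b L c : ℝ) * ((a : ℝ) / q))| := by
  by_contra hcon
  push Not at hcon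
  have hbR : (2 : ℝ) ≤ b := by exact_mod_cast hb
  have hb0 : (0 : ℝ) < b := by linarith
  have hq0 : (0 : ℝ) < q := by exact_mod_cast (by omega : 0 < q)
  obtain ⟨α, hα⟩ : ∃ α : ℝ, (a : ℝ) / q = α := ⟨_, rfl⟩
  obtain ⟨ε, hε⟩ : ∃ ε : ℝ, 1 / KK (b ^ (K0 + 2)) = ε := ⟨_, rfl⟩
  rw [hα, hε] at hcon
  have hKK : KK (b ^ (K0 + 2)) = ((b : ℝ) ^ (K0 + 2) + 1) ^ 2 := by unfold KK; push_cast; ring
  have hε0 : 0 < ε := by rw [← hε, hKK]; positivity
  have hε1 : (b : ℝ) ^ (2 * K0) * ((b + 1) * ε) < 1 / 2 := by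
    have h1 : (b : ℝ) ^ (2 * K0) * ((b + 1) * ε) =
        (b : ℝ) ^ (2 * K0) * (b + 1) / ((b : ℝ) ^ (K0 + 2) + 1) ^ 2 := by
      rw [← hε, hKK]; ring
    rw [h1, div_lt_div_iff₀ (by positivity) (by norm_num)]
    have h2 : ((b : ℝ) ^ (K0 + 2) + 1) ^ 2 = (b : ℝ) ^ (2 * K0) * b ^ 4 + 2 * (b : ℝ) ^ (K0 + 2) + 1 := by ring
    rw [h2]
    have h3 : (0 : ℝ) < (b : ℝ) ^ (2 * K0) := by positivity
    have h4 : (0 : ℝ) < (b : ℝ) ^ (K0 + 2) := by positivity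
    have h5 : ((b : ℝ) + 1) * 2 ≤ (b : ℝ) ^ 4 := by
      have h6 : (2 : ℝ) ^ 3 ≤ (b : ℝ) ^ 3 := pow_le_pow_left₀ (by norm_num) hbR 3
      have h7 : (b : ℝ) * 2 ^ 3 ≤ b * (b : ℝ) ^ 3 := mul_le_mul_of_nonneg_left h6 hb0.le
      have h8 : (b : ℝ) ^ 4 = b * (b : ℝ) ^ 3 := by ring
      rw [h8]
      linarith
    have h6 : (b : ℝ) ^ (2 * K0) * (((b : ℝ) + 1) * 2) ≤ (b : ℝ) ^ (2 * K0) * (b : ℝ) ^ 4 :=
      mul_le_mul_of_nonneg_left h5 h3.le
    linarith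
  have hε2 : ((b : ℝ) + 1) * ε < 1 / 2 := by
    have h1 : (1 : ℝ) ≤ (b : ℝ) ^ (2 * K0) := one_le_pow₀ (by linarith)
    have h2 : 0 < ((b : ℝ) + 1) * ε := by positivity
    nlinarith
  have hex : ∀ i : ℕ, ∃ c, i ≤ h → (u0 + i * K0 ≤ c ∧ c + 2 ≤ u0 + (i + 1) * K0 ∧ c ∈ P ∧ c + 1 ∈ P) := by
    intro i
    by_cases hi : i ≤ h
    · have h1 : (i + 1) * K0 ≤ (h + 1) * K0 := Nat.mul_le_mul_right _ (by omega)
      have h2 : (i + 1) * K0 = i * K0 + K0 := by ring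
      obtain ⟨c, h3, h4, h5, h6⟩ := hA (u0 + i * K0) (by omega)
      exact ⟨c, fun _ => ⟨h3, by omega, h5, h6⟩⟩
    · exact ⟨0, fun h => absurd h hi⟩
  choose cc hcc using hex
  obtain ⟨n, hn⟩ : ∃ n : ℕ → ℤ, ∀ c, round ((fr b L c : ℝ) * α) = n c := ⟨_, fun _ => rfl⟩
  simp only [hn] at hcon
  obtain ⟨Y, hY⟩ : ∃ Y : ℕ → ℝ, ∀ i, Y i = ((b : ℝ) ^ 2 - 1) * (b : ℝ) ^ (L + cc i + 2) * α := ⟨_, fun _ => rfl⟩
  obtain ⟨N, hN⟩ : ∃ N : ℕ → ℤ, ∀ i, N i = b * n (cc i + 1) - n (cc i) := ⟨_, fun _ => rfl⟩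
  have hD : ∀ i ≤ h, |Y i - N i| ≤ (b + 1) * ε := by
    intro i hi
    obtain ⟨h1, h2, h3, h4⟩ := hcc i hi
    have hle : (i + 1) * K0 ≤ (h + 1) * K0 := Nat.mul_le_mul_right _ (by omega)
    have e1 := hcon (cc i) h3 (by omega) (by omega)
    have e2 := hcon (cc i + 1) h4 (by omega) (by omega)
    have e3 := fr_pair b L (cc i) (by omega)
    have e4 : Y i - N i = b * (fr b L (cc i + 1) * α - n (cc i + 1)) - (fr b L (cc i) * α - n (cc i)) := by
      rw [hY, hN, ← e3]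
      push_cast
      ring
    rw [e4]
    calc |(b : ℝ) * (fr b L (cc i + 1) * α - n (cc i + 1)) - (fr b L (cc i) * α - n (cc i))|
        ≤ |(b : ℝ) * (fr b L (cc i + 1) * α - n (cc i + 1))| + |fr b L (cc i) * α - n (cc i)| := abs_sub _ _
      _ ≤ b * ε + ε := by
          rw [abs_mul, abs_of_pos hb0]
          have := mul_le_mul_of_nonneg_left e2.le hb0.le
          linarith
      _ = _ := by ring
  have hstep : ∀ i, i + 1 ≤ h → (b : ℝ) * |Y i - N i| ≤ |Y (i + 1) - N (i + 1)| := by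
    intro i hi
    obtain ⟨g1, g2, g3, g4⟩ := hcc i (by omega)
    obtain ⟨f1, f2, f3, f4⟩ := hcc (i + 1) hi
    obtain ⟨g, hg⟩ := Nat.exists_eq_add_of_le (show cc i ≤ cc (i + 1) by omega)
    have hg1 : 1 ≤ g := by omega
    have hg2 : g ≤ 2 * K0 := by
      have e1 : (i + 1 + 1) * K0 = i * K0 + 2 * K0 := by ring
      omega
    have hYg : Y (i + 1) = (b : ℝ) ^ g * Y i := by
      rw [hY, hY, hg]; ring
    have h1 := hD i (by omega)
    have h2 := hD (i + 1) hi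
    have hbg : (b : ℝ) ^ g ≤ (b : ℝ) ^ (2 * K0) := pow_le_pow_right₀ (by linarith) hg2
    have h3 : |(b : ℝ) ^ g * (Y i - N i)| < 1 / 2 := by
      rw [abs_mul, abs_of_pos (by positivity)]
      refine lt_of_le_of_lt ?_ hε1
      exact mul_le_mul hbg h1 (abs_nonneg _) (by positivity)
    have h5 : |((N (i + 1) - b ^ g * N i : ℤ) : ℝ)| < 1 := by
      have e : ((N (i + 1) - b ^ g * N i : ℤ) : ℝ) = (b : ℝ) ^ g * (Y i - N i) - (Y (i + 1) - N (i + 1)) := by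
        push_cast; rw [hYg]; ring
      rw [e]
      refine lt_of_le_of_lt (abs_sub _ _) ?_
      linarith
    have h6 : N (i + 1) - b ^ g * N i = 0 := by
      have h7 : |N (i + 1) - b ^ g * N i| < 1 := by exact_mod_cast h5
      exact Int.abs_lt_one_iff.1 h7
    have h7 : Y (i + 1) - N (i + 1) = (b : ℝ) ^ g * (Y i - N i) := by
      have h8 : ((N (i + 1) : ℤ) : ℝ) = (b : ℝ) ^ g * N i := by
        have h9 : N (i + 1) = b ^ g * N i := by linarith
        rw [h9]; push_cast; ring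
      rw [h8, hYg]; ring
    rw [h7, abs_mul, abs_of_pos (by positivity : (0 : ℝ) < (b : ℝ) ^ g)]
    apply mul_le_mul_of_nonneg_right _ (abs_nonneg _)
    calc (b : ℝ) = (b : ℝ) ^ 1 := (pow_one _).symm
      _ ≤ (b : ℝ) ^ g := pow_le_pow_right₀ (by linarith) hg1
  have hpow : ∀ i ≤ h, (b : ℝ) ^ i * |Y 0 - N 0| ≤ |Y i - N i| := by
    intro i
    induction i with
    | zero => intro _; simp
    | succ i ih =>
      intro hi
      have h1 := ih (by omega)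
      have h2 := hstep i hi
      calc (b : ℝ) ^ (i + 1) * |Y 0 - N 0| = b * ((b : ℝ) ^ i * |Y 0 - N 0|) := by ring
        _ ≤ b * |Y i - N i| := mul_le_mul_of_nonneg_left h1 hb0.le
        _ ≤ _ := h2
  have hqb : (q : ℝ) < (b : ℝ) ^ h := by exact_mod_cast ht
  have hD0 : (q : ℝ) * |Y 0 - N 0| < 1 := by
    have h1 := hpow h le_rfl
    have h2 := hD h le_rfl
    have h3 : (q : ℝ) * |Y 0 - N 0| ≤ (b : ℝ) ^ h * |Y 0 - N 0| :=
      mul_le_mul_of_nonneg_right hqb.le (abs_nonneg _)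
    linarith
  have hαq : α * q = a := by rw [← hα]; field_simp
  have hdvd : (q : ℤ) ∣ ((b : ℤ) ^ 2 - 1) * (b : ℤ) ^ (L + cc 0 + 2) * a := by
    have h1 : |((((b : ℤ) ^ 2 - 1) * (b : ℤ) ^ (L + cc 0 + 2) * a - N 0 * q : ℤ) : ℝ)| < 1 := by
      have e : ((((b : ℤ) ^ 2 - 1) * (b : ℤ) ^ (L + cc 0 + 2) * a - N 0 * q : ℤ) : ℝ) = q * (Y 0 - N 0) := by
        push_cast
        rw [hY, ← hαq]
        ring
      rw [e, abs_mul, abs_of_pos hq0]
      exact hD0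
    have h2 : |((b : ℤ) ^ 2 - 1) * (b : ℤ) ^ (L + cc 0 + 2) * a - N 0 * q| < 1 := by exact_mod_cast h1
    have h3 := Int.abs_lt_one_iff.1 h2
    exact ⟨N 0, by linarith⟩
  have hqb' : IsCoprime (q : ℤ) (b : ℤ) := by
    rw [Nat.isCoprime_iff_coprime]
    exact coprime_b hq
  have hqa : IsCoprime (q : ℤ) (a : ℤ) := by
    rw [Nat.isCoprime_iff_coprime]
    exact ha.symm
  have hq2 : IsCoprime (q : ℤ) 2 := by
    have : IsCoprime (q : ℤ) ((2 : ℕ) : ℤ) := by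
      rw [Nat.isCoprime_iff_coprime]
      exact Nat.Coprime.coprime_dvd_right (Dvd.intro _ rfl) hq
    exact_mod_cast this
  have hd1 : (q : ℤ) ∣ (b : ℤ) ^ 2 - 1 := by
    have h1 := hqa.dvd_of_dvd_mul_right hdvd
    exact (hqb'.pow_right (n := L + cc 0 + 2)).dvd_of_dvd_mul_right h1
  obtain ⟨h1, h2, h3, h4⟩ := hcc 0 (by omega)
  obtain ⟨c, hc⟩ : ∃ c, cc 0 = c := ⟨_, rfl⟩
  rw [hc] at h1 h2 h3 h4
  have hle : (0 + 1) * K0 ≤ (h + 1) * K0 := Nat.mul_le_mul_right _ (by omega)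
  have e1 := hcon c h3 (by omega) (by omega)
  have hqle : (q : ℝ) ≤ (b : ℝ) ^ 2 := by
    have h5 : (0 : ℤ) < (b : ℤ) ^ 2 - 1 := by
      have : (2 : ℤ) ≤ b := by exact_mod_cast hb
      nlinarith
    have h6 := Int.le_of_dvd h5 hd1
    have h7 : (q : ℤ) ≤ (b : ℤ) ^ 2 := by linarith
    exact_mod_cast h7
  have hqε : (q : ℝ) * ε < 1 := by
    have h5 : (b : ℝ) ^ 2 * ε < 1 := by
      rw [← hε, hKK, mul_one_div, div_lt_one (by positivity)]
      have h6 : (b : ℝ) ^ (K0 + 2) = (b : ℝ) ^ K0 * (b : ℝ) ^ 2 := by ring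
      have h7 : (1 : ℝ) ≤ (b : ℝ) ^ K0 := one_le_pow₀ (by linarith)
      have h8 : (b : ℝ) ^ 2 ≤ (b : ℝ) ^ (K0 + 2) := by
        rw [h6]
        exact le_mul_of_one_le_left (by positivity) h7
      have h9 : (0 : ℝ) < (b : ℝ) ^ 2 := by positivity
      nlinarith
    have h6 : (q : ℝ) * ε ≤ (b : ℝ) ^ 2 * ε := mul_le_mul_of_nonneg_right hqle hε0.le
    linarith
  have hfd : (q : ℤ) ∣ (fr b L c : ℤ) * a := by
    have h5 : |(((fr b L c : ℤ) * a - n c * q : ℤ) : ℝ)| < 1 := by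
      have e : (((fr b L c : ℤ) * a - n c * q : ℤ) : ℝ) = q * (fr b L c * α - n c) := by
        push_cast
        rw [← hαq]
        ring
      rw [e, abs_mul, abs_of_pos hq0]
      have := mul_lt_mul_of_pos_left e1 hq0
      linarith
    have h6 : |(fr b L c : ℤ) * a - n c * q| < 1 := by exact_mod_cast h5
    have h7 := Int.abs_lt_one_iff.1 h6
    exact ⟨n c, by linarith⟩
  have hf2 : (q : ℤ) ∣ (fr b L c : ℤ) := hqa.dvd_of_dvd_mul_right hfd
  have hcL : c ≤ L := by omega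
  have hfe : (fr b L c : ℤ) = (b : ℤ) ^ (L - c) * (((b : ℤ) ^ 2) ^ (c + 1) - 1) + 2 * (b : ℤ) ^ (L - c) := by
    unfold fr
    push_cast
    have e : L + c + 2 = (L - c) + 2 * (c + 1) := by omega
    rw [e, pow_add, pow_mul]
    ring
  have hd2 : (q : ℤ) ∣ ((b : ℤ) ^ 2) ^ (c + 1) - 1 := by
    refine hd1.trans ?_
    have := sub_dvd_pow_sub_pow ((b : ℤ) ^ 2) 1 (c + 1)
    rwa [one_pow] at this
  have hd3 : (q : ℤ) ∣ 2 * (b : ℤ) ^ (L - c) := by
    rw [hfe] at hf2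
    have := dvd_sub hf2 (Dvd.dvd.mul_left hd2 ((b : ℤ) ^ (L - c)))
    rwa [add_sub_cancel_left] at this
  have hcop : IsCoprime (q : ℤ) (2 * (b : ℤ) ^ (L - c)) := hq2.mul_right hqb'.pow_right
  have hu1 : IsUnit (q : ℤ) := hcop.isUnit_of_dvd' dvd_rfl hd3
  have : (q : ℤ) = 1 ∨ (q : ℤ) = -1 := Int.isUnit_iff.1 hu1
  omega

theorem ptP {b s t K0 : ℕ} (hb : 2 ≤ b) (hs : 2 ≤ s) (hsb : s ≤ b) :
    ∃ κ : ℝ, 0 < κ ∧ κ < 1 ∧ ∀ (q h a L : ℕ) (P : Finset ℕ), 1 < q → q.Coprime (2 * b) → a.Coprime q →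
      q < b ^ h → Adj K0 L P → FP b s t L P ((a : ℝ) / q) ≤ (1 - κ) ^ (L / ((h + 1) * K0)) := by
  classical
  have hB : b ≤ b ^ (K0 + 2) := Nat.le_self_pow (by omega) b
  have hB2 : 2 ≤ b ^ (K0 + 2) := hb.trans hB
  refine ⟨kap (b ^ (K0 + 2)), kap_pos hB2, kap_lt_one hB2, ?_⟩
  intro q h a L P hq1 hq ha hqh hA
  obtain ⟨κ, hκ⟩ : ∃ κ, kap (b ^ (K0 + 2)) = κ := ⟨_, rfl⟩
  have hκ1 : κ < 1 := by rw [← hκ]; exact kap_lt_one hB2
  obtain ⟨W, hW⟩ : ∃ W, (h + 1) * K0 = W := ⟨_, rfl⟩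
  have hkey : ∀ n : ℕ, n * W ≤ L → FP b s t L (P.filter (fun c => c < n * W)) ((a : ℝ) / q) ≤ (1 - κ) ^ n := by
    intro n
    induction n with
    | zero => intro _; simp [FP]
    | succ n ih =>
      intro hn
      have e1 : (n + 1) * W = n * W + W := by ring
      have h1 := ih (by omega)
      obtain ⟨c, hcP, hc1, hc2, hc3⟩ := runP hb q h a L (n * W) P hq1 hq ha hqh hA (by rw [hW]; omega)
      rw [hW] at hc2
      have h2 := Pool.Agent.R471.RD.Pt.ph_le hB2 hs (hsb.trans hB) _ hc3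
      rw [hκ] at h2
      have h3 : insert c (P.filter (fun c => c < n * W)) ⊆ P.filter (fun c => c < (n + 1) * W) := by
        intro x hx
        rw [mem_insert, mem_filter] at hx
        rw [mem_filter]
        rcases hx with rfl | ⟨hx1, hx2⟩
        · exact ⟨hcP, by omega⟩
        · exact ⟨hx1, by omega⟩
      have h4 := FP_mono (b := b) (s := s) (t := t) L h3 ((a : ℝ) / q)
      have h5 : FP b s t L (insert c (P.filter (fun c => c < n * W))) ((a : ℝ) / q) =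
          ps s t (fr b L c * ((a : ℝ) / q)) * FP b s t L (P.filter (fun c => c < n * W)) ((a : ℝ) / q) := by
        unfold FP
        rw [prod_insert]
        rw [mem_filter]
        omega
      rw [h5] at h4
      have h6 : ps s t (fr b L c * ((a : ℝ) / q)) ≤ 1 - κ :=
        (Pool.Agent.R471.RD.Pt.ps_le_left s t _).trans h2
      calc FP b s t L (P.filter (fun c => c < (n + 1) * W)) ((a : ℝ) / q) ≤
          ps s t (fr b L c * ((a : ℝ) / q)) * FP b s t L (P.filter (fun c => c < n * W)) ((a : ℝ) / q) := h4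
        _ ≤ (1 - κ) * (1 - κ) ^ n := mul_le_mul h6 h1 (FP_nonneg _ _ _) (by linarith)
        _ = _ := by ring
  rw [hκ, hW]
  refine le_trans (FP_mono L (filter_subset (fun c => c < L / W * W) P) _) (hkey (L / W) ?_)
  exact Nat.div_mul_le_self _ _

open Pool.Agent.H760R2.PalT7 (dec)

/-- the small range -/
lemma smallP (κ : ℝ) (h0 : 0 < κ) (h1 : κ < 1) (K0 : ℕ) (hK0 : 1 ≤ K0) (A : ℕ) :
    ∃ c1 : ℝ, 0 < c1 ∧ ∀ᶠ L : ℕ in atTop, ∀ j : ℕ, (j : ℝ) ≤ c1 * Real.sqrt L →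
      (2 : ℝ) ^ (3 * j + 2) * (1 - κ) ^ (L / ((j + 2) * K0)) ≤ 1 / (L : ℝ) ^ A := by
  have hK0r : (1 : ℝ) ≤ K0 := by exact_mod_cast hK0
  have hK00 : (0 : ℝ) < K0 := by linarith
  set lam : ℝ := -Real.log (1 - κ) with hlam
  have hlam0 : 0 < lam := by
    have := Real.log_neg (show 0 < 1 - κ by linarith) (by linarith)
    rw [hlam]; linarith
  set c1 : ℝ := min 1 (lam / (8 * K0)) with hc1
  have hc10 : 0 < c1 := lt_min one_pos (by positivity)
  have hc11 : c1 ≤ 1 := min_le_left _ _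
  have hc12 : 8 * K0 * c1 ≤ lam := by
    have h2 : c1 ≤ lam / (8 * K0) := min_le_right _ _
    rw [le_div_iff₀ (by positivity)] at h2
    linarith
  refine ⟨c1, hc10, ?_⟩
  have hsq : Tendsto (fun L : ℕ => Real.sqrt L) atTop atTop :=
    Real.tendsto_sqrt_atTop.comp tendsto_natCast_atTop_atTop
  filter_upwards [dec 1 (Real.exp (2 + lam)) one_pos (Real.exp_pos _).le A,
    hsq.eventually_ge_atTop (4 / c1), eventually_ge_atTop 2] with L hL hx hL2 j hj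
  refine le_trans ?_ hL
  rw [← Real.exp_add]
  set x : ℝ := Real.sqrt L with hxdef
  have hx2 : x ^ 2 = L := Real.sq_sqrt (Nat.cast_nonneg L)
  have hcx : 4 ≤ c1 * x := by
    rw [div_le_iff₀ hc10] at hx
    linarith
  have hx0 : 0 < x := by
    by_contra hcon
    push Not at hcon
    have := mul_nonpos_of_nonneg_of_nonpos hc10.le hcon
    linarith
  set n0 : ℕ := L / ((j + 2) * K0) with hn0
  have e1 : L < ((j + 2) * K0) * (n0 + 1) := Nat.lt_mul_div_succ L (by positivity)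
  have e2 : (L : ℝ) ≤ (((j : ℝ) + 2) * K0) * (n0 + 1) := by exact_mod_cast e1.le
  have e5 : x ^ 2 ≤ (2 * (c1 * x) * K0) * (n0 + 1) := by
    rw [hx2]
    refine e2.trans ?_
    apply mul_le_mul_of_nonneg_right _ (by positivity)
    apply mul_le_mul_of_nonneg_right _ hK00.le
    linarith
  have e6 : x ≤ 2 * c1 * K0 * (n0 + 1) := by
    have h2 : x * x ≤ x * (2 * c1 * K0 * (n0 + 1)) := by
      calc x * x = x ^ 2 := by ring
        _ ≤ _ := e5
        _ = _ := by ring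
    exact le_of_mul_le_mul_left h2 hx0
  have e7 : 4 * x ≤ lam * (n0 + 1) := by
    have h2 : 8 * K0 * c1 * ((n0 : ℝ) + 1) ≤ lam * (n0 + 1) :=
      mul_le_mul_of_nonneg_right hc12 (by positivity)
    linarith
  have e8 : (1 - κ) ^ n0 = Real.exp (-(lam * n0)) := by
    rw [← Real.exp_log (show 0 < 1 - κ by linarith), ← Real.exp_nat_mul]
    congr 1
    rw [hlam]
    ring
  have e9 : (2 : ℝ) ^ (3 * j + 2) ≤ Real.exp (3 * j + 2) := by
    have h2e : (2 : ℝ) ≤ Real.exp 1 := by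
      have := Real.add_one_le_exp (1 : ℝ); linarith
    calc (2 : ℝ) ^ (3 * j + 2) ≤ Real.exp 1 ^ (3 * j + 2) := pow_le_pow_left₀ (by norm_num) h2e _
      _ = Real.exp (3 * j + 2) := by rw [← Real.exp_nat_mul]; push_cast; ring_nf
  rw [e8]
  calc (2 : ℝ) ^ (3 * j + 2) * Real.exp (-(lam * n0))
      ≤ Real.exp (3 * j + 2) * Real.exp (-(lam * n0)) :=
        mul_le_mul_of_nonneg_right e9 (Real.exp_pos _).le
    _ = Real.exp (3 * j + 2 - lam * n0) := by rw [← Real.exp_add]; ring_nf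
    _ ≤ Real.exp (2 + lam + -(1 * x)) := by
        apply Real.exp_le_exp.2
        have h2 : (j : ℝ) ≤ x := by
          refine hj.trans ?_
          calc c1 * x ≤ 1 * x := mul_le_mul_of_nonneg_right hc11 hx0.le
            _ = x := one_mul x
        linarith

end Pool.Agent.U857.PX
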