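import Pool.Agent.U857.PX.A4
/-!
Divisibility by large squares for digits at an arbitrary set of positions.  This is a modification of the starting
file `R471/RD/Shift.lean`.
-/
set_option autoImplicit false

namespace Pool.Agent.U857.PX

open Finset Filter Topology Pool.Agent.Helper112
open Pool.Agent.H39R3.PB (ph ph_nonneg ph_le_one pts)
open Pool.Agent.H39R3.PS (EM)
open Pool.Agent.W89.PW
open Pool.Agent.H623R3.PBT8 (orth group coprime_pos)
open Pool.Agent.W809.PWSqr (EM_sum EM_mono HH_le_one Gf_nonneg)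


lemma cntP_le {s t : ℕ} (hs : 0 < s) (ht : 0 < t) (b L : ℕ) (P : Finset ℕ) (hP : P ⊆ range L) (M h : ℕ) (hM : 0 < M) :
    cntP b s t L P M h ≤ ((s : ℝ) * t) ^ L * EM M (FP b s t L P) := by
  classical
  have hM1 : (0 : ℝ) < M := by exact_mod_cast hM
  have h1 : ((M * cntP b s t L P M h : ℝ) : ℂ) =
      ∑ a ∈ range M, ∑ m : Fin L → Fin s × Fin t, ee ((a : ℝ) * (((vP b s t L P m : ℝ) - h) / M)) := by
    rw [Finset.sum_comm, Finset.sum_congr rfl fun m _ => orth hM (vP b s t L P m) h, ← Finset.sum_filter,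
      Finset.sum_const, nsmul_eq_mul]
    unfold cntP
    push_cast
    ring
  have h2 : (M : ℝ) * cntP b s t L P M h ≤ ∑ a ∈ range M, ((s : ℝ) * t) ^ L * FP b s t L P ((a : ℝ) / M) := by
    have h3 : (0 : ℝ) ≤ M * cntP b s t L P M h := by
      unfold cntP
      positivity
    have h4 : ‖((M * cntP b s t L P M h : ℝ) : ℂ)‖ = M * cntP b s t L P M h := by
      rw [Complex.norm_real, Real.norm_of_nonneg h3]
    rw [← h4, h1]
    refine (norm_sum_le _ _).trans (le_of_eq ?_)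
    refine Finset.sum_congr rfl fun a _ => ?_
    have e : ∀ m : Fin L → Fin s × Fin t, ee ((a : ℝ) * (((vP b s t L P m : ℝ) - h) / M)) =
        ee (-((a : ℝ) / M * h)) * ee ((a : ℝ) / M * (vP b s t L P m : ℝ)) := by
      intro m
      rw [← ls_ee_add]
      congr 1
      ring
    rw [sum_congr rfl fun m _ => e m, ← mul_sum, norm_mul, ls_norm_ee, one_mul, norm_sum_vP hs ht b L P hP]
  unfold EM
  rw [← Finset.mul_sum] at h2
  rw [← mul_div_assoc, le_div_iff₀ hM1]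
  linarith

/-- one dyadic block of squares -/
theorem sq_blockP (f : ℕ → ℕ) {b s t : ℕ} (hb : 2 ≤ b) (hs : 1 ≤ s) (ht : 1 ≤ t)
    {H CH : ℝ} (hLO : LOne b s t H CH) {μ n : ℕ} (hμ : μ * (s + t - 2) ≤ b * (b - 1)) (hn : n + 1 = 2 * μ)
    (L k K J R : ℕ) (P : Finset ℕ) (hPL : P ⊆ range L) (T lam X : ℝ) (h0 : 0 < lam)
    (hT : ∀ n : ℕ, 1 ≤ n → n ≤ b ^ (2 * L + 2) → (n.divisors.card : ℝ) ≤ T)
    (hX : ∀ i, CH * H ^ (P.filter (fun c => ¬ (c < J ∧ c / K = i))).card ≤ X)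
    (hJk : J ≤ k * K) (hJL : J ≤ L) (h2 : b ^ (J + 1) ≤ R) (h3 : R ≤ b ^ (J + 2)) :
    ∑ m ∈ (Ico R (2 * R)).filter (fun m => m.Coprime (2 * b)), cntP b s t L P (m ^ 2) (f (m ^ 2)) ≤
      ((s : ℝ) * t) ^ L * (k * lam * (R * X + T) +
        b ^ 2 * ((b : ℝ) ^ J * M2 s t μ ^ (P.filter (fun c => c < J)).card) / lam ^ (n * k)) := by
  have hR1 : 1 ≤ R := (Nat.one_le_pow _ _ (by omega)).trans h2
  obtain ⟨S, hS⟩ : ∃ S, (Ico R (2 * R)).filter (fun m => m.Coprime (2 * b)) = S := ⟨_, rfl⟩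
  rw [hS]
  have hmem : ∀ m ∈ S, R ≤ m ∧ m < 2 * R ∧ m.Coprime (2 * b) := by
    intro m hm
    rw [← hS, mem_filter, mem_Ico] at hm
    exact ⟨hm.1.1, hm.1.2, hm.2⟩
  have hW := M2_nonneg s t μ
  -- the moment part
  have hPJ : P.filter (fun c => c < J) ⊆ range J := by
    intro c hc
    rw [mem_range]
    exact (mem_filter.1 hc).2
  have hA : ∀ m ∈ S, EM (m ^ 2) (fun x => FP b s t L (P.filter (fun c => c < J)) x ^ (n + 1)) ≤
      M2 s t μ ^ (P.filter (fun c => c < J)).card := by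
    intro m hm
    obtain ⟨g1, _, g3⟩ := hmem m hm
    rw [hn]
    exact sqP hb hs ht hμ _ hPJ hJL (by
      calc b ^ (2 * J + 2) = (b ^ (J + 1)) ^ 2 := by rw [← pow_mul]; congr 1; ring
        _ ≤ m ^ 2 := Nat.pow_le_pow_left (h2.trans g1) 2)
      ((Nat.Coprime.coprime_dvd_right (Dvd.intro_left 2 rfl) g3).pow_left 2)
  have hcard : (S.card : ℝ) ≤ (b : ℝ) ^ (J + 2) := by
    have : S.card ≤ b ^ (J + 2) := by
      rw [← hS]
      refine (card_filter_le _ _).trans ?_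
      rw [Nat.card_Ico]; omega
    exact_mod_cast this
  -- the majorant part
  have hG' : ∀ i, ∑ m ∈ S, EM (m ^ 2) (FP b s t L (P.filter (fun c => ¬ (c < J ∧ c / K = i)))) ≤ R * X + T := by
    intro i
    have e1 := hLO.sq L R T (P.filter (fun c => ¬ (c < J ∧ c / K = i))) ((filter_subset _ _).trans hPL) hR1 hT
    rw [hS] at e1
    refine e1.trans ?_
    have e4 : (0 : ℝ) ≤ R := Nat.cast_nonneg _
    have := mul_le_mul_of_nonneg_left (hX i) e4
    linarith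
  calc ∑ m ∈ S, cntP b s t L P (m ^ 2) (f (m ^ 2)) ≤ ∑ m ∈ S, ((s : ℝ) * t) ^ L * ((∑ i ∈ range k, lam * EM (m ^ 2)
        (FP b s t L (P.filter (fun c => ¬ (c < J ∧ c / K = i))))) +
        (lam ^ (n * k))⁻¹ * EM (m ^ 2) (fun x => FP b s t L (P.filter (fun c => c < J)) x ^ (n + 1))) := by
        refine sum_le_sum fun m hm => ?_
        obtain ⟨g1, _, g3⟩ := hmem m hm
        refine (cntP_le hs ht b L P hPL (m ^ 2) (f (m ^ 2)) (pow_pos (by omega) 2)).trans ?_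
        refine mul_le_mul_of_nonneg_left ?_ (by positivity)
        rw [← EM_sum]
        exact EM_mono _ _ _ fun x => splitP L J k K n P lam h0 hJk x
    _ = ((s : ℝ) * t) ^ L * ((∑ i ∈ range k, lam * ∑ m ∈ S, EM (m ^ 2)
        (FP b s t L (P.filter (fun c => ¬ (c < J ∧ c / K = i))))) +
        (lam ^ (n * k))⁻¹ * ∑ m ∈ S, EM (m ^ 2) (fun x => FP b s t L (P.filter (fun c => c < J)) x ^ (n + 1))) := by
        rw [← mul_sum, sum_add_distrib, sum_comm, ← mul_sum]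
        simp only [mul_sum]
    _ ≤ ((s : ℝ) * t) ^ L * ((∑ i ∈ range k, lam * (R * X + T)) +
        (lam ^ (n * k))⁻¹ * (b ^ 2 * ((b : ℝ) ^ J * M2 s t μ ^ (P.filter (fun c => c < J)).card))) := by
        refine mul_le_mul_of_nonneg_left ?_ (by positivity)
        refine add_le_add ?_ ?_
        · exact sum_le_sum fun i _ => mul_le_mul_of_nonneg_left (hG' i) h0.le
        · refine mul_le_mul_of_nonneg_left ?_ (by positivity)
          refine (sum_le_sum hA).trans ?_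
          rw [sum_const, nsmul_eq_mul]
          calc (S.card : ℝ) * M2 s t μ ^ (P.filter (fun c => c < J)).card ≤
                (b : ℝ) ^ (J + 2) * M2 s t μ ^ (P.filter (fun c => c < J)).card :=
                mul_le_mul_of_nonneg_right hcard (by positivity)
            _ = _ := by rw [pow_add]; ring
    _ = _ := by
        rw [sum_const, card_range, nsmul_eq_mul]
        congr 1
        rw [div_eq_mul_inv, mul_assoc]
        ring

/-- covering by dyadic blocks -/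
lemma coverP (f : ℕ → ℕ) (b s t : ℕ) (L : ℕ) (P : Finset ℕ) (E : Finset ℕ) (Z : ℝ) (hZ : ∀ e ∈ E,
    ∑ m ∈ (Ico (2 ^ e) (2 * 2 ^ e)).filter (fun m => m.Coprime (2 * b)), cntP b s t L P (m ^ 2) (f (m ^ 2)) ≤ Z)
    (Q : (Fin L → Fin s × Fin t) → Prop) [DecidablePred Q]
    (hQ : ∀ m, Q m → ∃ e ∈ E, ∃ p : ℕ, 2 ^ e ≤ p ∧ p < 2 * 2 ^ e ∧ p.Coprime (2 * b) ∧
      vP b s t L P m ≡ f (p ^ 2) [MOD p ^ 2]) :
    (((univ : Finset (Fin L → Fin s × Fin t)).filter Q).card : ℝ) ≤ E.card * Z := by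
  classical
  have hsub : (univ : Finset (Fin L → Fin s × Fin t)).filter Q ⊆
      E.biUnion fun e => ((Ico (2 ^ e) (2 * 2 ^ e)).filter (fun m => m.Coprime (2 * b))).biUnion
        fun p => (univ : Finset (Fin L → Fin s × Fin t)).filter (fun m => vP b s t L P m ≡ f (p ^ 2) [MOD p ^ 2]) := by
    intro m hm
    obtain ⟨e, he, p, h1, h2, h3, h4⟩ := hQ m (Finset.mem_filter.1 hm).2
    rw [Finset.mem_biUnion]
    refine ⟨e, he, ?_⟩
    rw [Finset.mem_biUnion]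
    refine ⟨p, ?_, ?_⟩
    · rw [Finset.mem_filter, Finset.mem_Ico]; exact ⟨⟨h1, h2⟩, h3⟩
    · rw [Finset.mem_filter]
      exact ⟨Finset.mem_univ _, h4⟩
  have h1 : (((univ : Finset (Fin L → Fin s × Fin t)).filter Q).card : ℝ) ≤
      ∑ e ∈ E, ∑ p ∈ (Ico (2 ^ e) (2 * 2 ^ e)).filter (fun m => m.Coprime (2 * b)),
        cntP b s t L P (p ^ 2) (f (p ^ 2)) := by
    have h2 : ((univ : Finset (Fin L → Fin s × Fin t)).filter Q).card ≤
        ∑ e ∈ E, ∑ p ∈ (Ico (2 ^ e) (2 * 2 ^ e)).filter (fun m => m.Coprime (2 * b)),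
          ((univ : Finset (Fin L → Fin s × Fin t)).filter (fun m => vP b s t L P m ≡ f (p ^ 2) [MOD p ^ 2])).card := by
      refine (Finset.card_le_card hsub).trans (Finset.card_biUnion_le.trans ?_)
      exact Finset.sum_le_sum fun e _ => Finset.card_biUnion_le
    have h3 : (((univ : Finset (Fin L → Fin s × Fin t)).filter Q).card : ℝ) ≤
        ((∑ e ∈ E, ∑ p ∈ (Ico (2 ^ e) (2 * 2 ^ e)).filter (fun m => m.Coprime (2 * b)),
          ((univ : Finset (Fin L → Fin s × Fin t)).filter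
            (fun m => vP b s t L P m ≡ f (p ^ 2) [MOD p ^ 2])).card : ℕ) : ℝ) := by
      exact_mod_cast h2
    refine h3.trans (le_of_eq ?_)
    push_cast
    refine Finset.sum_congr rfl fun e _ => Finset.sum_congr rfl fun p _ => ?_
    unfold cntP
    congr!
  refine h1.trans ((Finset.sum_le_sum hZ).trans (le_of_eq ?_))
  rw [Finset.sum_const, nsmul_eq_mul]

/-- one block with the choice of parameters -/
lemma sq_choiceP (f : ℕ → ℕ) {b s t : ℕ} (hb : 2 ≤ b) (hs : 1 ≤ s) (ht : 1 ≤ t)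
    {H CH : ℝ} (hLO : LOne b s t H CH) {μ : ℕ} (hμ1 : 1 ≤ μ) (hμ : μ * (s + t - 2) ≤ b * (b - 1)) {δ : ℝ} (hδ : δ < 1)
    {C1 : ℝ}
    {a κ : ℝ} (ha0 : 0 < a) (ha1 : a < 1) (ha : (b : ℝ) * M2 s t μ ^ (1 - δ) ≤ a)
    (k : ℕ) (hk : 1 ≤ k) (hκk : (b : ℝ) ^ κ * H ^ (1 - δ) * H ^ (-(1 / (k : ℝ))) ≤ 1)
    (L J R : ℕ) (P : Finset ℕ) (hP : Dens δ C1 L P) (T : ℝ)
    (hT : ∀ n : ℕ, 1 ≤ n → n ≤ b ^ (2 * L + 2) → (n.divisors.card : ℝ) ≤ T)
    (hJL : J ≤ L) (hR : (R : ℝ) ≤ (b : ℝ) ^ (κ * L)) (h2 : b ^ (J + 1) ≤ R) (h3 : R ≤ b ^ (J + 2)) :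
    ∑ m ∈ (Ico R (2 * R)).filter (fun m => m.Coprime (2 * b)), cntP b s t L P (m ^ 2) (f (m ^ 2)) ≤
      (k * (1 + CH * H ^ (-(C1 + 1))) + b ^ 2 * M2 s t μ ^ (-C1)) * ((s : ℝ) * t) ^ L * T * a ^ (J / (6 * μ * k)) := by
  obtain ⟨hPL, hPd⟩ := hP
  have hb0 : (0 : ℝ) < b := by exact_mod_cast (show 0 < b by omega)
  have hT1 : 1 ≤ T := by
    have := hT 1 le_rfl (Nat.one_le_pow _ _ (by omega))
    simpa using this
  have hh := hLO.H0
  have hh1 := hLO.H1.le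
  have hC0 := hLO.C0
  have hkr : (0 : ℝ) < k := by exact_mod_cast hk
  have hW0 := M2_pos hs ht μ
  obtain ⟨W, hW⟩ : ∃ W, M2 s t μ = W := ⟨_, rfl⟩
  have hW1 : W ≤ 1 := by
    by_contra hcon
    push Not at hcon
    have h4 : 1 ≤ W ^ (1 - δ) := Real.one_le_rpow hcon.le (by linarith)
    have h5 : (b : ℝ) * 1 ≤ b * W ^ (1 - δ) := mul_le_mul_of_nonneg_left h4 hb0.le
    rw [hW] at ha
    have h6 : (2 : ℝ) ≤ b := by exact_mod_cast hb
    linarith
  obtain ⟨n, hn⟩ : ∃ n, n + 1 = 2 * μ := ⟨2 * μ - 1, by omega⟩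
  obtain ⟨lam, hlam⟩ : ∃ lam : ℝ, a ^ (J / (6 * μ * k)) = lam := ⟨_, rfl⟩
  have hl0 : 0 < lam := by rw [← hlam]; positivity
  obtain ⟨X', hX'⟩ : ∃ X' : ℝ, H ^ ((1 - δ) * L - C1 - (L / k + 1)) = X' := ⟨_, rfl⟩
  obtain ⟨X, hX⟩ : ∃ X : ℝ, CH * X' = X := ⟨_, rfl⟩
  have hK1 : 0 < J / k + 1 := by positivity
  have hXi : ∀ i, CH * H ^ (P.filter (fun c => ¬ (c < J ∧ c / (J / k + 1) = i))).card ≤ X := by
    intro i
    rw [← hX]
    apply mul_le_mul_of_nonneg_left _ hC0.le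
    have e0 := card_blockP P J (J / k + 1) i hK1
    have e00 : (P.card : ℝ) ≤ ((P.filter (fun c => ¬ (c < J ∧ c / (J / k + 1) = i))).card : ℝ) + ((J / k + 1 : ℕ) : ℝ) := by
      exact_mod_cast e0
    have e1 := hPd L le_rfl
    have e2 : P.filter (fun c => c < L) = P := filter_true_of_mem fun c hc => mem_range.1 (hPL hc)
    rw [e2] at e1
    have e4 : ((J / k : ℕ) : ℝ) ≤ (J : ℝ) / k := Nat.cast_div_le
    have e5 : (J : ℝ) / k ≤ (L : ℝ) / k := by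
      apply div_le_div_of_nonneg_right _ hkr.le
      exact_mod_cast hJL
    push_cast at e00
    rw [← hX', ← Real.rpow_natCast]
    apply Real.rpow_le_rpow_of_exponent_ge hh hh1
    linarith
  have h5 := sq_blockP f hb hs ht hLO hμ hn L k (J / k + 1) J R P hPL T lam X hl0 hT hXi
    (by
      have := Nat.lt_mul_div_succ J (show 0 < k by omega)
      rw [← Nat.succ_eq_add_one]; exact this.le) hJL h2 h3
  rw [hlam]
  refine h5.trans ?_
  rw [hW] at hW0 ha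
  rw [hW]
  have hWn : (b : ℝ) ^ J * W ^ (P.filter (fun c => c < J)).card ≤ W ^ (-C1) * a ^ J := by
    have g1 : W ^ (P.filter (fun c => c < J)).card ≤ W ^ ((1 - δ) * J - C1) := by
      rw [← Real.rpow_natCast]
      exact Real.rpow_le_rpow_of_exponent_ge hW0 hW1 (hPd J hJL)
    have g2 : W ^ ((1 - δ) * J - C1) = (W ^ (1 - δ)) ^ J * W ^ (-C1) := by
      rw [← Real.rpow_natCast (W ^ (1 - δ)) J, ← Real.rpow_mul hW0.le, ← Real.rpow_add hW0]
      congr 1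
    rw [g2] at g1
    calc (b : ℝ) ^ J * W ^ (P.filter (fun c => c < J)).card ≤ (b : ℝ) ^ J * ((W ^ (1 - δ)) ^ J * W ^ (-C1)) := by
          gcongr
      _ = W ^ (-C1) * (b * W ^ (1 - δ)) ^ J := by rw [mul_pow]; ring
      _ ≤ _ := by
          apply mul_le_mul_of_nonneg_left _ (by positivity)
          exact pow_le_pow_left₀ (by positivity) ha J
  have h6 : (b : ℝ) ^ 2 * ((b : ℝ) ^ J * W ^ (P.filter (fun c => c < J)).card) / lam ^ (n * k) ≤
      b ^ 2 * W ^ (-C1) * lam := by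
    rw [div_le_iff₀ (by positivity), mul_assoc, ← pow_succ', ← hlam, ← pow_mul]
    have g3 : a ^ J ≤ a ^ (J / (6 * μ * k) * (n * k + 1)) := by
      apply pow_le_pow_of_le_one ha0.le ha1.le
      have e1 : J / (6 * μ * k) * (6 * μ * k) ≤ J := Nat.div_mul_le_self _ _
      have e2 : n * k + 1 ≤ 6 * μ * k := by
        have e3 : 1 ≤ μ * k := Nat.mul_pos hμ1 hk
        have e4 : n * k + k = 2 * μ * k := by rw [← hn]; ring
        have e5 : 2 * μ * k = 2 * (μ * k) := by ring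
        have e6 : 6 * μ * k = 6 * (μ * k) := by ring
        omega
      calc J / (6 * μ * k) * (n * k + 1) ≤ J / (6 * μ * k) * (6 * μ * k) := Nat.mul_le_mul_left _ e2
        _ ≤ J := e1
    calc (b : ℝ) ^ 2 * ((b : ℝ) ^ J * W ^ (P.filter (fun c => c < J)).card) ≤ (b : ℝ) ^ 2 * (W ^ (-C1) * a ^ J) := by
          gcongr
      _ ≤ (b : ℝ) ^ 2 * (W ^ (-C1) * a ^ (J / (6 * μ * k) * (n * k + 1))) := by gcongr
      _ = _ := by ring
  have h7' : (R : ℝ) * X' ≤ H ^ (-(C1 + 1)) := by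
    have e2 : X' = (H ^ (1 - δ) * H ^ (-(1 / (k : ℝ)))) ^ (L : ℝ) * H ^ (-(C1 + 1)) := by
      rw [← hX', ← Real.rpow_add hh, ← Real.rpow_mul hh.le, ← Real.rpow_add hh]
      congr 1
      ring
    calc (R : ℝ) * X' ≤ (b : ℝ) ^ (κ * L) * ((H ^ (1 - δ) * H ^ (-(1 / (k : ℝ)))) ^ (L : ℝ) * H ^ (-(C1 + 1))) := by
          rw [← e2]
          exact mul_le_mul_of_nonneg_right hR (by rw [← hX']; positivity)
      _ = ((b : ℝ) ^ κ * H ^ (1 - δ) * H ^ (-(1 / (k : ℝ)))) ^ (L : ℝ) * H ^ (-(C1 + 1)) := by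
          rw [Real.rpow_mul hb0.le, mul_assoc ((b : ℝ) ^ κ),
            Real.mul_rpow (Real.rpow_nonneg hb0.le _) (mul_nonneg (Real.rpow_nonneg hh.le _) (Real.rpow_nonneg hh.le _))]
          ring
      _ ≤ 1 * H ^ (-(C1 + 1)) := by
          apply mul_le_mul_of_nonneg_right _ (by positivity)
          exact Real.rpow_le_one (by positivity) hκk (Nat.cast_nonneg _)
      _ = _ := one_mul _
  have h7 : (R : ℝ) * X ≤ CH * H ^ (-(C1 + 1)) := by
    rw [← hX]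
    calc (R : ℝ) * (CH * X') = CH * (R * X') := by ring
      _ ≤ _ := mul_le_mul_of_nonneg_left h7' hC0.le
  have hh2 : 0 ≤ CH * H ^ (-(C1 + 1)) := by positivity
  have h8 : (k : ℝ) * lam * (R * X + T) ≤ k * lam * ((1 + CH * H ^ (-(C1 + 1))) * T) := by
    apply mul_le_mul_of_nonneg_left _ (by positivity)
    have e1 : CH * H ^ (-(C1 + 1)) * 1 ≤ CH * H ^ (-(C1 + 1)) * T := mul_le_mul_of_nonneg_left hT1 hh2
    linarith
  have h9 : (b : ℝ) ^ 2 * ((b : ℝ) ^ J * W ^ (P.filter (fun c => c < J)).card) / lam ^ (n * k) ≤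
      b ^ 2 * W ^ (-C1) * lam * T := by
    refine h6.trans ?_
    exact le_mul_of_one_le_right (by positivity) hT1
  calc ((s : ℝ) * t) ^ L * (k * lam * (R * X + T) +
        b ^ 2 * ((b : ℝ) ^ J * W ^ (P.filter (fun c => c < J)).card) / lam ^ (n * k))
      ≤ ((s : ℝ) * t) ^ L * (k * lam * ((1 + CH * H ^ (-(C1 + 1))) * T) + b ^ 2 * W ^ (-C1) * lam * T) :=
        mul_le_mul_of_nonneg_left (add_le_add h8 h9) (by positivity)
    _ = _ := by ring

open Classical in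
theorem SqP {b s t : ℕ} (hb : 2 ≤ b) (hs : 1 ≤ s) (ht : 1 ≤ t) {H CH : ℝ} (hLO : LOne b s t H CH)
    {μ : ℕ} (hμ1 : 1 ≤ μ) (hμ : μ * (s + t - 2) ≤ b * (b - 1)) {δ : ℝ} (hδ : δ < 1) {C1 : ℝ}
    (hm : (b : ℝ) * M2 s t μ ^ (1 - δ) < 1) {κ : ℝ} (hκ1 : κ < 1)
    (hκ : (b : ℝ) ^ κ * H ^ (1 - δ) < 1) {η : ℝ} (hη : 0 < η) (A : ℕ) :
    ∀ᶠ L : ℕ in atTop, ∀ P : Finset ℕ, Dens δ C1 L P → ∀ f : ℕ → ℕ,
    (((univ : Finset (Fin L → Fin s × Fin t)).filter (fun m => ∃ p : ℕ, p.Coprime (2 * b) ∧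
      (b : ℝ) ^ (η * L) ≤ p ∧ (p : ℝ) ≤ (b : ℝ) ^ (κ * L) ∧ vP b s t L P m ≡ f (p ^ 2) [MOD p ^ 2])).card : ℝ)
      ≤ ((s : ℝ) * t) ^ L / (L : ℝ) ^ A := by
  have hbR : (2 : ℝ) ≤ b := by exact_mod_cast hb
  have hb1 : (1 : ℝ) < b := by linarith
  have hb0 : (0 : ℝ) < b := by linarith
  have hst0 : (0 : ℝ) < (s : ℝ) * t := by
    have h1 : (0 : ℝ) < s := by exact_mod_cast hs
    have h2 : (0 : ℝ) < t := by exact_mod_cast ht
    positivity
  have hh := hLO.H0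
  have hCH0 := hLO.C0
  have hW0 := M2_pos hs ht μ
  obtain ⟨a, ha⟩ : ∃ a : ℝ, max ((b : ℝ) * M2 s t μ ^ (1 - δ)) (1 / 2) = a := ⟨_, rfl⟩
  have ha0 : 0 < a := by rw [← ha]; exact lt_of_lt_of_le (by norm_num) (le_max_right _ _)
  have ha1 : a < 1 := by rw [← ha]; exact max_lt hm (by norm_num)
  have ham : (b : ℝ) * M2 s t μ ^ (1 - δ) ≤ a := by rw [← ha]; exact le_max_left _ _
  -- the number of blocks
  obtain ⟨k, hk, hkκ⟩ : ∃ k : ℕ, 1 ≤ k ∧
      (b : ℝ) ^ κ * H ^ (1 - δ) * H ^ (-(1 / (k : ℝ))) ≤ 1 := by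
    have hlim : Tendsto (fun k : ℕ => (b : ℝ) ^ κ * H ^ (1 - δ) * H ^ (-(1 / (k : ℝ)))) atTop
        (𝓝 ((b : ℝ) ^ κ * H ^ (1 - δ) * H ^ (-(0 : ℝ)))) := by
      apply Tendsto.const_mul
      apply Tendsto.rpow tendsto_const_nhds _ (Or.inl hh.ne')
      exact tendsto_one_div_atTop_nhds_zero_nat.neg
    rw [neg_zero, Real.rpow_zero, mul_one] at hlim
    obtain ⟨k, h1, h2⟩ := ((hlim.eventually (gt_mem_nhds hκ)).and (eventually_ge_atTop 1)).exists
    exact ⟨k, h2, h1.le⟩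
  have hkr : (1 : ℝ) ≤ k := by exact_mod_cast hk
  have hkr0 : (0 : ℝ) < k := by linarith
  obtain ⟨D, hD⟩ : ∃ D : ℕ, 6 * μ * k = D := ⟨_, rfl⟩
  have hD6 : 6 ≤ D := by
    have : 1 ≤ μ * k := Nat.mul_pos hμ1 hk
    have e : 6 * μ * k = 6 * (μ * k) := by ring
    omega
  have hDr : (6 : ℝ) ≤ D := by exact_mod_cast hD6
  have hD0 : (0 : ℝ) < D := by linarith
  obtain ⟨ρ, hρ⟩ : ∃ ρ : ℝ, a ^ (η / (2 * D)) = ρ := ⟨_, rfl⟩
  have hρ0 : 0 < ρ := by rw [← hρ]; positivity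
  have hρ1 : ρ < 1 := by
    rw [← hρ]
    exact Real.rpow_lt_one ha0.le ha1 (by positivity)
  obtain ⟨δ', hδ'⟩ : ∃ δ' : ℝ, Real.logb b (ρ⁻¹) / 2 = δ' := ⟨_, rfl⟩
  have hδ0 : 0 < δ' := by
    rw [← hδ']
    have := Real.logb_pos (b := b) hb1 ((one_lt_inv₀ hρ0).2 hρ1)
    linarith
  have h10 : (b : ℝ) ^ (2 * δ') = ρ⁻¹ := by
    rw [← hδ', mul_div_cancel₀ _ (two_ne_zero)]
    exact Real.rpow_logb hb0 hb1.ne' (inv_pos.2 hρ0)
  obtain ⟨C, hC0, hC⟩ := divisor_bound δ' hδ0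
  obtain ⟨C2, hC2⟩ : ∃ C2 : ℝ, (k * (1 + CH * H ^ (-(C1 + 1))) + (b : ℝ) ^ 2 * M2 s t μ ^ (-C1)) = C2 := ⟨_, rfl⟩
  have hC20 : 0 < C2 := by rw [← hC2]; positivity
  obtain ⟨C3, hC3⟩ : ∃ C3 : ℝ, (b : ℝ) * C2 * C * ρ⁻¹ * (a ^ 2)⁻¹ = C3 := ⟨_, rfl⟩
  have hK0 : (0 : ℝ) < C3 := by rw [← hC3]; positivity
  have hlim := tendsto_pow_const_mul_const_pow_of_abs_lt_one (A + 1) (r := ρ)
    (by rw [abs_of_pos hρ0]; exact hρ1)
  have hev : ∀ᶠ L : ℕ in atTop, (L : ℝ) ^ (A + 1) * ρ ^ L < C3⁻¹ :=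
    hlim.eventually (gt_mem_nhds (inv_pos.2 hK0))
  obtain ⟨L0, hL0'⟩ := exists_nat_gt (4 / η)
  filter_upwards [hev, eventually_ge_atTop (max L0 1)] with L hL1 hL2 P hP f
  have hL2a : L0 ≤ L := (le_max_left _ _).trans hL2
  have hL2b : 1 ≤ L := (le_max_right _ _).trans hL2
  have hL0 : (0 : ℝ) < L := by exact_mod_cast hL2b
  have hηL : 4 < η * L := by
    have e1 : (4 / η : ℝ) < L := lt_of_lt_of_le hL0' (by exact_mod_cast hL2a)
    rw [div_lt_iff₀ hη] at e1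
    linarith
  obtain ⟨T, hTdef⟩ : ∃ T : ℝ, C * ((b : ℝ) ^ (2 * L + 2)) ^ δ' = T := ⟨_, rfl⟩
  have hT : ∀ n : ℕ, 1 ≤ n → n ≤ b ^ (2 * L + 2) → (n.divisors.card : ℝ) ≤ T := by
    intro n h1 h2
    refine (hC n h1).trans ?_
    rw [← hTdef]
    refine mul_le_mul_of_nonneg_left ?_ hC0.le
    refine Real.rpow_le_rpow (Nat.cast_nonneg _) ?_ hδ0.le
    exact_mod_cast h2
  have hTval : T = C * ρ⁻¹ * (ρ⁻¹) ^ L := by
    rw [← hTdef, ← h10, ← Real.rpow_natCast, ← Real.rpow_natCast, ← Real.rpow_mul hb0.le,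
      ← Real.rpow_mul hb0.le, mul_assoc C, ← Real.rpow_add hb0]
    congr 2
    push_cast
    ring
  have hT0 : 0 ≤ T := by rw [hTval]; positivity
  have hlamk : ∀ J : ℕ, η * L ≤ J + 3 → a ^ (J / D) ≤ (ρ ^ L) ^ 2 * (a ^ 2)⁻¹ := by
    intro J hJ
    have e0 : η * L / D - 2 ≤ ((J / D : ℕ) : ℝ) := by
      have h1 : J ≤ D * (J / D) + D := by
        have := Nat.lt_mul_div_succ J (show 0 < D by omega)
        rw [mul_add, mul_one] at this
        omega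
      have h2 : (J : ℝ) ≤ D * ((J / D : ℕ) : ℝ) + D := by exact_mod_cast h1
      rw [sub_le_iff_le_add, div_le_iff₀ (by positivity)]
      linarith
    have e1 : a ^ (J / D) ≤ a ^ (η * L / D - 2) := by
      rw [← Real.rpow_natCast]
      exact Real.rpow_le_rpow_of_exponent_ge ha0 ha1.le e0
    refine e1.trans (le_of_eq ?_)
    rw [← hρ, ← pow_mul, ← Real.rpow_natCast, ← Real.rpow_mul ha0.le,
      Real.rpow_sub ha0, div_eq_mul_inv]
    congr 1
    · congr 1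
      push_cast
      field_simp
    · congr 1
      exact_mod_cast Real.rpow_natCast a 2
  -- dyadic blocks
  let E : Finset ℕ := (range (b * L)).filter fun e =>
    ∃ J : ℕ, J ≤ L ∧ η * L ≤ (J : ℝ) + 3 ∧ b ^ (J + 1) ≤ 2 ^ e ∧ 2 ^ e ≤ b ^ (J + 2) ∧
      (((2 ^ e : ℕ) : ℝ)) ≤ (b : ℝ) ^ (κ * L)
  have hE : ∀ e ∈ E,
      ∑ m ∈ (Ico (2 ^ e) (2 * 2 ^ e)).filter (fun m => m.Coprime (2 * b)), cntP b s t L P (m ^ 2) (f (m ^ 2)) ≤
        C2 * ((s : ℝ) * t) ^ L * T * ((ρ ^ L) ^ 2 * (a ^ 2)⁻¹) := by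
    intro e he
    obtain ⟨_, J, h1, h2, h3, h5, h6⟩ := Finset.mem_filter.1 he
    have h7 := sq_choiceP f hb hs ht hLO hμ1 hμ hδ ha0 ha1 ham k hk hkκ L J (2 ^ e) P hP T hT h1 h6 h3 h5
    rw [hC2, hD] at h7
    exact h7.trans (mul_le_mul_of_nonneg_left (hlamk _ h2) (by positivity))
  have hcov := coverP f b s t L P E _ hE (fun m => ∃ p : ℕ, p.Coprime (2 * b) ∧
      (b : ℝ) ^ (η * L) ≤ p ∧ (p : ℝ) ≤ (b : ℝ) ^ (κ * L) ∧ vP b s t L P m ≡ f (p ^ 2) [MOD p ^ 2]) (by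
    rintro m ⟨p, hp1, hp2, hp3, hp4⟩
    have hp0 : p ≠ 0 := by
      rintro rfl
      have : (0 : ℝ) < (b : ℝ) ^ (η * L) := by positivity
      rw [Nat.cast_zero] at hp2
      linarith
    have hlow : 2 ^ Nat.log 2 p ≤ p := Nat.pow_log_le_self 2 hp0
    have hupp : p < 2 * 2 ^ Nat.log 2 p := by
      have := Nat.lt_pow_succ_log_self (b := 2) (by norm_num) p
      rwa [pow_succ'] at this
    obtain ⟨J, hJ⟩ : ∃ J, Nat.log b (2 ^ Nat.log 2 p) = J := ⟨_, rfl⟩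
    have hJ1 : b ^ J ≤ 2 ^ Nat.log 2 p := by
      rw [← hJ]; exact Nat.pow_log_le_self b (by positivity)
    have hJ2 : 2 ^ Nat.log 2 p < b ^ (J + 1) := by
      rw [← hJ]; exact Nat.lt_pow_succ_log_self (b := b) (by omega) _
    have hJup : (J : ℝ) ≤ κ * L := by
      have h1 : (b : ℝ) ^ (J : ℝ) ≤ (b : ℝ) ^ (κ * L) := by
        rw [Real.rpow_natCast]
        refine le_trans ?_ hp3
        exact_mod_cast hJ1.trans hlow
      exact (Real.rpow_le_rpow_left_iff hb1).1 h1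
    have hJlow : η * L ≤ J + 2 := by
      have h1 : (b : ℝ) ^ (η * L) ≤ (b : ℝ) ^ ((J : ℝ) + 2) := by
        refine hp2.trans ?_
        have h2 : p ≤ b ^ (J + 2) := by
          have e1 : b ^ (J + 2) = b * b ^ (J + 1) := by rw [pow_succ']
          rw [e1]
          have e2 : 2 * b ^ (J + 1) ≤ b * b ^ (J + 1) := Nat.mul_le_mul_right _ (by omega)
          omega
        have h3 : (b : ℝ) ^ ((J : ℝ) + 2) = (b : ℝ) ^ (J + 2) := by
          rw [← Real.rpow_natCast]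
          push_cast
          rfl
        rw [h3]
        exact_mod_cast h2
      exact (Real.rpow_le_rpow_left_iff hb1).1 h1
    have hJpos : 2 ≤ J := by
      have : (2 : ℝ) ≤ J := by linarith
      exact_mod_cast this
    have hJL : J < L := by
      have : (J : ℝ) < L := by
        calc (J : ℝ) ≤ κ * L := hJup
          _ < 1 * L := mul_lt_mul_of_pos_right hκ1 hL0
          _ = L := one_mul _
      exact_mod_cast this
    have hlog : Nat.log 2 p < b * L := by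
      have h1 : (2 : ℕ) ^ Nat.log 2 p < 2 ^ (b * L) := by
        refine lt_of_lt_of_le hJ2 ?_
        calc b ^ (J + 1) ≤ b ^ L := Nat.pow_le_pow_right (by omega) (by omega)
          _ ≤ (2 ^ b) ^ L := Nat.pow_le_pow_left (Nat.lt_two_pow_self).le L
          _ = 2 ^ (b * L) := by rw [pow_mul]
      exact (Nat.pow_lt_pow_iff_right (by norm_num)).1 h1
    refine ⟨Nat.log 2 p, ?_, p, hlow, hupp, hp1, hp4⟩
    rw [Finset.mem_filter, Finset.mem_range]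
    refine ⟨hlog, J - 1, by omega, ?_, ?_, ?_, ?_⟩
    · have : ((J - 1 : ℕ) : ℝ) = J - 1 := by
        rw [Nat.cast_sub (by omega)]; push_cast; rfl
      rw [this]; linarith
    · rw [show J - 1 + 1 = J by omega]; exact hJ1
    · rw [show J - 1 + 2 = J + 1 by omega]; exact hJ2.le
    · refine le_trans ?_ hp3
      exact_mod_cast hlow)
  refine le_trans (le_of_eq ?_) (hcov.trans ?_)
  · congr!
  have hEc : (E.card : ℝ) ≤ b * L := by
    have : E.card ≤ b * L := by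
      refine (Finset.card_filter_le _ _).trans ?_
      rw [Finset.card_range]
    exact_mod_cast this
  have hr : ρ ^ L ≠ 0 := (pow_pos hρ0 L).ne'
  calc (E.card : ℝ) * (C2 * ((s : ℝ) * t) ^ L * T * ((ρ ^ L) ^ 2 * (a ^ 2)⁻¹)) ≤
      (b * L) * (C2 * ((s : ℝ) * t) ^ L * T * ((ρ ^ L) ^ 2 * (a ^ 2)⁻¹)) :=
        mul_le_mul_of_nonneg_right hEc (by positivity)
    _ = ((s : ℝ) * t) ^ L * (C3 * (L * ρ ^ L)) := by
        rw [hTval, inv_pow, ← hC3]
        field_simp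
    _ ≤ ((s : ℝ) * t) ^ L * (1 / (L : ℝ) ^ A) := by
        refine mul_le_mul_of_nonneg_left ?_ (by positivity)
        rw [le_div_iff₀ (by positivity)]
        have e1 : C3 * (L * ρ ^ L) * (L : ℝ) ^ A = C3 * ((L : ℝ) ^ (A + 1) * ρ ^ L) := by
          rw [pow_succ]; ring
        rw [e1]
        calc C3 * ((L : ℝ) ^ (A + 1) * ρ ^ L) ≤ C3 * C3⁻¹ :=
              mul_le_mul_of_nonneg_left hL1.le hK0.le
          _ = 1 := mul_inv_cancel₀ hK0.ne'
    _ = ((s : ℝ) * t) ^ L / (L : ℝ) ^ A := by ring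

end Pool.Agent.U857.PX
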