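import Pool.Agent.U857.PX.A5
import Pool.Agent.U857.PX.GS
/-!
The weighted sieve for digits at an arbitrary set of positions.
-/
set_option autoImplicit false

namespace Pool.Agent.U857.PX

open Finset Filter Topology
open Pool.Agent.W89.PW
open Pool.Agent.W89.Sv (rem)

lemma lin_class {q d B0 : ℕ} (hq : 0 < q) (hd : d.Coprime q) : ∃ h : ℕ, ∀ v : ℕ, q ∣ B0 + d * v ↔ v ≡ h [MOD q] := by
  haveI : NeZero q := ⟨hq.ne'⟩
  refine ⟨(-(B0 : ZMod q) * (d : ZMod q)⁻¹).val, fun v => ?_⟩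
  have hu : (d : ZMod q) * (d : ZMod q)⁻¹ = 1 := ZMod.coe_mul_inv_eq_one d hd
  rw [← ZMod.natCast_eq_natCast_iff, ← ZMod.natCast_eq_zero_iff, ZMod.natCast_val, ZMod.cast_id]
  push_cast
  constructor
  · intro h
    have h1 : (d : ZMod q) * v = -B0 := by linear_combination h
    calc (v : ZMod q) = ((d : ZMod q) * (d : ZMod q)⁻¹) * v := by rw [hu, one_mul]
      _ = ((d : ZMod q) * v) * (d : ZMod q)⁻¹ := by ring
      _ = _ := by rw [h1]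
  · intro h
    rw [h]
    linear_combination (-(B0 : ZMod q)) * hu

theorem sieveP {b s t : ℕ} (hb : 2 ≤ b) (hs : 2 ≤ s) (hsb : s ≤ b) (ht : 1 ≤ t) {H CH : ℝ} (hLO : LOne b s t H CH)
    {μ : ℕ} (hμ1 : 1 ≤ μ) (hμ : μ * (s + t - 2) ≤ b * (b - 1)) {δ κ : ℝ} (hδ1 : δ < 1) (hκ0 : 0 < κ) (hκ1 : κ < 1)
    (hκH : (b : ℝ) ^ κ * H ^ (1 - δ) < 1) (hM : (b : ℝ) * M2 s t μ ^ (1 - δ) < 1) (C1 : ℝ) (K0 : ℕ) (hK0 : 1 ≤ K0)
    {m0 d : ℕ} (hm0 : m0 ≠ 0) (h2b : 2 * b ∣ m0) (hd : d ∣ m0) {r : ℕ} {lam : ℝ} (hl0 : 0 < lam) (hl1 : lam ≤ 1)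
    (hlam : lam * (1174 / 1000) < 994 / 1000) (hrr : 1 / lam + 88 / (43 * κ) < r + 1) (C0 : ℝ) :
    ∃ c : ℝ, 0 < c ∧ ∀ᶠ L : ℕ in atTop, ∀ P : Finset ℕ, Dens δ C1 L P → Adj K0 L P → ∀ B0 Mx : ℕ,
      (Mx : ℝ) ≤ 2 * L + C0 → (∀ m : Fin L → Fin s × Fin t, 0 < B0 + d * vP b s t L P m ∧
        B0 + d * vP b s t L P m < b ^ Mx ∧ (B0 + d * vP b s t L P m).Coprime m0) →
      ∃ G : Finset (Fin L → Fin s × Fin t), c * ((s : ℝ) * t) ^ L / L ≤ G.card ∧ ∀ m ∈ G,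
        (B0 + d * vP b s t L P m).primeFactorsList.length ≤ r ∧
        ∀ p ∈ (B0 + d * vP b s t L P m).primeFactorsList, (b : ℝ) ^ (κ / 6 * L) < p := by
  classical
  have hs1 : 1 ≤ s := by omega
  obtain ⟨κ', hκ'0, hκ'1, hp⟩ := ptP (t := t) (K0 := K0) hb hs hsb
  obtain ⟨C, δ', hC, hδ', hδ'1, big⟩ := bigP hb hs1 ht hLO hμ1 hμ hδ1 hκ0 hκ1 hκH hM C1
  obtain ⟨Z, hZ⟩ : ∃ Z : ℕ → Finset ℕ → Prop, ∀ L P, Z L P ↔ (Dens δ C1 L P ∧ Adj K0 L P) :=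
    ⟨fun L P => Dens δ C1 L P ∧ Adj K0 L P, fun _ _ => Iff.rfl⟩
  have hU : ∀ A : ℕ, ∀ᶠ L : ℕ in atTop, ∀ P : Finset ℕ, Z L P →
    ∑ d ∈ (Icc 2 ⌊(b : ℝ) ^ (κ * L)⌋₊).filter (fun q => q.Coprime (2 * b)),
      (d.divisors.card : ℝ) ^ 2 * UP b s t L P d / d ≤ 1 / (L : ℝ) ^ A := by
    intro A
    exact UP_sum b s t K0 hb hK0 Z κ' hκ'0 hκ'1
      (fun L P hLP q h a h1 h2 h3 h4 => hp q h a L P h1 h2 h3 h4 ((hZ L P).1 hLP).2) κ hκ1 C δ' hC hδ'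
      (fun L Q P hLP h1 h2 => big L Q P ((hZ L P).1 hLP).1 h1 h2) A
  have hBV := BVP hb hs1 ht Z (fun L P hLP => ((hZ L P).1 hLP).1.1) hκ1 hU 3
  have hSq := SqP hb hs1 ht hLO hμ1 hμ hδ1 (C1 := C1) hM hκ1 hκH (η := κ / 6) (by positivity) 3
  have h2m : 2 ∣ m0 := (Dvd.intro _ rfl).trans h2b
  have hrr' : 1 / lam + 44 * 2 / (43 * κ) < r + 1 := by
    rw [show (44 : ℝ) * 2 = 88 by norm_num]; exact hrr
  obtain ⟨c, hc0, hgs⟩ := gs (b := b) (m0 := m0) (r := r) (κ := κ) (lam := lam) (ρ := 2) (C0 := C0) hb hm0 h2m hκ0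
    hκ1.le hl0 hl1 hlam (by norm_num) hrr'
  refine ⟨c, hc0, ?_⟩
  filter_upwards [hgs, hBV, hSq] with L g1 g2 g3 P hD hA B0 Mx hMx hn
  have hcop : ∀ q : ℕ, q.Coprime m0 → q.Coprime (2 * b) := fun q hq => Nat.Coprime.coprime_dvd_right h2b hq
  have hcopd : ∀ q : ℕ, q.Coprime m0 → d.Coprime q := fun q hq => (Nat.Coprime.coprime_dvd_right hd hq).symm
  -- the residue classes
  have hex : ∀ q : ℕ, ∃ h : ℕ, 0 < q → d.Coprime q → ∀ v : ℕ, q ∣ B0 + d * v ↔ v ≡ h [MOD q] := by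
    intro q
    by_cases hq : 0 < q ∧ d.Coprime q
    · obtain ⟨h, hh⟩ := lin_class (B0 := B0) hq.1 hq.2
      exact ⟨h, fun _ _ => hh⟩
    · exact ⟨0, fun h1 h2 => absurd ⟨h1, h2⟩ hq⟩
  choose h hh using hex
  have g2' := g2 P ((hZ L P).2 ⟨hD, hA⟩) h
  have g3' := g3 P hD h
  obtain ⟨G, _, hG2, hG3⟩ := g1 (Fin L → Fin s × Fin t) univ (fun m => B0 + d * vP b s t L P m) (((s : ℝ) * t) ^ L) Mx
    (by positivity) hMx (fun m _ => hn m) (by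
      refine le_trans ?_ g2'
      have hsub : (Icc 1 ⌊(b : ℝ) ^ (κ * L)⌋₊).filter (fun q => q.Coprime m0) ⊆
          (Icc 1 ⌊(b : ℝ) ^ (κ * L)⌋₊).filter (fun q => q.Coprime (2 * b)) := by
        intro q hq
        rw [mem_filter] at hq ⊢
        exact ⟨hq.1, hcop q hq.2⟩
      refine le_trans (le_of_eq ?_) (sum_le_sum_of_subset_of_nonneg hsub fun _ _ _ => by positivity)
      apply sum_congr rfl
      intro q hq
      rw [mem_filter, mem_Icc] at hq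
      congr 2
      unfold rem cntP
      congr 2
      apply congrArg
      apply filter_congr
      intro m _
      exact hh q hq.1.1 (hcopd q hq.2) _) (by
      intro B _ hB2
      refine le_trans ?_ g3'
      apply Nat.cast_le.2
      apply card_le_card
      intro m hm
      rw [mem_filter]
      refine ⟨mem_univ _, ?_⟩
      obtain ⟨p, h1, h2, h3, h4⟩ := hB2 m hm
      refine ⟨p, hcop p h1, h2, h3, ?_⟩
      have hp0 : 0 < p := by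
        rcases Nat.eq_zero_or_pos p with h5 | h5
        · exfalso
          rw [h5, Nat.cast_zero] at h2
          have hb0 : (0 : ℝ) < b := by exact_mod_cast (by omega : 0 < b)
          have : (0 : ℝ) < (b : ℝ) ^ (κ / 6 * L) := by positivity
          linarith
        · exact h5
      exact (hh (p ^ 2) (by positivity) ((hcopd p h1).pow_right 2) _).1 h4)
  exact ⟨G, hG2, hG3⟩

end Pool.Agent.U857.PX
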