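import Pool.Agent.U857.PX.A6
import Pool.Agent.R471.RD.Dig
/-!
Palindromes given by a digit function; counting.
-/
set_option autoImplicit false

namespace Pool.Agent.U857.PX

open Finset Filter Topology
open Pool.Agent.W89.PW
open Pool.Agent.H181R5.PBT9 (ofDigits_map_range)
open Pool.Agent.R471.RD.Dig (sum_dist)

variable {b : ℕ}

/-- the palindrome with `2 N + 1` base-`b` digits and digit `D i` at distance `i` from the middle -/
def palD (b N : ℕ) (D : ℕ → ℕ) : ℕ := Nat.ofDigits b ((List.range (2 * N + 1)).map (fun j => D (Nat.dist j N)))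

lemma dist_le {N j : ℕ} (hj : j < 2 * N + 1) : Nat.dist j N ≤ N := by unfold Nat.dist; omega

lemma palD_digits (hb : 1 < b) {N : ℕ} {D : ℕ → ℕ} (hD : ∀ i ≤ N, D i < b) (hN : D N ≠ 0) :
    Nat.digits b (palD b N D) = (List.range (2 * N + 1)).map (fun j => D (Nat.dist j N)) := by
  unfold palD
  apply Nat.digits_ofDigits b hb
  · intro x hx
    rw [List.mem_map] at hx
    obtain ⟨j, hj, rfl⟩ := hx
    rw [List.mem_range] at hj
    exact hD _ (dist_le hj)
  · intro h
    rw [List.getLast_eq_getElem]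
    simp only [List.getElem_map, List.getElem_range, List.length_map, List.length_range]
    have : Nat.dist (2 * N + 1 - 1) N = N := by unfold Nat.dist; omega
    rw [this]
    exact hN

lemma palD_pal (hb : 1 < b) {N : ℕ} {D : ℕ → ℕ} (hD : ∀ i ≤ N, D i < b) (hN : D N ≠ 0) :
    (Nat.digits b (palD b N D)).reverse = Nat.digits b (palD b N D) := by
  rw [palD_digits hb hD hN]
  apply List.ext_getElem
  · simp
  · intro i h1 h2
    have h3 : i < 2 * N + 1 := by simpa using h2
    rw [List.getElem_reverse]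
    simp only [List.getElem_map, List.getElem_range, List.length_map, List.length_range]
    congr 1
    unfold Nat.dist
    omega

lemma palD_lt (hb : 1 < b) {N : ℕ} {D : ℕ → ℕ} (hD : ∀ i ≤ N, D i < b) : palD b N D < b ^ (2 * N + 1) := by
  unfold palD
  have h := Nat.ofDigits_lt_base_pow_length (l := (List.range (2 * N + 1)).map (fun j => D (Nat.dist j N))) hb (by
    intro x hx
    rw [List.mem_map] at hx
    obtain ⟨j, hj, rfl⟩ := hx
    rw [List.mem_range] at hj
    exact hD _ (dist_le hj))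
  simpa using h

lemma palD_digit (hb : 1 < b) {N : ℕ} {D : ℕ → ℕ} (hD : ∀ i ≤ N, D i < b) (hN : D N ≠ 0) {i : ℕ} (hi : i ≤ 2 * N) :
    palD b N D / b ^ i % b = D (Nat.dist i N) := by
  rw [← Nat.getD_digits (palD b N D) i (by omega), palD_digits hb hD hN, List.getD_eq_getElem?_getD,
    List.getElem?_map, List.getElem?_range (by omega)]
  simp

lemma palD_val (b N : ℕ) (D : ℕ → ℕ) : palD b N D = D 0 * b ^ N + ∑ c ∈ range N, D (c + 1) *
    (b ^ (N + 1 + c) + b ^ (N - 1 - c)) := by
  unfold palD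
  rw [ofDigits_map_range, sum_dist]

lemma palD_val' (b L : ℕ) (D : ℕ → ℕ) : palD b (L + 1) D = D 0 * b ^ (L + 1) + D (L + 1) * (b ^ (2 * L + 2) + 1) +
    ∑ c ∈ range L, D (c + 1) * fr b L c := by
  rw [palD_val, sum_range_succ]
  have h1 : ∑ c ∈ range L, D (c + 1) * (b ^ (L + 1 + 1 + c) + b ^ (L + 1 - 1 - c)) =
      ∑ c ∈ range L, D (c + 1) * fr b L c := by
    apply sum_congr rfl
    intro c _
    unfold fr
    rw [show L + 1 + 1 + c = L + c + 2 by ring, show L + 1 - 1 - c = L - c by omega]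
  rw [h1, show L + 1 + 1 + L = 2 * L + 2 by ring, show L + 1 - 1 - L = 0 by omega, pow_zero]
  ring

lemma palD_ge {N : ℕ} {D : ℕ → ℕ} (hN : D N ≠ 0) (hN0 : 1 ≤ N) : b ^ (2 * N) ≤ palD b N D := by
  obtain ⟨L, rfl⟩ : ∃ L, N = L + 1 := ⟨N - 1, by omega⟩
  rw [palD_val']
  have h1 : 1 ≤ D (L + 1) := Nat.one_le_iff_ne_zero.2 hN
  have h2 : 1 * (b ^ (2 * L + 2) + 1) ≤ D (L + 1) * (b ^ (2 * L + 2) + 1) := Nat.mul_le_mul_right _ h1
  rw [show 2 * (L + 1) = 2 * L + 2 by ring]
  omega

/-- every palindrome with `2 N + 1` digits is of this form -/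
lemma pal_eq (hb : 1 < b) {N w : ℕ} (h1 : b ^ (2 * N) ≤ w) (h2 : w < b ^ (2 * N + 1))
    (hp : (Nat.digits b w).reverse = Nat.digits b w) : palD b N (fun i => w / b ^ (N + i) % b) = w := by
  have hlen : (Nat.digits b w).length = 2 * N + 1 := Pool.Agent.R471.PShort.dig_len hb h1 h2
  have hd : Nat.digits b w = (List.range (2 * N + 1)).map (fun j => w / b ^ (N + Nat.dist j N) % b) := by
    apply List.ext_getElem
    · simp [hlen]
    · intro j hj1 hj2
      have hj : j < 2 * N + 1 := by rw [← hlen]; exact hj1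
      have hget : ∀ i (hi : i < (Nat.digits b w).length), (Nat.digits b w)[i] = w / b ^ i % b := by
        intro i hi
        rw [← Nat.getD_digits w i (by omega), List.getD_eq_getElem?_getD, List.getElem?_eq_getElem hi,
          Option.getD_some]
      simp only [List.getElem_map, List.getElem_range]
      rcases Nat.le_total N j with h3 | h3
      · rw [hget j hj1, show N + Nat.dist j N = j by unfold Nat.dist; omega]
      · have h4 : (Nat.digits b w)[j] = (Nat.digits b w)[2 * N - j]'(by omega) := by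
          have h5 : (Nat.digits b w)[j]? = (Nat.digits b w).reverse[j]? := by rw [hp]
          rw [List.getElem?_eq_getElem hj1, List.getElem?_reverse hj1] at h5
          rw [show (Nat.digits b w).length - 1 - j = 2 * N - j by omega,
            List.getElem?_eq_getElem (by omega : 2 * N - j < (Nat.digits b w).length)] at h5
          exact Option.some.inj h5
        rw [h4, hget, show N + Nat.dist j N = 2 * N - j by unfold Nat.dist; omega]
  unfold palD
  rw [← hd, Nat.ofDigits_digits]

/-- the digits: `a i` plus `d` times the free part -/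
def Dm {s t L : ℕ} (P : Finset ℕ) (d : ℕ) (a : ℕ → ℕ) (m : Fin L → Fin s × Fin t) : ℕ → ℕ
  | 0 => a 0
  | c + 1 => a (c + 1) + d * (if h : c < L then (if c ∈ P then ((m ⟨c, h⟩).1 : ℕ) + ((m ⟨c, h⟩).2 : ℕ) else 0) else 0)

lemma Dm_zero {s t L : ℕ} (P : Finset ℕ) (d : ℕ) (a : ℕ → ℕ) (m : Fin L → Fin s × Fin t) : Dm P d a m 0 = a 0 := rfl

lemma Dm_succ {s t L : ℕ} (P : Finset ℕ) (d : ℕ) (a : ℕ → ℕ) (m : Fin L → Fin s × Fin t) (c : ℕ) :
    Dm P d a m (c + 1) = a (c + 1) +
      d * (if h : c < L then (if c ∈ P then ((m ⟨c, h⟩).1 : ℕ) + ((m ⟨c, h⟩).2 : ℕ) else 0) else 0) := rfl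

lemma Dm_top {s t L : ℕ} (P : Finset ℕ) (d : ℕ) (a : ℕ → ℕ) (m : Fin L → Fin s × Fin t) :
    Dm P d a m (L + 1) = a (L + 1) := by
  rw [Dm_succ, dif_neg (by omega)]; ring

lemma Dm_val {s t L : ℕ} (b : ℕ) (P : Finset ℕ) (d : ℕ) (a : ℕ → ℕ) (m : Fin L → Fin s × Fin t) :
    palD b (L + 1) (Dm P d a m) = palD b (L + 1) a + d * vP b s t L P m := by
  rw [palD_val', palD_val', Dm_zero, Dm_top]
  unfold vP
  rw [← Fin.sum_univ_eq_sum_range (fun c => Dm P d a m (c + 1) * fr b L c) L,
    ← Fin.sum_univ_eq_sum_range (fun c => a (c + 1) * fr b L c) L, mul_sum, add_assoc (_ + _), ← sum_add_distrib]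
  congr 1
  apply sum_congr rfl
  intro c _
  rw [Dm_succ, dif_pos c.is_lt]
  ring

/-- Cauchy's inequality for the fibres -/
lemma card_sq_leP {s t L : ℕ} (P : Finset ℕ) (hP : P ⊆ range L) (F : (Fin L → Fin s × Fin t) → ℕ)
    (hF : ∀ m m' : Fin L → Fin s × Fin t, F m = F m' → ∀ c : Fin L, (c : ℕ) ∈ P →
      ((m c).1 : ℕ) + ((m c).2 : ℕ) = ((m' c).1 : ℕ) + ((m' c).2 : ℕ)) (G : Finset (Fin L → Fin s × Fin t)) :
    G.card ^ 2 ≤ (G.image F).card * ((Eset s t).card ^ P.card * ((s * t) ^ 2) ^ (L - P.card)) := by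
  classical
  have hcardP : ∏ c : Fin L, (if (c : ℕ) ∈ P then (Eset s t).card else (s * t) ^ 2) =
      (Eset s t).card ^ P.card * ((s * t) ^ 2) ^ (L - P.card) := by
    rw [Fin.prod_univ_eq_prod_range (fun c => if c ∈ P then (Eset s t).card else (s * t) ^ 2) L,
      ← prod_filter_mul_prod_filter_not (range L) (fun c => c ∈ P)]
    have e1 : (range L).filter (fun c => c ∈ P) = P := by
      ext c
      rw [mem_filter]
      exact ⟨fun h => h.2, fun h => ⟨hP h, h⟩⟩
    have e2 : ((range L).filter (fun c => c ∉ P)).card = L - P.card := by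
      have h1 := card_filter_add_card_filter_not (s := range L) (fun c => c ∈ P)
      rw [e1, card_range] at h1
      omega
    congr 1
    · rw [e1, prod_congr rfl fun c hc => if_pos hc, prod_const]
    · rw [prod_congr rfl fun c hc => if_neg (mem_filter.1 hc).2, prod_const, e2]
  have hpairs : ((univ : Finset ((Fin L → Fin s × Fin t) × (Fin L → Fin s × Fin t))).filter
      (fun x => F x.1 = F x.2)).card ≤ (Eset s t).card ^ P.card * ((s * t) ^ 2) ^ (L - P.card) := by
    have h1 : (Fintype.piFinset (fun c : Fin L => if (c : ℕ) ∈ P then Eset s t else univ)).card =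
        (Eset s t).card ^ P.card * ((s * t) ^ 2) ^ (L - P.card) := by
      rw [Fintype.card_piFinset, ← hcardP]
      apply prod_congr rfl
      intro c _
      split_ifs
      · rfl
      · simp only [card_univ, Fintype.card_prod, Fintype.card_fin]
        ring
    rw [← h1]
    apply card_le_card_of_injOn (fun x c => (x.1 c, x.2 c))
    · intro x hx
      rw [mem_coe, mem_filter] at hx
      rw [mem_coe, Fintype.mem_piFinset]
      intro c
      split_ifs with hc
      · unfold Eset
        rw [mem_filter]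
        exact ⟨mem_univ _, hF _ _ hx.2 c hc⟩
      · exact mem_univ _
    · intro x _ y _ h
      have h2 : ∀ c, (x.1 c, x.2 c) = (y.1 c, y.2 c) := fun c => congrFun h c
      apply Prod.ext
      · funext c
        exact (Prod.ext_iff.1 (h2 c)).1
      · funext c
        exact (Prod.ext_iff.1 (h2 c)).2
  have h1 : G.card = ∑ n ∈ G.image F, (G.filter (fun m => F m = n)).card :=
    card_eq_sum_card_fiberwise fun m hm => mem_coe.2 (mem_image_of_mem _ (mem_coe.1 hm))
  have h2 := sq_sum_le_card_mul_sum_sq (s := G.image F)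
    (f := fun n => (G.filter (fun m => F m = n)).card)
  rw [← h1] at h2
  refine h2.trans (Nat.mul_le_mul_left _ (le_trans ?_ hpairs))
  have h3 : ∑ n ∈ G.image F, (G.filter (fun m => F m = n)).card ^ 2 =
      ((G ×ˢ G).filter (fun x => F x.1 = F x.2)).card := by
    rw [card_eq_sum_card_fiberwise (f := fun x : (Fin L → Fin s × Fin t) × (Fin L → Fin s × Fin t) =>
      F x.1) (t := G.image F)]
    · apply sum_congr rfl
      intro n _
      rw [sq, ← card_product]
      congr 1
      ext x
      simp only [mem_filter, mem_product]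
      constructor
      · rintro ⟨⟨h4, h5⟩, h6, h7⟩
        exact ⟨⟨⟨h4, h6⟩, h5.trans h7.symm⟩, h5⟩
      · rintro ⟨⟨⟨h4, h6⟩, h7⟩, h5⟩
        exact ⟨⟨h4, h5⟩, h6, h7.symm.trans h5⟩
    · intro x hx
      rw [mem_coe, mem_filter, mem_product] at hx
      exact mem_coe.2 (mem_image_of_mem _ hx.1.1)
  rw [h3]
  apply card_le_card
  intro x hx
  rw [mem_filter] at hx ⊢
  exact ⟨mem_univ _, hx.2⟩

end Pool.Agent.U857.PX
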