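import Pool.Agent.U857.PX.DirFin
import Pool.Agent.W22.PW_M4
/-!
Base 10: the numerical data, and residue classes to moduli not prime to 10.
-/
set_option autoImplicit false

namespace Pool.Agent.U857.PX

open Finset Filter Topology
open Pool.Agent.W89.PW

/-- the numerical data of base 10 -/
lemma ten_data : ((10 : ℕ) : ℝ) * m4 5 6 < 1 ∧ (((10 : ℕ) : ℝ)) ^ (277 / 376 : ℝ) * HH 5 6 < 1 ∧
    (Eset 5 6).card = 110 := by
  refine ⟨?_, ?_, by decide +kernel⟩
  · have h := Pool.Agent.W22.PWM4.main 10 (by norm_num)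
    norm_num at h
    push_cast
    linarith
  · have h1 : (10 : ℝ) ^ (277 / 376 : ℝ) < 60 / 11 := by
      have h2 : ((10 : ℝ) ^ (277 / 376 : ℝ)) ^ 376 < (60 / 11) ^ 376 := by
        rw [← Real.rpow_natCast, ← Real.rpow_mul (by norm_num)]
        have e : (277 / 376 : ℝ) * ((376 : ℕ) : ℝ) = ((277 : ℕ) : ℝ) := by norm_num
        have e1 : (60 / 11 : ℝ) ^ 376 = (60 / 11) ^ 188 * (60 / 11) ^ 188 := by rw [← pow_add]
        have e2 : (10 : ℝ) ^ 277 = 10 ^ 138 * 10 ^ 139 := by rw [← pow_add]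
        rw [e, Real.rpow_natCast, e1, e2]
        norm_num
      exact lt_of_pow_lt_pow_left₀ 376 (by norm_num) h2
    unfold HH
    push_cast
    nlinarith

lemma cop20 {m : ℕ} (h : m.Coprime 10) : m.Coprime (2 * 10) :=
  Nat.Coprime.mul_right (Nat.Coprime.coprime_dvd_right (by norm_num) h) h

/-- base 10, prescribed leading digits, modulus prime to 10 -/
theorem ten1 {g M a r : ℕ} (hg : g.Coprime 10) (hM : M.Coprime 10) (ha : a.Coprime M) {θ B η : ℝ} (hθ0 : 0 ≤ θ)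
    (hθ1 : θ < 1) (hr : 2778 / 1000 ≤ ((r : ℝ) - 182 / 1000) * (1 - θ)) (hB : 1 ≤ B) (hB2 : B < 900 / 110)
    (hη : η < 277 / 376 / 6) :
    ∀ᶠ N : ℕ in atTop, ∀ K : ℕ, (K : ℝ) ≤ θ * N → ∀ w : ℕ, 10 ^ K ≤ w → w < 10 ^ (K + 1) →
      (w / 10 ^ K).Coprime 10 →
      B ^ (N - K) ≤ (((range (10 ^ (2 * N + 1))).filter (fun n => n / 10 ^ (2 * N - K) = w ∧
        (Nat.digits 10 n).reverse = Nat.digits 10 n ∧ (g ∣ n ∧ n / g ≡ a [MOD M]) ∧
        (n / g).primeFactorsList.length ≤ r ∧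
        ∀ p ∈ (n / g).primeFactorsList, (((10 : ℕ) : ℝ)) ^ (η * ((N - K : ℕ) : ℝ)) < p)).card : ℝ) := by
  obtain ⟨hm4, hκ, hE⟩ := ten_data
  have hg0 : 0 < g := by
    rcases Nat.eq_zero_or_pos g with h | h
    · rw [h] at hg; norm_num at hg
    · exact h
  have h0 : 0 < 1 - θ := by linarith
  have hr' : 1 / (8466 / 10000 : ℝ) + 88 / (43 * (277 / 376 : ℝ) * (1 - θ)) < r + 1 := by
    have h1 : 88 / (43 * (277 / 376 : ℝ) * (1 - θ)) = (33088 / 11911) / (1 - θ) := by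
      field_simp
      norm_num
    have h2 : (33088 / 11911 : ℝ) / (1 - θ) < (r : ℝ) - 182 / 1000 := by
      rw [div_lt_iff₀ h0]
      norm_num
      linarith
    rw [h1]
    norm_num
    linarith
  exact dirN (b := 10) (s := 5) (t := 6) (r := r) (κ := 277 / 376) (lam := 8466 / 10000) (B := B) (η := η) (θ := θ)
    (by norm_num) (by norm_num) (by norm_num) (by norm_num) hg0 (cop20 hg) (cop20 hM) ha (by norm_num) hκ hm4
    (by norm_num) (by norm_num) (by norm_num) hθ0 hθ1 hr' hB (by rw [hE]; norm_num; linarith) hη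

/-- the last digits of a palindrome -/
lemma pal_mod {n N K w : ℕ} (hK : K ≤ 2 * N) (hn1 : n / 10 ^ (2 * N - K) = w) (hw1 : 10 ^ K ≤ w)
    (hw2 : w < 10 ^ (K + 1)) (hpal : (Nat.digits 10 n).reverse = Nat.digits 10 n) :
    n % 10 ^ (K + 1) = Nat.ofDigits 10 (Nat.digits 10 w).reverse := by
  have hlw : (Nat.digits 10 w).length = K + 1 := Pool.Agent.R471.PShort.dig_len (by norm_num) hw1 hw2
  have hw0 : 0 < w := lt_of_lt_of_le (by positivity) hw1
  obtain ⟨l, hl⟩ : ∃ l, l = Nat.digits 10 n := ⟨_, rfl⟩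
  have hw : Nat.ofDigits 10 (l.drop (2 * N - K)) = w := by
    rw [hl, ← Nat.self_div_pow_eq_ofDigits_drop _ _ (by norm_num), hn1]
  have hne : l.drop (2 * N - K) ≠ [] := by
    intro h
    rw [h, Nat.ofDigits_nil] at hw
    omega
  have hne' : l ≠ [] := by
    intro h
    rw [h] at hne
    simp at hne
  have hdw : Nat.digits 10 w = l.drop (2 * N - K) := by
    rw [← hw]
    apply Nat.digits_ofDigits 10 (by norm_num)
    · intro x hx
      have := List.mem_of_mem_drop hx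
      rw [hl] at this
      exact Nat.digits_lt_base (by norm_num) this
    · intro h
      rw [List.getLast_drop]
      have h2 : Nat.digits 10 n ≠ [] := by rw [← hl]; exact hne'
      have h3 := Nat.getLast_digit_ne_zero 10 (m := n) (Nat.digits_ne_nil_iff_ne_zero.1 h2)
      simp only [hl]
      exact h3
  have hlen : l.length = 2 * N + 1 := by
    have h1 := congrArg List.length hdw
    rw [hlw, List.length_drop] at h1
    omega
  rw [Nat.self_mod_pow_eq_ofDigits_take _ _ (by norm_num), ← hl, hdw]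
  congr 1
  rw [← hl] at hpal
  conv_lhs => rw [← hpal]
  rw [List.take_reverse, hlen]
  congr 2
  omega

/-- `m = 2 ^ i * 5 ^ j * m'` with `m'` prime to `10` -/
lemma split_ten {M : ℕ} (hM : M ≠ 0) : ∃ k M' : ℕ, M'.Coprime 10 ∧ M' ∣ M ∧ ∀ x y : ℕ, x ≡ y [MOD 10 ^ k] →
    x ≡ y [MOD M'] → x ≡ y [MOD M] := by
  obtain ⟨i, M1, h1, h2⟩ := Nat.exists_eq_pow_mul_and_not_dvd hM 2 (by norm_num)
  have hM1 : M1 ≠ 0 := by
    rintro rfl
    simp at h1
  obtain ⟨j, M', h3, h4⟩ := Nat.exists_eq_pow_mul_and_not_dvd hM1 5 (by norm_num)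
  have h5 : ¬ 2 ∣ M' := fun h => h1 (by rw [h4]; exact Dvd.dvd.mul_left h _)
  have c2 : Nat.Coprime M' 2 := ((Nat.Prime.coprime_iff_not_dvd Nat.prime_two).2 h5).symm
  have c5 : Nat.Coprime M' 5 := ((Nat.Prime.coprime_iff_not_dvd Nat.prime_five).2 h3).symm
  have c10 : Nat.Coprime M' 10 := by
    have := Nat.Coprime.mul_right c2 c5
    simpa using this
  refine ⟨i + j, M', c10, by rw [h2, h4, ← mul_assoc]; exact dvd_mul_left _ _, fun x y hx hy => ?_⟩
  have hdvd : 2 ^ i * 5 ^ j ∣ 10 ^ (i + j) := by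
    have e : (10 : ℕ) ^ (i + j) = 2 ^ i * 5 ^ j * (5 ^ i * 2 ^ j) := by
      rw [show (10 : ℕ) = 2 * 5 by norm_num, mul_pow, pow_add, pow_add]
      ring
    rw [e]
    exact dvd_mul_right _ _
  have hx' : x ≡ y [MOD 2 ^ i * 5 ^ j] := hx.of_dvd hdvd
  have hc : (2 ^ i * 5 ^ j).Coprime M' := Nat.Coprime.mul_left (c2.symm.pow_left i) (c5.symm.pow_left j)
  have := (Nat.modEq_and_modEq_iff_modEq_mul hc).1 ⟨hx', hy⟩
  rw [h2, h4, ← mul_assoc]
  exact this

/-- base 10, every modulus -/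
theorem ten2 {g M a : ℕ} (hg : g.Coprime 10) (hM : M ≠ 0) (ha : a.Coprime M) (ha10 : a.Coprime 10) :
    ∀ᶠ N : ℕ in atTop, 8 ^ N ≤ ((range (10 ^ (2 * N + 1))).filter (fun n => 10 ^ (2 * N) ≤ n ∧
        (Nat.digits 10 n).reverse = Nat.digits 10 n ∧ (g ∣ n ∧ n / g ≡ a [MOD M]) ∧
        (n / g).primeFactorsList.length ≤ 3 ∧
        ∀ p ∈ (n / g).primeFactorsList, (10 : ℝ) ^ ((N : ℝ) / 9) < p)).card := by
  obtain ⟨k, M', hM', hMM, hk⟩ := split_ten hM
  have hg0 : 0 < g := by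
    rcases Nat.eq_zero_or_pos g with h | h
    · rw [h] at hg; norm_num at hg
    · exact h
  have haM' : a.Coprime M' := Nat.Coprime.coprime_dvd_right hMM ha
  -- the leading block
  obtain ⟨K, hK⟩ : ∃ K, K = k + 1 := ⟨_, rfl⟩
  obtain ⟨x, hx⟩ : ∃ x, x = 10 ^ K + (g * a) % 10 ^ K := ⟨_, rfl⟩
  have hmodlt : (g * a) % 10 ^ K < 10 ^ K := Nat.mod_lt _ (by positivity)
  have hx1 : 10 ^ K ≤ x := by omega
  have hx2 : x < 10 ^ (K + 1) := by
    rw [pow_succ]; omega
  have hxga : x ≡ g * a [MOD 10 ^ K] := by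
    rw [hx]
    unfold Nat.ModEq
    rw [Nat.add_mod_left, Nat.mod_mod]
  have hx10 : (x % 10).Coprime 10 := by
    have h1 : x ≡ g * a [MOD 10] := hxga.of_dvd (dvd_pow_self 10 (by omega))
    have h2 : (x % 10).gcd 10 = (g * a).gcd 10 := ((Nat.mod_modEq x 10).trans h1).gcd_eq
    rw [Nat.Coprime, h2]
    exact Nat.Coprime.mul_left hg ha10
  have hx0 : 0 < x := lt_of_lt_of_le (by positivity) hx1
  have hlx : (Nat.digits 10 x).length = K + 1 := Pool.Agent.R471.PShort.dig_len (by norm_num) hx1 hx2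
  have hdx : Nat.digits 10 x = x % 10 :: Nat.digits 10 (x / 10) := Nat.digits_def' (by norm_num) hx0
  have hl2 : (Nat.digits 10 (x / 10)).length = K := by
    rw [hdx, List.length_cons] at hlx
    omega
  obtain ⟨w, hw⟩ : ∃ w, w = Nat.ofDigits 10 (Nat.digits 10 x).reverse := ⟨_, rfl⟩
  obtain ⟨y, hy⟩ : ∃ y, y = Nat.ofDigits 10 (Nat.digits 10 (x / 10)).reverse := ⟨_, rfl⟩
  have hwy : w = y + 10 ^ K * (x % 10) := by
    rw [hw, hy, hdx, List.reverse_cons, Nat.ofDigits_append, List.length_reverse, hl2, Nat.ofDigits_singleton]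
  have hy1 : y < 10 ^ K := by
    have h1 := Nat.ofDigits_lt_base_pow_length (b := 10) (l := (Nat.digits 10 (x / 10)).reverse) (by norm_num)
      (fun z hz => Nat.digits_lt_base (by norm_num) (List.mem_reverse.1 hz))
    rwa [List.length_reverse, hl2, ← hy] at h1
  have hx00 : 0 < x % 10 := by
    rcases Nat.eq_zero_or_pos (x % 10) with h | h
    · rw [h] at hx10; norm_num at hx10
    · exact h
  have hwd : w / 10 ^ K = x % 10 := by
    rw [hwy, Nat.add_mul_div_left _ _ (by positivity), Nat.div_eq_of_lt hy1, zero_add]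
  have hw1 : 10 ^ K ≤ w := by
    rw [hwy]
    have : 10 ^ K * 1 ≤ 10 ^ K * (x % 10) := Nat.mul_le_mul_left _ hx00
    omega
  have hw2 : w < 10 ^ (K + 1) := by
    have h1 : x % 10 ≤ 9 := by omega
    have h2 : 10 ^ K * (x % 10) ≤ 10 ^ K * 9 := Nat.mul_le_mul_left _ h1
    rw [hwy, pow_succ]
    omega
  have hdw : Nat.digits 10 w = (Nat.digits 10 x).reverse := by
    rw [hw]
    apply Nat.digits_ofDigits 10 (by norm_num)
    · intro z hz
      exact Nat.digits_lt_base (by norm_num) (List.mem_reverse.1 hz)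
    · intro h
      rw [List.getLast_reverse]
      simp only [hdx, List.head_cons]
      omega
  have hwx : Nat.ofDigits 10 (Nat.digits 10 w).reverse = x := by
    rw [hdw, List.reverse_reverse, Nat.ofDigits_digits]
  -- the count
  have h1 := ten1 (g := g) (M := M') (a := a) (r := 3) hg hM' haM' (θ := 1 / 100) (B := 81 / 10) (η := 12 / 100)
    (by norm_num) (by norm_num) (by norm_num) (by norm_num) (by norm_num) (by norm_num)
  have h2 : ∀ᶠ N : ℕ in atTop, (K : ℝ) * 100 ≤ N := tendsto_natCast_atTop_atTop.eventually_ge_atTop _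
  have h3 : ∀ᶠ N : ℕ in atTop, (81 / 10 : ℝ) ^ K ≤ (81 / 80) ^ N :=
    (tendsto_pow_atTop_atTop_of_one_lt (by norm_num)).eventually_ge_atTop _
  filter_upwards [h1, h2, h3, eventually_ge_atTop (14 * K)] with N g1 g2 g3 g4
  have g5 := g1 K (by linarith) w hw1 hw2 (by rw [hwd]; exact hx10)
  have hKN : K ≤ N := by omega
  have hsub : ((range (10 ^ (2 * N + 1))).filter (fun n => n / 10 ^ (2 * N - K) = w ∧
        (Nat.digits 10 n).reverse = Nat.digits 10 n ∧ (g ∣ n ∧ n / g ≡ a [MOD M']) ∧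
        (n / g).primeFactorsList.length ≤ 3 ∧
        ∀ p ∈ (n / g).primeFactorsList, (((10 : ℕ) : ℝ)) ^ ((12 / 100 : ℝ) * ((N - K : ℕ) : ℝ)) < p)).card ≤
      ((range (10 ^ (2 * N + 1))).filter (fun n => 10 ^ (2 * N) ≤ n ∧
        (Nat.digits 10 n).reverse = Nat.digits 10 n ∧ (g ∣ n ∧ n / g ≡ a [MOD M]) ∧
        (n / g).primeFactorsList.length ≤ 3 ∧
        ∀ p ∈ (n / g).primeFactorsList, (10 : ℝ) ^ ((N : ℝ) / 9) < p)).card := by
    apply card_le_card
    intro n hn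
    rw [mem_filter] at hn ⊢
    obtain ⟨i1, i2, i3, ⟨i4, i5⟩, i6, i7⟩ := hn
    refine ⟨i1, ?_, i3, ⟨i4, ?_⟩, i6, fun p hp => ?_⟩
    · have h4 : 10 ^ K * 10 ^ (2 * N - K) ≤ n := by
        calc 10 ^ K * 10 ^ (2 * N - K) ≤ n / 10 ^ (2 * N - K) * 10 ^ (2 * N - K) :=
              Nat.mul_le_mul_right _ (by rw [i2]; exact hw1)
          _ ≤ n := Nat.div_mul_le_self _ _
      rwa [← pow_add, show K + (2 * N - K) = 2 * N by omega] at h4
    · apply hk _ _ _ i5
      have h4 := pal_mod (by omega) i2 hw1 hw2 i3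
      rw [hwx] at h4
      have h5 : n ≡ x [MOD 10 ^ (K + 1)] := by
        unfold Nat.ModEq
        rw [h4, Nat.mod_eq_of_lt hx2]
      have h6 : n ≡ g * a [MOD 10 ^ K] := (h5.of_dvd (pow_dvd_pow 10 (by omega))).trans hxga
      obtain ⟨n', rfl⟩ := i4
      rw [Nat.mul_div_cancel_left _ hg0]
      have h7 : n' ≡ a [MOD 10 ^ K] := by
        apply Nat.ModEq.cancel_left_of_coprime _ h6
        exact (hg.symm.pow_left K)
      exact h7.of_dvd (pow_dvd_pow 10 (by omega))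
    · refine lt_of_le_of_lt ?_ (i7 p hp)
      push_cast
      apply Real.rpow_le_rpow_of_exponent_le (by norm_num)
      have h4 : ((N - K : ℕ) : ℝ) = N - K := by push_cast [Nat.cast_sub hKN]; ring
      rw [h4]
      have h5 : (14 : ℝ) * K ≤ N := by exact_mod_cast g4
      linarith
  have g6 : (8 : ℝ) ^ N ≤ (81 / 10) ^ (N - K) := by
    have h4 : (81 / 10 : ℝ) ^ (N - K) * (81 / 10) ^ K = (81 / 10) ^ N := by
      rw [← pow_add]; congr 1; omega
    have h5 : (8 : ℝ) ^ N * (81 / 80) ^ N = (81 / 10) ^ N := by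
      rw [← mul_pow]; norm_num
    have h6 : (0 : ℝ) < (81 / 10) ^ K := by positivity
    have h7 : (8 : ℝ) ^ N * (81 / 10) ^ K ≤ (81 / 10) ^ (N - K) * (81 / 10) ^ K := by
      rw [h4, ← h5]
      exact mul_le_mul_of_nonneg_left g3 (by positivity)
    exact le_of_mul_le_mul_right h7 h6
  have g7 := g6.trans (g5.trans (Nat.cast_le.2 hsub))
  exact_mod_cast g7

end Pool.Agent.U857.PX
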