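import Pool.Agent.U857.PX.A8
import Pool.Agent.U857.PX.DirTen
/-!
Base 10: the numerical data; digits prescribed at a set of places of small density.
-/
set_option autoImplicit false

namespace Pool.Agent.U857.PX

open Finset Filter Topology
open Pool.Agent.W89.PW

lemma wm_gen {s t : ℕ} (B : ℕ) (m : ℕ) : ∀ R : ℕ, m * (s + t - 2) ≤ R →
    ∑ z ∈ range (R + 1), wm s t m z * B ^ z = ((∑ i ∈ range s, B ^ i) * ∑ j ∈ range t, B ^ j) ^ m := by
  induction m with
  | zero =>
    intro R _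
    rw [sum_eq_single 0]
    · simp [wm]
    · intro z _ hz
      simp [wm, hz]
    · intro h
      simp at h
  | succ m ih =>
    intro R hR
    have e1 : (m + 1) * (s + t - 2) = m * (s + t - 2) + (s + t - 2) := by ring
    have h1 : ∀ z : ℕ, wm s t (m + 1) z * B ^ z = ∑ i ∈ range s, ∑ j ∈ range t,
        (if i + j ≤ z then wm s t m (z - (i + j)) else 0) * B ^ z := by
      intro z
      rw [wm, sum_mul]
      apply sum_congr rfl
      intro i _
      rw [sum_mul]
    rw [sum_congr rfl fun z _ => h1 z, sum_comm]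
    have h2 : ∀ i ∈ range s, ∑ z ∈ range (R + 1), ∑ j ∈ range t,
        (if i + j ≤ z then wm s t m (z - (i + j)) else 0) * B ^ z =
        ∑ j ∈ range t, B ^ (i + j) * ((∑ i ∈ range s, B ^ i) * ∑ j ∈ range t, B ^ j) ^ m := by
      intro i hi
      rw [sum_comm]
      apply sum_congr rfl
      intro j hj
      rw [mem_range] at hi hj
      rw [show R + 1 = (i + j) + (R - (i + j) + 1) by omega, sum_range_add]
      have h3 : ∑ z ∈ range (i + j), (if i + j ≤ z then wm s t m (z - (i + j)) else 0) * B ^ z = 0 := by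
        apply sum_eq_zero
        intro z hz
        rw [mem_range] at hz
        rw [if_neg (by omega), zero_mul]
      rw [h3, zero_add, ← ih (R - (i + j)) (by omega), mul_sum]
      apply sum_congr rfl
      intro z _
      rw [if_pos (Nat.le_add_right _ _), Nat.add_sub_cancel_left, pow_add B (i + j) z]
      ring
    rw [sum_congr rfl h2]
    simp_rw [← sum_mul]
    rw [pow_succ' ((∑ i ∈ range s, B ^ i) * ∑ j ∈ range t, B ^ j)]
    congr 1
    rw [sum_mul_sum]
    apply sum_congr rfl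
    intro i _
    apply sum_congr rfl
    intro j _
    rw [pow_add]

/-- digits of a number given by its expansion -/
lemma digit_of (B : ℕ) (hB : 0 < B) : ∀ (i n : ℕ) (f : ℕ → ℕ), (∀ z, f z < B) → i < n →
    (∑ z ∈ range n, f z * B ^ z) / B ^ i % B = f i := by
  intro i
  induction i with
  | zero =>
    intro n f hf hn
    obtain ⟨k, rfl⟩ : ∃ k, n = k + 1 := ⟨n - 1, by omega⟩
    rw [sum_range_succ', pow_zero, Nat.div_one]
    have h1 : ∑ z ∈ range k, f (z + 1) * B ^ (z + 1) = B * ∑ z ∈ range k, f (z + 1) * B ^ z := by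
      rw [mul_sum]
      apply sum_congr rfl
      intro z _
      rw [pow_succ]; ring
    rw [h1, mul_one, Nat.mul_add_mod, Nat.mod_eq_of_lt (hf 0)]
  | succ i ih =>
    intro n f hf hn
    obtain ⟨k, rfl⟩ : ∃ k, n = k + 1 := ⟨n - 1, by omega⟩
    rw [sum_range_succ']
    have h1 : ∑ z ∈ range k, f (z + 1) * B ^ (z + 1) = B * ∑ z ∈ range k, f (z + 1) * B ^ z := by
      rw [mul_sum]
      apply sum_congr rfl
      intro z _
      rw [pow_succ]; ring
    rw [h1, pow_zero, mul_one, pow_succ', ← Nat.div_div_eq_div_mul, Nat.mul_add_div hB,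
      Nat.div_eq_of_lt (hf 0), add_zero]
    exact ih k (fun z => f (z + 1)) (fun z => hf (z + 1)) (by omega)

lemma wm_le (s t m : ℕ) (z : ℕ) : wm s t m z ≤ (s * t) ^ m := by
  rcases Nat.lt_or_ge (m * (s + t - 2)) z with h | h
  · rw [wm_zero_of m z h]
    positivity
  · have h1 := wm_gen (s := s) (t := t) 1 m (m * (s + t - 2)) le_rfl
    simp only [one_pow, mul_one, sum_const, card_range, smul_eq_mul] at h1
    rw [← h1]
    exact single_le_sum (f := fun z => wm s t m z) (fun _ _ => Nat.zero_le _) (mem_range.2 (by omega))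

lemma M2_ten : M2 5 6 10 ≤ 401 / 10000 := by
  have h1 : ∀ z ∈ range 91, wm 5 6 10 z =
      ((∑ i ∈ range 5, (2 ^ 64) ^ i) * ∑ j ∈ range 6, (2 ^ 64) ^ j) ^ 10 / (2 ^ 64) ^ z % (2 ^ 64) := by
    intro z hz
    rw [mem_range] at hz
    rw [← wm_gen (s := 5) (t := 6) (2 ^ 64) 10 90 (by norm_num)]
    symm
    apply digit_of (2 ^ 64) (by norm_num) z 91 (fun z => wm 5 6 10 z) _ hz
    intro z
    refine lt_of_le_of_lt (wm_le 5 6 10 z) (by norm_num)
  have h2 : (∑ z ∈ range 91, (wm 5 6 10 z) ^ 2) * 10000 ≤ 401 * 30 ^ 20 := by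
    rw [sum_congr rfl fun z hz => by rw [h1 z hz]]
    decide +kernel
  unfold M2
  rw [div_le_iff₀ (by positivity)]
  have h3 : ((∑ z ∈ range 91, (wm 5 6 10 z) ^ 2 : ℕ) : ℝ) * 10000 ≤ 401 * 30 ^ 20 := by exact_mod_cast h2
  have e : 10 * (5 + 6 - 2) + 1 = 91 := by norm_num
  rw [e]
  push_cast at h3 ⊢
  have e2 : ((5 : ℝ) * 6) ^ (2 * 10) = 30 ^ 20 := by norm_num
  rw [e2]
  linarith

lemma M2_ten_small {δ : ℝ} (hδ : δ ≤ 7 / 25) : ((10 : ℕ) : ℝ) * M2 5 6 10 ^ (1 - δ) < 1 := by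
  have h0 := M2_pos (s := 5) (t := 6) (by norm_num) (by norm_num) 10
  have h1 : M2 5 6 10 ^ (1 - δ) ≤ (401 / 10000 : ℝ) ^ (1 - δ) :=
    Real.rpow_le_rpow h0.le M2_ten (by linarith)
  have h2 : (401 / 10000 : ℝ) ^ (1 - δ) ≤ (401 / 10000 : ℝ) ^ (18 / 25 : ℝ) :=
    Real.rpow_le_rpow_of_exponent_ge (by norm_num) (by norm_num) (by linarith)
  have h3 : (401 / 10000 : ℝ) ^ (18 / 25 : ℝ) < 1 / 10 := by
    have h4 : ((401 / 10000 : ℝ) ^ (18 / 25 : ℝ)) ^ 25 < (1 / 10) ^ 25 := by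
      rw [← Real.rpow_natCast, ← Real.rpow_mul (by norm_num)]
      have e : (18 / 25 : ℝ) * ((25 : ℕ) : ℝ) = ((18 : ℕ) : ℝ) := by norm_num
      rw [e, Real.rpow_natCast]
      norm_num
    exact lt_of_pow_lt_pow_left₀ 25 (by norm_num) h4
  push_cast
  linarith

/-- the free positions -/
def freeP (L : ℕ) (S : Finset ℕ) : Finset ℕ := (range L).filter (fun c => L - c ∉ S)

lemma freeP_sub (L : ℕ) (S : Finset ℕ) : freeP L S ⊆ range L := filter_subset _ _

lemma freeP_count {L : ℕ} {S : Finset ℕ} (u v : ℕ) (huv : u ≤ v) (hv : v ≤ L) :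
    v - u ≤ ((freeP L S).filter (fun c => u ≤ c ∧ c < v)).card +
      (S.filter (fun i => L + 1 - v ≤ i ∧ i < L + 1 - u)).card := by
  have h1 := card_filter_add_card_filter_not (s := Ico u v) (fun c => L - c ∉ S)
  rw [Nat.card_Ico] at h1
  have h2 : (Ico u v).filter (fun c => L - c ∉ S) = (freeP L S).filter (fun c => u ≤ c ∧ c < v) := by
    ext c
    unfold freeP
    rw [mem_filter, mem_filter, mem_filter, mem_Ico, mem_range]
    constructor
    · rintro ⟨⟨h3, h4⟩, h5⟩
      exact ⟨⟨by omega, h5⟩, h3, h4⟩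
    · rintro ⟨⟨_, h5⟩, h3, h4⟩
      exact ⟨⟨h3, h4⟩, h5⟩
  have h3 : ((Ico u v).filter (fun c => ¬ (L - c ∉ S))).card ≤
      (S.filter (fun i => L + 1 - v ≤ i ∧ i < L + 1 - u)).card := by
    apply card_le_card_of_injOn (fun c => L - c)
    · intro c hc
      rw [mem_coe, mem_filter, mem_Ico] at hc
      rw [mem_coe, mem_filter]
      obtain ⟨⟨h4, h5⟩, h6⟩ := hc
      refine ⟨not_not.1 h6, ?_, ?_⟩
      · show L + 1 - v ≤ L - c
        omega
      · show L - c < L + 1 - u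
        omega
    · intro c hc c' hc' h
      rw [mem_coe, mem_filter, mem_Ico] at hc hc'
      simp only at h
      omega
  rw [h2] at h1
  omega

lemma freeP_dens {L : ℕ} {S : Finset ℕ} {δ C : ℝ}
    (hS : ∀ u v : ℕ, u ≤ v → ((S.filter (fun i => u ≤ i ∧ i < v)).card : ℝ) ≤ δ * ((v : ℝ) - u) + C) :
    Dens δ C L (freeP L S) := by
  refine ⟨freeP_sub L S, fun v hv => ?_⟩
  have h1 := freeP_count (S := S) 0 v (Nat.zero_le _) hv
  have h2 := hS (L + 1 - v) (L + 1) (by omega)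
  have h3 : ((L + 1 - v : ℕ) : ℝ) = L + 1 - v := by
    rw [Nat.cast_sub (by omega)]; push_cast; ring
  rw [h3] at h2
  have h4 : (v : ℝ) ≤ (((freeP L S).filter (fun c => c < v)).card : ℝ) +
      ((S.filter (fun i => L + 1 - v ≤ i ∧ i < L + 1)).card : ℝ) := by
    have h5 : v ≤ ((freeP L S).filter (fun c => c < v)).card + (S.filter (fun i => L + 1 - v ≤ i ∧ i < L + 1)).card := by
      have h6 : (freeP L S).filter (fun c => 0 ≤ c ∧ c < v) = (freeP L S).filter (fun c => c < v) := by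
        apply filter_congr; intro c _; simp
      rw [h6, Nat.sub_zero, Nat.sub_zero] at h1
      exact h1
    exact_mod_cast h5
  push_cast at h2
  linarith

lemma freeP_adj {L : ℕ} {S : Finset ℕ} {δ C : ℝ} {k : ℕ} (hk : 2 * k * δ + C < k)
    (hS : ∀ u v : ℕ, u ≤ v → ((S.filter (fun i => u ≤ i ∧ i < v)).card : ℝ) ≤ δ * ((v : ℝ) - u) + C) :
    Adj (2 * k) L (freeP L S) := by
  intro u hu
  by_contra hcon
  push Not at hcon
  -- every pair contains a frozen position
  have h1 : ∀ j < k, ∃ c, (c = u + 2 * j ∨ c = u + 2 * j + 1) ∧ L - c ∈ S := by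
    intro j hj
    have h2 := hcon (u + 2 * j) (by omega) (by omega)
    by_cases h3 : L - (u + 2 * j) ∈ S
    · exact ⟨u + 2 * j, Or.inl rfl, h3⟩
    · refine ⟨u + 2 * j + 1, Or.inr rfl, ?_⟩
      by_contra h4
      apply h2
      · unfold freeP; rw [mem_filter, mem_range]; exact ⟨by omega, h3⟩
      · unfold freeP; rw [mem_filter, mem_range]; exact ⟨by omega, h4⟩
  have h2 : ∃ f : ℕ → ℕ, ∀ j < k, (f j = u + 2 * j ∨ f j = u + 2 * j + 1) ∧ L - f j ∈ S := by
    have h3 : ∀ j, ∃ c, j < k → (c = u + 2 * j ∨ c = u + 2 * j + 1) ∧ L - c ∈ S := by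
      intro j
      by_cases hj : j < k
      · obtain ⟨c, hc⟩ := h1 j hj
        exact ⟨c, fun _ => hc⟩
      · exact ⟨0, fun h => absurd h hj⟩
    choose f hf using h3
    exact ⟨f, hf⟩
  obtain ⟨f, hf⟩ := h2
  have h3 : (range k).card ≤ (S.filter (fun i => L + 1 - (u + 2 * k) ≤ i ∧ i < L + 1 - u)).card := by
    apply card_le_card_of_injOn (fun j => L - f j)
    · intro j hj
      rw [mem_coe, mem_range] at hj
      obtain ⟨h4, h5⟩ := hf j hj
      rw [mem_coe, mem_filter]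
      refine ⟨h5, ?_, ?_⟩
      · show L + 1 - (u + 2 * k) ≤ L - f j
        omega
      · show L - f j < L + 1 - u
        omega
    · intro j hj j' hj' h
      rw [mem_coe, mem_range] at hj hj'
      obtain ⟨h4, _⟩ := hf j hj
      obtain ⟨h5, _⟩ := hf j' hj'
      simp only at h
      omega
  have h4 := hS (L + 1 - (u + 2 * k)) (L + 1 - u) (by omega)
  have h5 : ((L + 1 - (u + 2 * k) : ℕ) : ℝ) = L + 1 - (u + 2 * k) := by
    rw [Nat.cast_sub (by omega)]; push_cast; ring
  have h6 : ((L + 1 - u : ℕ) : ℝ) = L + 1 - u := by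
    rw [Nat.cast_sub (by omega)]; push_cast; ring
  rw [h5, h6] at h4
  rw [card_range] at h3
  have h7 : (k : ℝ) ≤ ((S.filter (fun i => L + 1 - (u + 2 * k) ≤ i ∧ i < L + 1 - u)).card : ℝ) := by exact_mod_cast h3
  nlinarith

end Pool.Agent.U857.PX
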