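import Pool.Agent.U857.PX.GS
import Pool.Agent.R471.PalShortFin
/-!
Palindromes `n` with prescribed leading digits such that `g ∣ n`, `n / g ≡ a (mod M)` and `n / g` has few prime
factors.  The first step: the sieve.
-/
set_option autoImplicit false

namespace Pool.Agent.U857.PX

open Finset Filter Topology
open Pool.Agent.W89.Sv (rem)
open Pool.Agent.W89.PW
open Pool.Agent.R471.PShift (cntR BVR SqR)

/-- the class `n ≡ g y (mod g M q)` with `y ≡ a (mod M)`, `y ≡ 0 (mod q)` -/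
lemma class_iff {g M q a : ℕ} (hg : 0 < g) (hMq : M.Coprime q) :
    ∃ h : ℕ, ∀ n : ℕ, (g ∣ n ∧ n / g ≡ a [MOD M] ∧ q ∣ n / g) ↔ n ≡ h [MOD g * (M * q)] := by
  obtain ⟨y, hy1, hy2⟩ := Nat.chineseRemainder hMq a 0
  refine ⟨g * y, fun n => ?_⟩
  constructor
  · rintro ⟨⟨k, rfl⟩, h2, h3⟩
    rw [Nat.mul_div_cancel_left _ hg] at h2 h3
    apply Nat.ModEq.mul_left'
    exact (Nat.modEq_and_modEq_iff_modEq_mul hMq).1 ⟨h2.trans hy1.symm,
      ((Nat.modEq_zero_iff_dvd.2 h3).trans hy2.symm)⟩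
  · intro h
    have h1 : n ≡ g * y [MOD g] := h.of_mul_right _
    have h2 : g ∣ n := by
      have h3 : n ≡ 0 [MOD g] := h1.trans (Nat.modEq_zero_iff_dvd.2 (dvd_mul_right g y))
      exact Nat.modEq_zero_iff_dvd.1 h3
    obtain ⟨k, rfl⟩ := h2
    have h4 := Nat.ModEq.mul_left_cancel' hg.ne' h
    obtain ⟨h5, h6⟩ := (Nat.modEq_and_modEq_iff_modEq_mul hMq).2 h4
    rw [Nat.mul_div_cancel_left _ hg]
    exact ⟨dvd_mul_right _ _, h5.trans hy1, Nat.modEq_zero_iff_dvd.1 (h6.trans hy2)⟩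

/-- the general theorem for a residue class -/
theorem short1 {b s t r g M a : ℕ} (hb : 3 ≤ b) (hs : 2 ≤ s) (hst : s ≤ t) (hbst : s + t = b + 1)
    (hg0 : 0 < g) (hg : g.Coprime (2 * b)) (hM : M.Coprime (2 * b)) (ha : a.Coprime M)
    {κ κ' lam ρ C0 : ℝ} (hκ0' : 0 < κ') (hκκ : κ' < κ) (hκ : (b : ℝ) ^ κ * HH s t < 1)
    (hm4 : (b : ℝ) * m4 s t < 1) (hl0 : 0 < lam) (hl1 : lam ≤ 1)
    (hlam : lam * (1174 / 1000) < 994 / 1000) (hρ : 0 < ρ) (hr : 1 / lam + 44 * ρ / (43 * κ') < r + 1) :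
    ∃ c : ℝ, 0 < c ∧ ∀ᶠ L : ℕ in atTop, ∀ (n : (Fin L → Fin s × Fin t) → ℕ) (u : ℕ → ℕ → ℕ) (Mx : ℕ),
      (Mx : ℝ) ≤ ρ * L + C0 → (∀ m, 0 < n m ∧ n m < b ^ Mx ∧ (n m).Coprime (2 * b)) →
      (∀ q : ℕ, q.Coprime (2 * b) → ∀ h m, n m ≡ h [MOD q] ↔ pv b s t L m ≡ u q h [MOD q]) →
      ∃ G : Finset (Fin L → Fin s × Fin t), c * ((s : ℝ) * t) ^ L / L ≤ G.card ∧ ∀ m ∈ G,
        (g ∣ n m ∧ n m / g ≡ a [MOD M]) ∧
        (n m / g).primeFactorsList.length ≤ r ∧ ∀ p ∈ (n m / g).primeFactorsList, (b : ℝ) ^ (κ' / 6 * L) < p := by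
  classical
  have hκ0 : 0 < κ := hκ0'.trans hκκ
  have hκ1 : κ < 1 := kappa_lt_one hb (by omega) (by omega) hbst hκ
  have hBig : BigW b s t κ := Pool.Agent.W822.PWBig.main Pool.Agent.W880.PW.mainG Pool.Agent.W342.PW2.mainLS
    b s t hb (by omega) (by omega) hbst hm4 κ hκ0 hκ
  have hPt : PtW b s t := Pool.Agent.W571.PW.Pt.main b s t (by omega) hs (by omega) hbst
  have hBV := BVR (b := b) (s := s) (t := t) hb (by omega) (by omega) hPt hκ0 hκ1 hBig 4
  have hSq := SqR Pool.Agent.W880.PW.mainGsq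
    Pool.Agent.W342.PW2.mainSq4 (b := b) (s := s) (t := t) hb (by omega) (by omega) hbst hm4 hκ0 hκ
    (η := κ' / 6) (by positivity) 4
  have hM0 : 0 < M := by
    rcases Nat.eq_zero_or_pos M with h | h
    · rw [h, Nat.coprime_zero_left] at hM; omega
    · exact h
  set m0 : ℕ := 2 * b * M with hm0
  have hm00 : m0 ≠ 0 := by positivity
  have h2m : 2 ∣ m0 := ⟨b * M, by rw [hm0]; ring⟩
  obtain ⟨c, hc0, hc⟩ := gs (b := b) (m0 := m0) (r := r) (κ := κ') (lam := lam) (ρ := ρ) (C0 := C0) (by omega)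
    hm00 h2m hκ0' (hκκ.le.trans hκ1.le) hl0 hl1 hlam hρ hr
  have hbR : (3 : ℝ) ≤ b := by exact_mod_cast hb
  have hgM0 : 0 < g * M := Nat.mul_pos hg0 hM0
  have hgMR : (0 : ℝ) < (g * M : ℕ) := by exact_mod_cast hgM0
  refine ⟨c / (g * M : ℕ), by positivity, ?_⟩
  have e1 : ∀ᶠ L : ℕ in atTop, ((g * M : ℕ) : ℝ) ≤ (b : ℝ) ^ ((κ - κ') * (L : ℝ)) :=
    (tendsto_bpow (by omega) (a := κ - κ') (by linarith)).eventually_ge_atTop _
  filter_upwards [hc, hBV, hSq, e1, eventually_ge_atTop (g * M), eventually_ge_atTop 1] with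
    L h1 h2 h3 h4 h5 h6 nn u Mx hMx hnn hdiv
  have hL0 : (0 : ℝ) < L := by exact_mod_cast h6
  set Y : ℝ := ((s : ℝ) * t) ^ L with hY
  have hs0 : (0 : ℝ) < s := by exact_mod_cast (by omega : 0 < s)
  have ht0 : (0 : ℝ) < t := by exact_mod_cast (by omega : 0 < t)
  have hY0 : 0 < Y := by positivity
  set X : ℝ := Y / (g * M : ℕ) with hX
  have hX0 : 0 < X := by positivity
  set S : Finset (Fin L → Fin s × Fin t) := univ.filter (fun m => g ∣ nn m ∧ nn m / g ≡ a [MOD M]) with hS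
  have hYX : Y / (L : ℝ) ^ 4 ≤ X / (L : ℝ) ^ 3 := by
    rw [hX, div_div, div_le_div_iff₀ (by positivity) (by positivity)]
    have h7 : ((g * M : ℕ) : ℝ) ≤ L := by exact_mod_cast h5
    have h8 : ((g * M : ℕ) : ℝ) * (L : ℝ) ^ 3 ≤ (L : ℝ) ^ 4 := by
      calc ((g * M : ℕ) : ℝ) * (L : ℝ) ^ 3 ≤ (L : ℝ) * (L : ℝ) ^ 3 := by gcongr
        _ = (L : ℝ) ^ 4 := by ring
    exact mul_le_mul_of_nonneg_left h8 hY0.le
  -- the classes
  have hcl : ∀ q : ℕ, ∃ h : ℕ, q.Coprime M → ∀ n : ℕ, (g ∣ n ∧ n / g ≡ a [MOD M] ∧ q ∣ n / g) ↔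
      n ≡ h [MOD g * (M * q)] := by
    intro q
    by_cases hq : q.Coprime M
    · obtain ⟨h, hh⟩ := class_iff (g := g) (M := M) (q := q) (a := a) hg0 hq.symm
      exact ⟨h, fun _ => hh⟩
    · exact ⟨0, fun h => absurd h hq⟩
  choose hcls hcls' using hcl
  obtain ⟨G, hGS, hG1, hG2⟩ := h1 (Fin L → Fin s × Fin t) S (fun m => nn m / g) X Mx hX0.le hMx
    (by
      intro m hm
      rw [hS, mem_filter] at hm
      obtain ⟨-, hm1, hm2⟩ := hm
      obtain ⟨g1, g2, g3⟩ := hnn m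
      refine ⟨Nat.div_pos (Nat.le_of_dvd g1 hm1) hg0, (Nat.div_le_self _ _).trans_lt g2, ?_⟩
      rw [hm0]
      apply Nat.Coprime.mul_right
      · exact Nat.Coprime.coprime_dvd_left (Nat.div_dvd_of_dvd hm1) g3
      · have : (nn m / g).gcd M = a.gcd M := hm2.gcd_eq
        rw [Nat.Coprime, this]
        exact ha)
    (by
      refine le_trans ?_ hYX
      have h7 := h2 (fun Q => u Q (hcls (Q / (g * M))))
      refine le_trans ?_ h7
      have hinj : ∀ q1 ∈ (Icc 1 ⌊(b : ℝ) ^ (κ' * L)⌋₊).filter (fun q => q.Coprime m0),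
          ∀ q2 ∈ (Icc 1 ⌊(b : ℝ) ^ (κ' * L)⌋₊).filter (fun q => q.Coprime m0),
          g * M * q1 = g * M * q2 → q1 = q2 := fun q1 _ q2 _ h => Nat.eq_of_mul_eq_mul_left hgM0 h
      have hsub : ((Icc 1 ⌊(b : ℝ) ^ (κ' * L)⌋₊).filter (fun q => q.Coprime m0)).image (fun q => g * M * q) ⊆
          (Icc 1 ⌊(b : ℝ) ^ (κ * L)⌋₊).filter (fun q => q.Coprime (2 * b)) := by
        intro Q hQ
        rw [mem_image] at hQ
        obtain ⟨q, hq, rfl⟩ := hQ
        rw [mem_filter, mem_Icc] at hq ⊢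
        refine ⟨⟨Nat.mul_pos hgM0 (by omega), ?_⟩, ?_⟩
        · apply Nat.le_floor
          have h8 : (q : ℝ) ≤ (b : ℝ) ^ (κ' * L) := (Nat.le_floor_iff (by positivity)).1 hq.1.2
          push_cast
          calc (g : ℝ) * M * q = ((g * M : ℕ) : ℝ) * q := by push_cast; ring
            _ ≤ (b : ℝ) ^ ((κ - κ') * (L : ℝ)) * (b : ℝ) ^ (κ' * L) := by gcongr
            _ = (b : ℝ) ^ (κ * L) := by
              rw [← Real.rpow_add (by linarith)]
              congr 1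
              ring
        · exact (hg.mul_left hM).mul_left (Nat.Coprime.coprime_dvd_right (Dvd.intro _ rfl) hq.2)
      refine le_trans ?_ (sum_le_sum_of_subset_of_nonneg hsub fun _ _ _ => by positivity)
      rw [sum_image hinj]
      apply sum_le_sum
      intro q hq
      rw [mem_filter, mem_Icc] at hq
      have hqc : q.Coprime (2 * b) := Nat.Coprime.coprime_dvd_right (Dvd.intro _ rfl) hq.2
      have hqM : q.Coprime M := Nat.Coprime.coprime_dvd_right (Dvd.intro_left _ rfl) hq.2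
      have hQc : (g * (M * q)).Coprime (2 * b) := hg.mul_left (hM.mul_left hqc)
      have hdivq : g * M * q / (g * M) = q := Nat.mul_div_cancel_left _ hgM0
      have hrem : rem S (fun m => nn m / g) X q = cntR b s t L (g * M * q) (u (g * M * q)
          (hcls (g * M * q / (g * M)))) - ((s : ℝ) * t) ^ L / ((g * M * q : ℕ) : ℝ) := by
        unfold rem cntR
        congr 1
        · congr 2
          rw [hS, filter_filter]
          apply filter_congr
          intro m _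
          rw [hdivq, mul_assoc, ← hdiv _ hQc, ← hcls' q hqM (nn m), and_assoc]
        · rw [hX, ← hY]
          push_cast
          rw [div_div]
      rw [hrem]
      have htau : (q.divisors.card : ℝ) ≤ ((g * M * q).divisors.card : ℝ) := by
        have : q.divisors ⊆ (g * M * q).divisors :=
          Nat.divisors_subset_of_dvd (by have := hq.1.1; positivity) (dvd_mul_left _ _)
        exact_mod_cast card_le_card this
      gcongr)
    (by
      intro B hBS hB
      refine le_trans ?_ hYX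
      refine le_trans ?_ (h3 (fun Q => u Q 0))
      have : B.card ≤ ((univ : Finset (Fin L → Fin s × Fin t)).filter (fun m => ∃ p : ℕ, p.Coprime (2 * b) ∧
          (b : ℝ) ^ (κ' / 6 * L) ≤ p ∧ (p : ℝ) ≤ (b : ℝ) ^ (κ * L) ∧
          pv b s t L m ≡ (fun Q => u Q 0) (p ^ 2) [MOD p ^ 2])).card := by
        apply card_le_card
        intro m hm
        rw [mem_filter]
        obtain ⟨p, hp1, hp2, hp3, hp4⟩ := hB m hm
        have hpc : p.Coprime (2 * b) := Nat.Coprime.coprime_dvd_right (Dvd.intro _ rfl) hp1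
        refine ⟨mem_univ _, p, hpc, hp2, hp3.trans ?_, ?_⟩
        · apply Real.rpow_le_rpow_of_exponent_le (by linarith)
          exact mul_le_mul_of_nonneg_right hκκ.le hL0.le
        · show pv b s t L m ≡ u (p ^ 2) 0 [MOD p ^ 2]
          rw [← hdiv _ (hpc.pow_left 2)]
          have hmS := hBS hm
          rw [hS, mem_filter] at hmS
          exact Nat.modEq_zero_iff_dvd.2 (hp4.trans (Nat.div_dvd_of_dvd hmS.2.1))
      exact_mod_cast this)
  refine ⟨G, ?_, fun m hm => ⟨?_, hG2 m hm⟩⟩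
  · refine le_trans (le_of_eq ?_) hG1
    rw [hX]
    field_simp
  · have := hGS hm
    rw [hS, mem_filter] at this
    exact this.2

end Pool.Agent.U857.PX
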